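import Mathlib

set_option autoImplicit false

/-!
Type C Hessenberg spaces, their spline rings, left quotients and dot action characters.
-/

namespace Pool.Agent.R136.Hess

open MvPolynomial Matrix

/-- The signed letters: `(i, false)` stands for `i + 1` and `(i, true)` for `-(i + 1)`. -/
abbrev L (n : ℕ) : Type := Fin n × Bool

/-- The negative of a signed letter. -/
def neg {n : ℕ} (a : L n) : L n := (a.1, !a.2)

lemma W_mul {n : ℕ} {u v : Equiv.Perm (L n)} (hu : ∀ a, u (neg a) = neg (u a))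
    (hv : ∀ a, v (neg a) = neg (v a)) (a : L n) : (u * v) (neg a) = neg ((u * v) a) := by
  show u (v (neg a)) = neg (u (v a))
  rw [hv, hu]

lemma W_one {n : ℕ} (a : L n) : (1 : Equiv.Perm (L n)) (neg a) = neg ((1 : Equiv.Perm (L n)) a) := rfl

lemma W_inv {n : ℕ} {u : Equiv.Perm (L n)} (hu : ∀ a, u (neg a) = neg (u a)) (a : L n) :
    u⁻¹ (neg a) = neg (u⁻¹ a) := by
  rw [Equiv.Perm.inv_eq_iff_eq, hu]
  exact congrArg neg (u.apply_symm_apply a).symm

/-- The group `W_n` of signed permutations as a subgroup: the bijections `w` of the signed letters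
with `w (-a) = - w a`. -/
def WS (n : ℕ) : Subgroup (Equiv.Perm (L n)) where
  carrier := {w | ∀ a, w (neg a) = neg (w a)}
  mul_mem' := W_mul
  one_mem' := W_one
  inv_mem' := W_inv

/-- The group `W_n` of signed permutations, as a type; the underlying bijection of `w : W n` is
`w.1`. -/
def W (n : ℕ) : Type := WS n

instance groupW (n : ℕ) : Group (W n) := Subgroup.toGroup (WS n)

/-- The linear form `x_a` of a signed letter, with `x_{-i} = - x_i`. -/
noncomputable def xv {n : ℕ} (a : L n) : MvPolynomial (Fin n) ℂ :=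
  if a.2 = true then -X a.1 else X a.1

/-- The action of `w` on polynomials: `x_i` goes to `x_{w(i)}`. -/
noncomputable def actP {n : ℕ} (w : W n) : MvPolynomial (Fin n) ℂ →ₐ[ℂ] MvPolynomial (Fin n) ℂ :=
  aeval (fun i => xv (w.1 (i, false)))

/-- `s` is the reflection of the root `x_a - x_b` (for `a ≠ b`): it exchanges `a` and `b` (and so
`-a` and `-b`) and fixes all other signed letters. -/
def IsRefl {n : ℕ} (s : W n) (a b : L n) : Prop :=
  s.1 a = b ∧ s.1 b = a ∧ ∀ c, c ≠ a → c ≠ b → c ≠ neg a → c ≠ neg b → s.1 c = c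

/-! ### The Lie algebra -/

/-- The position of a signed letter in the order `1 < 2 < ... < n < -n < ... < -2 < -1`. -/
def ord {n : ℕ} (a : L n) : ℤ := if a.2 = true then 2 * (n : ℤ) - 1 - a.1 else a.1

/-- The Gram matrix of the symplectic form with `ω (e_i, e_{-i}) = 1` for `i > 0`. -/
def gram (n : ℕ) : Matrix (L n) (L n) ℂ :=
  fun a b => if b = neg a then (if a.2 = true then -1 else 1) else 0

/-- The condition `ω (A x, y) + ω (x, A y) = 0`. -/
def InSp {n : ℕ} (A : Matrix (L n) (L n) ℂ) : Prop := Aᵀ * gram n + gram n * A = 0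

lemma InSp_add {n : ℕ} {A B : Matrix (L n) (L n) ℂ} (hA : InSp A) (hB : InSp B) : InSp (A + B) := by
  unfold InSp at hA hB ⊢
  rw [Matrix.transpose_add, Matrix.add_mul, Matrix.mul_add,
    show Aᵀ * gram n + Bᵀ * gram n + (gram n * A + gram n * B) =
      (Aᵀ * gram n + gram n * A) + (Bᵀ * gram n + gram n * B) by abel, hA, hB, add_zero]

lemma InSp_zero {n : ℕ} : InSp (0 : Matrix (L n) (L n) ℂ) := by simp [InSp]

lemma InSp_smul {n : ℕ} (c : ℂ) {A : Matrix (L n) (L n) ℂ} (hA : InSp A) : InSp (c • A) := by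
  unfold InSp at hA ⊢
  rw [Matrix.transpose_smul, Matrix.smul_mul, Matrix.mul_smul, ← smul_add, hA, smul_zero]

/-- The Lie algebra `sp_{2n}(ℂ)`. -/
def sp (n : ℕ) : Submodule ℂ (Matrix (L n) (L n) ℂ) where
  carrier := {A | InSp A}
  add_mem' := InSp_add
  zero_mem' := InSp_zero
  smul_mem' := InSp_smul

/-- The value at the letter `a` of the weight of the standard representation: `t_i` for `a = i`,
`- t_i` for `a = -i`. -/
def tv {n : ℕ} (t : Fin n → ℂ) (a : L n) : ℂ := if a.2 = true then -t a.1 else t a.1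

/-- The element of the Cartan subalgebra (the diagonal matrices of `sp_{2n}`) with coordinates `t`. -/
def torus {n : ℕ} (t : Fin n → ℂ) : Matrix (L n) (L n) ℂ := Matrix.diagonal (tv t)

/-- Elements of `sp_{2n}` which are upper triangular for the order `1 < ... < n < -n < ... < -1`. -/
def InBorel {n : ℕ} (A : Matrix (L n) (L n) ℂ) : Prop :=
  A ∈ sp n ∧ ∀ a b, ord b < ord a → A a b = 0

lemma InBorel_add {n : ℕ} {A B : Matrix (L n) (L n) ℂ} (hA : InBorel A) (hB : InBorel B) :
    InBorel (A + B) :=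
  ⟨(sp n).add_mem hA.1 hB.1, fun a b h => by
    rw [Matrix.add_apply, hA.2 a b h, hB.2 a b h, add_zero]⟩

lemma InBorel_zero {n : ℕ} : InBorel (0 : Matrix (L n) (L n) ℂ) :=
  ⟨(sp n).zero_mem, fun _ _ _ => rfl⟩

lemma InBorel_smul {n : ℕ} (c : ℂ) {A : Matrix (L n) (L n) ℂ} (hA : InBorel A) :
    InBorel (c • A) :=
  ⟨(sp n).smul_mem c hA.1, fun a b h => by rw [Matrix.smul_apply, hA.2 a b h, smul_zero]⟩

/-- The Borel subalgebra: the upper triangular matrices of `sp_{2n}` (for the order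
`1 < ... < n < -n < ... < -1`). Its roots, the positive roots, are the `x_a - x_b` with `a` before
`b`. -/
def borel (n : ℕ) : Submodule ℂ (Matrix (L n) (L n) ℂ) where
  carrier := {A | InBorel A}
  add_mem' := InBorel_add
  zero_mem' := InBorel_zero
  smul_mem' := InBorel_smul

/-- Hessenberg spaces: the linear subspaces `H` with `b ⊆ H ⊆ g` and `[b, H] ⊆ H`. -/
def IsHess {n : ℕ} (H : Submodule ℂ (Matrix (L n) (L n) ℂ)) : Prop :=
  borel n ≤ H ∧ H ≤ sp n ∧ ∀ A ∈ borel n, ∀ B ∈ H, A * B - B * A ∈ H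

/-- The root space of the root `x_a - x_b`: the elements `A` of `sp_{2n}` with
`[t, A] = (t_a - t_b) A` for all `t` in the Cartan subalgebra. -/
def rootSpace {n : ℕ} (a b : L n) : Set (Matrix (L n) (L n) ℂ) :=
  {A | A ∈ sp n ∧ ∀ t : Fin n → ℂ, torus t * A - A * torus t = (tv t a - tv t b) • A}

/-- The positive roots `α = x_a - x_b` (given by the pairs `(a, b)` with `a` before `b`) such that the
root space of `-α = x_b - x_a` is contained in `H`. -/
def rootsOf {n : ℕ} (H : Submodule ℂ (Matrix (L n) (L n) ℂ)) : Set (L n × L n) :=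
  {p | ord p.1 < ord p.2 ∧ rootSpace p.2 p.1 ⊆ H}

/-! ### Splines -/

/-- The tuple `ρ` of polynomials, indexed by `W_n`, consists of homogeneous polynomials of degree
`k`, and `ρ(w) - ρ(w s_α)` is divisible by `w(α) = x_{w(a)} - x_{w(b)}` for all roots
`α = x_a - x_b` in the given set. -/
def IsSpline {n : ℕ} (I : Set (L n × L n)) (k : ℕ) (ρ : W n → MvPolynomial (Fin n) ℂ) : Prop :=
  (∀ w, (ρ w).IsHomogeneous k) ∧ ∀ p ∈ I, ∀ w s : W n, IsRefl s p.1 p.2 →
    (xv (w.1 p.1) - xv (w.1 p.2)) ∣ ρ w - ρ (w * s)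

lemma IsSpline_add {n : ℕ} {I : Set (L n × L n)} {k : ℕ} {ρ σ : W n → MvPolynomial (Fin n) ℂ}
    (h1 : IsSpline I k ρ) (h2 : IsSpline I k σ) : IsSpline I k (ρ + σ) := by
  refine ⟨fun w => (h1.1 w).add (h2.1 w), fun p hp w s hs => ?_⟩
  have := dvd_add (h1.2 p hp w s hs) (h2.2 p hp w s hs)
  have e : (ρ + σ) w - (ρ + σ) (w * s) = ρ w - ρ (w * s) + (σ w - σ (w * s)) := by
    simp only [Pi.add_apply]; ring
  rw [e]; exact this

lemma IsSpline_zero {n : ℕ} {I : Set (L n × L n)} {k : ℕ} :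
    IsSpline I k (0 : W n → MvPolynomial (Fin n) ℂ) :=
  ⟨fun _ => isHomogeneous_zero _ _ _, fun _ _ _ _ _ => by simp⟩

lemma IsSpline_smul {n : ℕ} {I : Set (L n × L n)} {k : ℕ} (c : ℂ)
    {ρ : W n → MvPolynomial (Fin n) ℂ} (h : IsSpline I k ρ) : IsSpline I k (c • ρ) := by
  refine ⟨fun w => ?_, fun p hp w s hs => ?_⟩
  · show (c • ρ w).IsHomogeneous k
    rw [smul_eq_C_mul]
    have := (isHomogeneous_C (Fin n) c).mul (h.1 w)
    simpa using this
  · have e : (c • ρ) w - (c • ρ) (w * s) = C c * (ρ w - ρ (w * s)) := by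
      simp only [Pi.smul_apply, smul_eq_C_mul]; ring
    rw [e]
    exact Dvd.dvd.mul_left (h.2 p hp w s hs) _

/-- The space of the splines of degree `k` for the given set of roots. -/
noncomputable def Spl {n : ℕ} (I : Set (L n × L n)) (k : ℕ) : Submodule ℂ (W n → MvPolynomial (Fin n) ℂ) where
  carrier := {ρ | IsSpline I k ρ}
  add_mem' := IsSpline_add
  zero_mem' := IsSpline_zero
  smul_mem' := IsSpline_smul

/-- The tuple is a product of a constant spline `(p, ..., p)`, `p` homogeneous of degree `j` with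
`1 ≤ j ≤ k`, and a spline of degree `k - j`. -/
def IsMult {n : ℕ} (I : Set (L n × L n)) (k : ℕ) (ρ : W n → MvPolynomial (Fin n) ℂ) : Prop :=
  ∃ j, 1 ≤ j ∧ j ≤ k ∧ ∃ p : MvPolynomial (Fin n) ℂ, p.IsHomogeneous j ∧
    ∃ σ ∈ Spl I (k - j), ρ = fun w => p * σ w

/-- The degree `k` part of the ideal of the spline ring generated by the constant splines
`(p, ..., p)`, `p` homogeneous of positive degree. -/
noncomputable def Jd {n : ℕ} (I : Set (L n × L n)) (k : ℕ) : Submodule ℂ (W n → MvPolynomial (Fin n) ℂ) :=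
  Submodule.span ℂ {ρ | IsMult I k ρ}

/-- The dot action: `(w · ρ)(v) = w (ρ (w⁻¹ v))`. -/
noncomputable def dotFun {n : ℕ} (w : W n) (ρ : W n → MvPolynomial (Fin n) ℂ) :
    W n → MvPolynomial (Fin n) ℂ := fun v => actP w (ρ (w⁻¹ * v))

lemma dotFun_add {n : ℕ} (w : W n) (ρ σ : W n → MvPolynomial (Fin n) ℂ) :
    dotFun w (ρ + σ) = dotFun w ρ + dotFun w σ := by funext v; simp [dotFun]

lemma dotFun_smul {n : ℕ} (w : W n) (c : ℂ) (ρ : W n → MvPolynomial (Fin n) ℂ) :
    dotFun w (c • ρ) = c • dotFun w ρ := by funext v; simp [dotFun]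

/-- The dot action as a linear map. -/
noncomputable def dot {n : ℕ} (w : W n) :
    (W n → MvPolynomial (Fin n) ℂ) →ₗ[ℂ] (W n → MvPolynomial (Fin n) ℂ) where
  toFun := dotFun w
  map_add' := dotFun_add w
  map_smul' := dotFun_smul w

lemma neg_neg {n : ℕ} (a : L n) : neg (neg a) = a := by
  rcases a with ⟨i, b⟩; simp [neg]

lemma xv_neg {n : ℕ} (a : L n) : xv (neg a) = -xv a := by
  rcases a with ⟨i, b⟩; cases b <;> simp [neg, xv]

lemma W_neg {n : ℕ} (w : W n) (a : L n) : w.1 (neg a) = neg (w.1 a) := w.2 a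

lemma actP_xv {n : ℕ} (w : W n) (a : L n) : actP w (xv a) = xv (w.1 a) := by
  rcases a with ⟨i, b⟩
  cases b
  · simp [actP, xv]
  · have h : ((i, true) : L n) = neg (i, false) := rfl
    rw [h, W_neg, xv_neg, xv_neg, map_neg]
    simp [actP, xv]

lemma xv_homog {n : ℕ} (a : L n) : (xv a).IsHomogeneous 1 := by
  unfold xv
  split_ifs
  · exact (isHomogeneous_X ℂ a.1).neg
  · exact isHomogeneous_X ℂ a.1

lemma actP_homog {n : ℕ} (w : W n) (f : MvPolynomial (Fin n) ℂ) (k : ℕ) (hf : f.IsHomogeneous k) :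
    (actP w f).IsHomogeneous k := by
  have := IsHomogeneous.aeval hf (fun i => xv (w.1 (i, false))) (n := 1)
    (fun i => xv_homog _)
  simpa [actP] using this

lemma dot_mem_Spl {n : ℕ} (I : Set (L n × L n)) (k : ℕ) (w : W n) :
    ∀ ρ ∈ Spl I k, dot w ρ ∈ Spl I k := by
  rintro ρ ⟨h1, h2⟩
  refine ⟨fun v => actP_homog w _ k (h1 _), fun p hp v s hs => ?_⟩
  have h := map_dvd (actP w) (h2 p hp (w⁻¹ * v) s hs)
  rw [map_sub, actP_xv, actP_xv, map_sub] at h
  have e1 : ∀ a : L n, w.1 ((w⁻¹ * v).1 a) = v.1 a := by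
    intro a
    show w.1 (w.1⁻¹ (v.1 a)) = v.1 a
    exact w.1.apply_symm_apply _
  rw [e1, e1, mul_assoc] at h
  exact h

lemma dot_mem_Jd {n : ℕ} (I : Set (L n × L n)) (k : ℕ) (w : W n) :
    ∀ ρ ∈ Jd I k, dot w ρ ∈ Jd I k := by
  intro ρ hρ
  unfold Jd at hρ
  induction hρ using Submodule.span_induction with
  | mem ρ h =>
    obtain ⟨j, h1, h2, p, hp, σ, hσ, rfl⟩ := h
    apply Submodule.subset_span
    refine ⟨j, h1, h2, actP w p, actP_homog w p j hp, dot w σ, dot_mem_Spl I _ w σ hσ, ?_⟩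
    funext v
    show actP w (p * σ (w⁻¹ * v)) = actP w p * actP w (σ (w⁻¹ * v))
    rw [map_mul]
  | zero => rw [map_zero]; exact Submodule.zero_mem _
  | add x y _ _ hx hy => rw [map_add]; exact Submodule.add_mem _ hx hy
  | smul c x _ hx => rw [map_smul]; exact Submodule.smul_mem _ _ hx

/-- The degree `k` part of the ideal as a subspace of the space of the splines of degree `k`. -/
noncomputable def JS {n : ℕ} (I : Set (L n × L n)) (k : ℕ) : Submodule ℂ (Spl I k) :=
  (Jd I k).submoduleOf (Spl I k)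

/-- The degree `k` part of the left quotient: the splines of degree `k` modulo the degree `k` part of
the ideal. -/
def Quo {n : ℕ} (I : Set (L n × L n)) (k : ℕ) : Type := (Spl I k) ⧸ (JS I k)

noncomputable instance acgQuo {n : ℕ} (I : Set (L n × L n)) (k : ℕ) : AddCommGroup (Quo I k) :=
  Submodule.Quotient.addCommGroup (JS I k)

noncomputable instance modQuo {n : ℕ} (I : Set (L n × L n)) (k : ℕ) : Module ℂ (Quo I k) :=
  Submodule.Quotient.module (JS I k)

/-- The dot action on the splines of degree `k`. -/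
noncomputable def dotSpl {n : ℕ} (I : Set (L n × L n)) (k : ℕ) (w : W n) :
    Spl I k →ₗ[ℂ] Spl I k := (dot w).restrict (dot_mem_Spl I k w)

lemma dotSpl_le {n : ℕ} (I : Set (L n × L n)) (k : ℕ) (w : W n) :
    JS I k ≤ (JS I k).comap (dotSpl I k w) :=
  fun ρ hρ => dot_mem_Jd I k w ρ.1 hρ

/-- The action of `w` on the degree `k` part of the left quotient induced by the dot action. -/
noncomputable def actQ {n : ℕ} (I : Set (L n × L n)) (k : ℕ) (w : W n) : Quo I k →ₗ[ℂ] Quo I k :=
  Submodule.mapQ (JS I k) (JS I k) (dotSpl I k w) (dotSpl_le I k w)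

/-- The character of `W_n` on the degree `k` part of the left quotient. -/
noncomputable def Lchar {n : ℕ} (I : Set (L n × L n)) (k : ℕ) (w : W n) : ℂ :=
  LinearMap.trace ℂ (Quo I k) (actQ I k w)

/-- The permutation character on the cosets of `R`: the number of cosets fixed by `w`. -/
noncomputable def permChar {n : ℕ} (R : Subgroup (W n)) (w : W n) : ℕ :=
  Nat.card {x : W n ⧸ R // w • x = x}

/-- Reflection subgroups: the subgroups generated by the reflections they contain. -/
def IsReflSubgroup {n : ℕ} (R : Subgroup (W n)) : Prop :=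
  R = Subgroup.closure {s | s ∈ R ∧ ∃ a b : L n, a ≠ b ∧ IsRefl s a b}

end Pool.Agent.R136.Hess
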