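import Pool.Agent.R136.HessDefs

set_option autoImplicit false

/-!
Upper bounds for the dimensions of spline spaces (`n = 3`).
-/

namespace Pool.Agent.R136.Hess

open MvPolynomial

instance decW (n : ℕ) : DecidablePred (fun w => w ∈ WS n) := fun w =>
  inferInstanceAs (Decidable (∀ a, w (neg a) = neg (w a)))

instance fintypeW : Fintype (W 3) := inferInstanceAs (Fintype (WS 3))

/-- the six roots -/
def I6 : Finset (L 3 × L 3) :=
  {((0, false), (1, false)), ((0, false), (2, false)), ((0, false), (2, true)),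
   ((1, false), (2, false)), ((1, false), (2, true)), ((2, false), (2, true))}

/-- values -/
def val (a : L 3) : ℤ := if a.2 = true then (a.1 : ℤ) - 3 else 3 - (a.1 : ℤ)

/-- height -/
def hgt (w : W 3) : ℤ := -(∑ i : Fin 3, val (i, false) * val (w.1 (i, false)))

/-- descents -/
def DD (w : W 3) : Finset (L 3 × L 3) := I6.filter (fun p => val (w.1 p.1) < val (w.1 p.2))

/-- dimensions -/
def cc (k d : ℕ) : ℕ := if d ≤ k then (k - d + 2).choose 2 else 0

set_option maxRecDepth 1000000 in
lemma count0 : ∑ w : W 3, cc 0 (DD w).card = 1 := by decide +kernel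
set_option maxRecDepth 1000000 in
lemma count1 : ∑ w : W 3, cc 1 (DD w).card = 7 := by decide +kernel
set_option maxRecDepth 1000000 in
lemma count2 : ∑ w : W 3, cc 2 (DD w).card = 29 := by decide +kernel

/-- triangularity gives an upper bound for the dimension -/
lemma flow {V M : Type} [Fintype V] [AddCommGroup M] [Module ℂ M] (S : Submodule ℂ (V → M))
    (h : V → ℤ) (K : V → Submodule ℂ M) (c : V → ℕ) (hfin : ∀ w, FiniteDimensional ℂ (K w))
    (hc : ∀ w, Module.finrank ℂ (K w) ≤ c w)
    (hS : ∀ ρ ∈ S, ∀ w, (∀ u, h u < h w → ρ u = 0) → ρ w ∈ K w) :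
    FiniteDimensional ℂ S ∧ Module.finrank ℂ S ≤ ∑ w, c w := by
  classical
  have hp : ∀ w, ∃ ψ : M →ₗ[ℂ] K w, ψ ∘ₗ (K w).subtype = LinearMap.id := fun w =>
    LinearMap.exists_leftInverse_of_injective (K w).subtype (Submodule.ker_subtype _)
  choose ψ hψ using hp
  let Φ : S →ₗ[ℂ] (∀ w, K w) := LinearMap.pi (fun w => (ψ w) ∘ₗ (LinearMap.proj w) ∘ₗ S.subtype)
  have hinj : Function.Injective Φ := by
    rw [← LinearMap.ker_eq_bot, LinearMap.ker_eq_bot']
    intro ρ hρ
    have key : ∀ w, ρ.1 w = 0 := by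
      by_contra hcon
      push Not at hcon
      obtain ⟨w, hw, hmin⟩ : ∃ w, ρ.1 w ≠ 0 ∧ ∀ u, h u < h w → ρ.1 u = 0 := by
        obtain ⟨w, hw, hmin⟩ := Finset.exists_min_image (Finset.univ.filter (fun w => ρ.1 w ≠ 0)) h
          (by obtain ⟨w, hw⟩ := hcon; exact ⟨w, by simpa using hw⟩)
        refine ⟨w, (Finset.mem_filter.mp hw).2, fun u hu => ?_⟩
        by_contra hne
        have := hmin u (Finset.mem_filter.mpr ⟨Finset.mem_univ _, hne⟩)
        omega
      have hK := hS ρ.1 ρ.2 w hmin
      have h1 : ψ w (ρ.1 w) = 0 := congrFun hρ w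
      have h2 := LinearMap.congr_fun (hψ w) ⟨ρ.1 w, hK⟩
      simp only [LinearMap.comp_apply, Submodule.subtype_apply, LinearMap.id_apply] at h2
      rw [h1] at h2
      exact hw (congrArg Subtype.val h2.symm)
    apply Subtype.ext
    funext w
    exact key w
  have hfd : FiniteDimensional ℂ (∀ w, K w) := inferInstance
  refine ⟨Module.Finite.of_injective Φ hinj, ?_⟩
  calc Module.finrank ℂ S ≤ Module.finrank ℂ (∀ w, K w) := LinearMap.finrank_le_finrank_of_injective hinj
    _ = ∑ w, Module.finrank ℂ (K w) := Module.finrank_pi_fintype ℂ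
    _ ≤ ∑ w, c w := Finset.sum_le_sum fun w _ => hc w

/-! ### Homogeneous polynomials in three variables -/

/-- shorthand -/
abbrev R3 := MvPolynomial (Fin 3) ℂ

/-- spanning set of the homogeneous polynomials -/
noncomputable def gens (k : ℕ) : Finset R3 :=
  ((Finset.univ : Finset (Fin 3)).finsuppAntidiag k).image (fun d => monomial d (1 : ℂ))

lemma homog_le (k : ℕ) : homogeneousSubmodule (Fin 3) ℂ k ≤ Submodule.span ℂ (gens k : Set R3) := by
  intro f hf
  rw [mem_homogeneousSubmodule] at hf
  rw [f.as_sum]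
  apply Submodule.sum_mem
  intro d hd
  have hdeg : d.degree = k := by
    have := hf (mem_support_iff.mp hd)
    rw [← this, Finsupp.degree_eq_weight_one]
    rfl
  have : monomial d (coeff d f) = (coeff d f) • monomial d (1 : ℂ) := by
    rw [smul_monomial]; simp
  rw [this]
  apply Submodule.smul_mem
  apply Submodule.subset_span
  rw [gens, Finset.coe_image]
  refine ⟨d, ?_, rfl⟩
  rw [Finset.mem_coe, Finset.mem_finsuppAntidiag]
  refine ⟨?_, Finset.subset_univ _⟩
  rw [← hdeg, Finsupp.degree_eq_sum]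

lemma card_gens (k : ℕ) (hk : k ≤ 2) : (gens k).card ≤ (k + 2).choose 2 := by
  refine Finset.card_image_le.trans (le_of_eq ?_)
  interval_cases k <;> decide +kernel

instance finDim_homog (k : ℕ) : FiniteDimensional ℂ (homogeneousSubmodule (Fin 3) ℂ k) :=
  Submodule.finiteDimensional_of_le (homog_le k)

lemma finrank_homog (k : ℕ) (hk : k ≤ 2) :
    Module.finrank ℂ (homogeneousSubmodule (Fin 3) ℂ k) ≤ (k + 2).choose 2 := by
  refine (Submodule.finrank_mono (homog_le k)).trans ?_
  exact (finrank_span_finset_le_card (gens k)).trans (card_gens k hk)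

lemma homogComp_mul (P g : R3) (d k : ℕ) (hP : P.IsHomogeneous d) (hf : (P * g).IsHomogeneous k) :
    (d ≤ k → P * g = P * homogeneousComponent (k - d) g) ∧ (k < d → P * g = 0) := by
  have h1 : P * g = ∑ i ∈ Finset.range (g.totalDegree + 1), P * homogeneousComponent i g := by
    rw [← Finset.mul_sum, sum_homogeneousComponent]
  have h2 : homogeneousComponent k (P * g) = P * g := homogeneousComponent_eq_self hf
  have h3 : ∀ i, homogeneousComponent k (P * homogeneousComponent i g) =
      if k = d + i then P * homogeneousComponent i g else 0 := by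
    intro i
    have : P * homogeneousComponent i g ∈ homogeneousSubmodule (Fin 3) ℂ (d + i) :=
      hP.mul (homogeneousComponent_isHomogeneous i g)
    rw [homogeneousComponent_of_mem this]
  have h4 : P * g = ∑ i ∈ Finset.range (g.totalDegree + 1),
      if k = d + i then P * homogeneousComponent i g else 0 := by
    conv_lhs => rw [← h2, h1, map_sum]
    exact Finset.sum_congr rfl fun i _ => h3 i
  constructor
  · intro hdk
    rw [h4]
    by_cases hr : k - d ∈ Finset.range (g.totalDegree + 1)
    · rw [Finset.sum_eq_single (k - d)]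
      · rw [if_pos (by omega)]
      · intro i _ hi
        rw [if_neg (by omega)]
      · intro h; exact absurd hr h
    · have : homogeneousComponent (k - d) g = 0 := by
        apply homogeneousComponent_eq_zero
        rw [Finset.mem_range] at hr
        omega
      rw [this, mul_zero]
      apply Finset.sum_eq_zero
      intro i hi
      rw [if_neg]
      intro h
      rw [Finset.mem_range] at hi hr
      omega
  · intro hkd
    rw [h4]
    apply Finset.sum_eq_zero
    intro i hi
    rw [if_neg (by omega)]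

/-- the homogeneous multiples of a polynomial -/
def KK (P : R3) (k : ℕ) : Submodule ℂ R3 where
  carrier := {f | f.IsHomogeneous k ∧ P ∣ f}
  add_mem' := fun h1 h2 => ⟨h1.1.add h2.1, dvd_add h1.2 h2.2⟩
  zero_mem' := ⟨isHomogeneous_zero _ _ _, dvd_zero _⟩
  smul_mem' := fun c f hf => by
    refine ⟨?_, ?_⟩
    · exact (homogeneousSubmodule (Fin 3) ℂ k).smul_mem c hf.1
    · rw [smul_eq_C_mul]; exact Dvd.dvd.mul_left hf.2 _

lemma KK_bound (P : R3) (d k : ℕ) (hk : k ≤ 2) (hP : P.IsHomogeneous d) :
    FiniteDimensional ℂ (KK P k) ∧ Module.finrank ℂ (KK P k) ≤ cc k d := by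
  by_cases hdk : d ≤ k
  · have hle : KK P k ≤ (homogeneousSubmodule (Fin 3) ℂ (k - d)).map (LinearMap.mulLeft ℂ P) := by
      rintro f ⟨hf, g, rfl⟩
      rw [(homogComp_mul P g d k hP hf).1 hdk]
      exact ⟨homogeneousComponent (k - d) g, homogeneousComponent_isHomogeneous _ _, rfl⟩
    have hfd : FiniteDimensional ℂ ((homogeneousSubmodule (Fin 3) ℂ (k - d)).map
      (LinearMap.mulLeft ℂ P)) := inferInstance
    refine ⟨Submodule.finiteDimensional_of_le hle, ?_⟩
    refine (Submodule.finrank_mono hle).trans ?_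
    refine (Submodule.finrank_map_le _ _).trans ?_
    refine (finrank_homog (k - d) (by omega)).trans ?_
    unfold cc
    rw [if_pos hdk]
  · have hbot : KK P k = ⊥ := by
      rw [eq_bot_iff]
      rintro f ⟨hf, g, rfl⟩
      rw [(homogComp_mul P g d k hP hf).2 (by omega)]
      exact Submodule.zero_mem _
    rw [hbot]
    exact ⟨inferInstance, by simp⟩

/-! ### The linear forms -/

/-- evaluation of a signed letter at an integer point -/
def xz (q : Fin 3 → ℤ) (a : L 3) : ℤ := if a.2 = true then -q a.1 else q a.1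

/-- casting a point -/
def cst (q : Fin 3 → ℤ) : Fin 3 → ℂ := fun i => (q i : ℂ)

lemma eval_xv (q : Fin 3 → ℤ) (a : L 3) : eval (cst q) (xv a) = (xz q a : ℂ) := by
  unfold xv xz cst
  split_ifs <;> simp

/-- the form -/
noncomputable def form (p : L 3 × L 3) : R3 := xv p.1 - xv p.2

lemma eval_form (q : Fin 3 → ℤ) (p : L 3 × L 3) :
    eval (cst q) (form p) = ((xz q p.1 - xz q p.2 : ℤ) : ℂ) := by
  unfold form
  rw [map_sub, eval_xv, eval_xv]
  push_cast
  ring

/-- sample points -/
def pts : Finset (Fin 3 → ℤ) := Fintype.piFinset (fun _ => {-1, 0, 1})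

lemma sep1 : ∀ p ∈ I6, ∃ q ∈ pts, xz q p.1 - xz q p.2 ≠ 0 := by decide +kernel

lemma sep2 : ∀ p ∈ I6, ∀ p' ∈ I6, p ≠ p' → ∃ q ∈ pts, xz q p.1 - xz q p.2 = 0 ∧
    xz q p'.1 - xz q p'.2 ≠ 0 := by decide +kernel

lemma form_ne (p : L 3 × L 3) (hp : p ∈ I6) : form p ≠ 0 := by
  intro h
  obtain ⟨q, _, hq⟩ := sep1 p hp
  have := eval_form q p
  rw [h, map_zero] at this
  apply hq
  exact_mod_cast this.symm

lemma form_homog (p : L 3 × L 3) : (form p).IsHomogeneous 1 := (xv_homog _).sub (xv_homog _)

lemma form_irred (p : L 3 × L 3) (hp : p ∈ I6) : Irreducible (form p) := by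
  have hne := form_ne p hp
  apply irreducible_of_totalDegree_eq_one
  · exact (form_homog p).totalDegree hne
  · intro x hx
    obtain ⟨d, hd⟩ := MvPolynomial.ne_zero_iff.mp hne
    rw [isUnit_iff_ne_zero]
    rintro rfl
    exact hd (zero_dvd_iff.mp (hx d))

lemma form_not_dvd (p p' : L 3 × L 3) (hp : p ∈ I6) (hp' : p' ∈ I6) (hne : p ≠ p') :
    ¬ form p ∣ form p' := by
  rintro ⟨g, hg⟩
  obtain ⟨q, _, h1, h2⟩ := sep2 p hp p' hp' hne
  have e := congrArg (eval (cst q)) hg
  rw [map_mul, eval_form, eval_form, h1] at e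
  apply h2
  have : (((xz q p'.1 - xz q p'.2 : ℤ)) : ℂ) = 0 := by rw [e]; simp
  exact_mod_cast this

lemma prod_form_dvd (D : Finset (L 3 × L 3)) (hD : D ⊆ I6) (f : R3) (h : ∀ p ∈ D, form p ∣ f) :
    (∏ p ∈ D, form p) ∣ f := by
  apply Finset.prod_dvd_of_isRelPrime
  · intro p hp p' hp' hne
    exact (form_irred p (hD hp)).isRelPrime_iff_not_dvd.mpr (form_not_dvd p p' (hD hp) (hD hp') hne)
  · exact h

lemma actP_mul (u v : W 3) (f : R3) : actP (u * v) f = actP u (actP v f) := by
  have : actP (u * v) = (actP u).comp (actP v) := by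
    apply MvPolynomial.algHom_ext
    intro i
    rw [AlgHom.comp_apply]
    have e : (X i : R3) = xv (i, false) := by simp [xv]
    rw [e, actP_xv, actP_xv, actP_xv]
    rfl
  rw [this]; rfl

lemma actP_one (f : R3) : actP (1 : W 3) f = f := by
  have : actP (1 : W 3) = AlgHom.id ℂ R3 := by
    apply MvPolynomial.algHom_ext
    intro i
    have e : (X i : R3) = xv (i, false) := by simp [xv]
    rw [e, actP_xv]
    rfl
  rw [this]; rfl

/-- product of the forms at `w` -/
noncomputable def PP (w : W 3) : R3 := ∏ p ∈ DD w, (xv (w.1 p.1) - xv (w.1 p.2))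

lemma PP_homog (w : W 3) : (PP w).IsHomogeneous (DD w).card := by
  unfold PP
  have := IsHomogeneous.prod (DD w) (fun p => xv (w.1 p.1) - xv (w.1 p.2)) (fun _ => 1)
    (fun p _ => (xv_homog (w.1 p.1)).sub (xv_homog (w.1 p.2)))
  simpa using this

lemma PP_dvd (w : W 3) (f : R3) (h : ∀ p ∈ DD w, (xv (w.1 p.1) - xv (w.1 p.2)) ∣ f) :
    PP w ∣ f := by
  have h1 : (∏ p ∈ DD w, form p) ∣ actP w⁻¹ f := by
    apply prod_form_dvd _ (Finset.filter_subset _ _)
    intro p hp
    have := map_dvd (actP w⁻¹) (h p hp)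
    rw [map_sub, actP_xv, actP_xv] at this
    have e : ∀ a : L 3, (w⁻¹).1 (w.1 a) = a := fun a => w.1.symm_apply_apply a
    rw [e, e] at this
    exact this
  have h2 := map_dvd (actP w) h1
  rw [← actP_mul, mul_inv_cancel, actP_one, map_prod] at h2
  have h3 : ∏ p ∈ DD w, actP w (form p) = PP w := by
    unfold PP
    apply Finset.prod_congr rfl
    intro p _
    unfold form
    rw [map_sub, actP_xv, actP_xv]
  rw [h3] at h2
  exact h2

/-! ### The bound -/

/-- the reflections -/
def rs (a b : L 3) : Equiv.Perm (L 3) :=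
  if b = neg a then Equiv.swap a b else Equiv.swap a b * Equiv.swap (neg a) (neg b)

lemma rs_mem : ∀ p ∈ I6, ∀ a, rs p.1 p.2 (neg a) = neg (rs p.1 p.2 a) := by decide +kernel

lemma rs_refl' : ∀ p ∈ I6, rs p.1 p.2 p.1 = p.2 ∧ rs p.1 p.2 p.2 = p.1 ∧ ∀ c, c = p.1 ∨ c = p.2 ∨
    c = neg p.1 ∨ c = neg p.2 ∨ rs p.1 p.2 c = c := by decide +kernel

lemma rs_refl : ∀ p ∈ I6, rs p.1 p.2 p.1 = p.2 ∧ rs p.1 p.2 p.2 = p.1 ∧ ∀ c, c ≠ p.1 → c ≠ p.2 →
    c ≠ neg p.1 → c ≠ neg p.2 → rs p.1 p.2 c = c := by
  intro p hp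
  obtain ⟨h1, h2, h3⟩ := rs_refl' p hp
  refine ⟨h1, h2, fun c c1 c2 c3 c4 => ?_⟩
  rcases h3 c with h | h | h | h | h
  · exact absurd h c1
  · exact absurd h c2
  · exact absurd h c3
  · exact absurd h c4
  · exact h

lemma val_neg (a : L 3) : val (neg a) = - val a := by
  rcases a with ⟨i, b⟩
  cases b <;> simp [val, neg]

lemma refl_hgt (p : L 3 × L 3) (hp : p ∈ I6) (w : W 3) (hlt : val (w.1 p.1) < val (w.1 p.2)) :
    ∃ s : W 3, IsRefl s p.1 p.2 ∧ hgt (w * s) < hgt w := by
  refine ⟨⟨rs p.1 p.2, rs_mem p hp⟩, rs_refl p hp, ?_⟩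
  have hw : ∀ a, w.1 (neg a) = neg (w.1 a) := w.2
  have h1 := hw (0, false)
  have h2 := hw (1, false)
  have h3 := hw (2, false)
  have n1 : neg ((0, false) : L 3) = (0, true) := rfl
  have n2 : neg ((1, false) : L 3) = (1, true) := rfl
  have n3 : neg ((2, false) : L 3) = (2, true) := rfl
  rw [n1] at h1
  rw [n2] at h2
  rw [n3] at h3
  have e : ∀ q : L 3 × L 3, hgt (w * ⟨rs p.1 p.2, rs_mem p hp⟩) =
      -(val (0, false) * val (w.1 (rs p.1 p.2 (0, false))) +
        val (1, false) * val (w.1 (rs p.1 p.2 (1, false))) +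
        val (2, false) * val (w.1 (rs p.1 p.2 (2, false)))) := by
    intro q
    unfold hgt
    rw [Fin.sum_univ_three]
    rfl
  rw [e p]
  have e2 : hgt w = -(val (0, false) * val (w.1 (0, false)) +
        val (1, false) * val (w.1 (1, false)) + val (2, false) * val (w.1 (2, false))) := by
    unfold hgt
    rw [Fin.sum_univ_three]
  rw [e2]
  have v0 : val ((0, false) : L 3) = 3 := rfl
  have v1 : val ((1, false) : L 3) = 2 := rfl
  have v2 : val ((2, false) : L 3) = 1 := rfl
  rw [v0, v1, v2]
  simp only [I6, Finset.mem_insert, Finset.mem_singleton] at hp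
  rcases hp with rfl | rfl | rfl | rfl | rfl | rfl
  · have a1 : rs (0, false) (1, false) (0, false) = (1, false) := by decide
    have a2 : rs (0, false) (1, false) (1, false) = (0, false) := by decide
    have a3 : rs (0, false) (1, false) (2, false) = (2, false) := by decide
    simp only [a1, a2, a3] at hlt ⊢
    omega
  · have a1 : rs (0, false) (2, false) (0, false) = (2, false) := by decide
    have a2 : rs (0, false) (2, false) (1, false) = (1, false) := by decide
    have a3 : rs (0, false) (2, false) (2, false) = (0, false) := by decide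
    simp only [a1, a2, a3] at hlt ⊢
    omega
  · have a1 : rs (0, false) (2, true) (0, false) = (2, true) := by decide
    have a2 : rs (0, false) (2, true) (1, false) = (1, false) := by decide
    have a3 : rs (0, false) (2, true) (2, false) = (0, true) := by decide
    simp only [a1, a2, a3, h1, h3, val_neg] at hlt ⊢
    omega
  · have a1 : rs (1, false) (2, false) (0, false) = (0, false) := by decide
    have a2 : rs (1, false) (2, false) (1, false) = (2, false) := by decide
    have a3 : rs (1, false) (2, false) (2, false) = (1, false) := by decide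
    simp only [a1, a2, a3] at hlt ⊢
    omega
  · have a1 : rs (1, false) (2, true) (0, false) = (0, false) := by decide
    have a2 : rs (1, false) (2, true) (1, false) = (2, true) := by decide
    have a3 : rs (1, false) (2, true) (2, false) = (1, true) := by decide
    simp only [a1, a2, a3, h2, h3, val_neg] at hlt ⊢
    omega
  · have a1 : rs (2, false) (2, true) (0, false) = (0, false) := by decide
    have a2 : rs (2, false) (2, true) (1, false) = (1, false) := by decide
    have a3 : rs (2, false) (2, true) (2, false) = (2, true) := by decide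
    simp only [a1, a2, a3, h3, val_neg] at hlt ⊢
    omega

theorem dim_bound (I : Set (L 3 × L 3)) (hI : ∀ p ∈ I6, p ∈ I) (k : ℕ) (hk : k ≤ 2) :
    FiniteDimensional ℂ (Spl I k) ∧ Module.finrank ℂ (Spl I k) ≤ ∑ w : W 3, cc k (DD w).card := by
  refine flow (Spl I k) hgt (fun w => KK (PP w) k) (fun w => cc k (DD w).card)
    (fun w => (KK_bound (PP w) _ k hk (PP_homog w)).1)
    (fun w => (KK_bound (PP w) _ k hk (PP_homog w)).2) ?_
  rintro ρ ⟨h1, h2⟩ w hw
  refine ⟨h1 w, PP_dvd w _ ?_⟩
  intro p hp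
  rw [DD, Finset.mem_filter] at hp
  obtain ⟨s, hs, hlt⟩ := refl_hgt p hp.1 w hp.2
  have := h2 p (hI p hp.1) w s hs
  rw [hw _ hlt, sub_zero] at this
  exact this

end Pool.Agent.R136.Hess
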