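import Pool.Agent.R136.HessDim

set_option autoImplicit false

/-!
Explicit splines for the six roots (`n = 3`).
-/

namespace Pool.Agent.R136.Hess

open MvPolynomial

/-- the reflection as an element of the group -/
def sr (p : L 3 × L 3) (hp : p ∈ I6) : W 3 := ⟨rs p.1 p.2, rs_mem p hp⟩

lemma sr_unique (p : L 3 × L 3) (hp : p ∈ I6) (s : W 3) (hs : IsRefl s p.1 p.2) : s = sr p hp := by
  obtain ⟨h1, h2, h3⟩ := hs
  obtain ⟨g1, g2, g3⟩ := rs_refl p hp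
  apply Subtype.ext
  apply Equiv.ext
  intro c
  show s.1 c = rs p.1 p.2 c
  by_cases c1 : c = p.1
  · rw [c1, h1, g1]
  · by_cases c2 : c = p.2
    · rw [c2, h2, g2]
    · by_cases c3 : c = neg p.1
      · rw [c3, W_neg, h1, rs_mem p hp, g1]
      · by_cases c4 : c = neg p.2
        · rw [c4, W_neg, h2, rs_mem p hp, g2]
        · rw [h3 c c1 c2 c3 c4, g3 c c1 c2 c3 c4]

lemma refl_mirror (s : W 3) (a b : L 3) (h : IsRefl s a b) : IsRefl s (neg b) (neg a) := by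
  obtain ⟨h1, h2, h3⟩ := h
  refine ⟨by rw [W_neg, h2], by rw [W_neg, h1], ?_⟩
  intro c c1 c2 c3 c4
  rw [neg_neg] at c3 c4
  exact h3 c c4 c3 c2 c1

lemma memSpl_of (I : Set (L 3 × L 3)) (hI : ∀ p ∈ I, p ∈ I6 ∨ (neg p.2, neg p.1) ∈ I6) (k : ℕ)
    (ρ : W 3 → R3) (h1 : ∀ w, (ρ w).IsHomogeneous k)
    (h2 : ∀ (p : L 3 × L 3) (hp : p ∈ I6) (w : W 3),
      (xv (w.1 p.1) - xv (w.1 p.2)) ∣ ρ w - ρ (w * sr p hp)) : ρ ∈ Spl I k := by
  refine ⟨h1, fun p hp w s hs => ?_⟩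
  rcases hI p hp with h | h
  · rw [sr_unique p h s hs]
    exact h2 p h w
  · have hs' := refl_mirror s _ _ hs
    rw [sr_unique (neg p.2, neg p.1) h s hs']
    have := h2 _ h w
    simp only [W_neg, xv_neg] at this
    rw [show -xv (w.1 p.2) - -xv (w.1 p.1) = xv (w.1 p.1) - xv (w.1 p.2) by ring] at this
    exact this

/-- signs -/
def sg (a : L 3) : ℤ := if a.2 = true then -1 else 1

lemma sg_neg (a : L 3) : sg (neg a) = -sg a := by
  rcases a with ⟨i, b⟩; cases b <;> rfl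

/-- the splines `x_{w(j)}` -/
noncomputable def yy (j : Fin 3) (w : W 3) : R3 := xv (w.1 (j, false))

/-- total sign -/
def tsg (w : W 3) : ℤ := sg (w.1 (0, false)) * sg (w.1 (1, false)) * sg (w.1 (2, false))

/-- the spline `θ` -/
noncomputable def th (w : W 3) : R3 := C (tsg w : ℂ) * xv (w.1 (2, false))

/-- sign of a letter -/
def ks (i : Fin 3) (w : W 3) : ℤ := sg (w⁻¹.1 (i, false))

/-- the splines `ζ_i` -/
noncomputable def zt (i : Fin 3) (w : W 3) : R3 :=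
  C (ks i w : ℂ) * (X i ^ 2 - xv (w.1 (2, false)) ^ 2)

lemma yy_homog (j : Fin 3) (w : W 3) : (yy j w).IsHomogeneous 1 := xv_homog _

lemma th_homog (w : W 3) : (th w).IsHomogeneous 1 := by
  have := (isHomogeneous_C (Fin 3) (tsg w : ℂ)).mul (xv_homog (w.1 (2, false)))
  simpa [th] using this

lemma zt_homog (i : Fin 3) (w : W 3) : (zt i w).IsHomogeneous 2 := by
  have h1 : (X i ^ 2 - xv (w.1 (2, false)) ^ 2 : R3).IsHomogeneous 2 := by
    refine IsHomogeneous.sub ?_ ?_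
    · simpa using (isHomogeneous_X ℂ i).pow 2
    · simpa using (xv_homog (w.1 (2, false))).pow 2
  have := (isHomogeneous_C (Fin 3) (ks i w : ℂ)).mul h1
  simpa [zt] using this

lemma mul_app (w s : W 3) (a : L 3) : (w * s).1 a = w.1 (s.1 a) := rfl

variable (I : Set (L 3 × L 3)) (hI : ∀ p ∈ I, p ∈ I6 ∨ (neg p.2, neg p.1) ∈ I6)

lemma const_mem (f : R3) (k : ℕ) (hf : f.IsHomogeneous k) : (fun _ => f) ∈ Spl I k :=
  ⟨fun _ => hf, fun p _ w s _ => by simp⟩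

include hI in
lemma yy_mem (j : Fin 3) : yy j ∈ Spl I 1 := by
  refine memSpl_of I hI 1 _ (yy_homog j) ?_
  intro p hp w
  unfold yy
  rw [mul_app]
  have hj : ∀ q ∈ I6, ∀ j : Fin 3, rs q.1 q.2 (j, false) = (j, false) ∨
      ((j, false) = q.1 ∧ rs q.1 q.2 (j, false) = q.2) ∨
      ((j, false) = q.2 ∧ rs q.1 q.2 (j, false) = q.1) ∨
      (rs q.1 q.2 (j, false) = neg q.1 ∧ (j, false) = neg q.2) := by decide +kernel
  show _ ∣ xv (w.1 (j, false)) - xv (w.1 (rs p.1 p.2 (j, false)))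
  rcases hj p hp j with h | ⟨h, h'⟩ | ⟨h, h'⟩ | ⟨h, h'⟩
  · rw [h, sub_self]; exact dvd_zero _
  · rw [h', h]
  · rw [h', h]
    exact ⟨-1, by ring⟩
  · rw [h, h', W_neg, W_neg, xv_neg, xv_neg]
    exact ⟨1, by ring⟩

/-- tables of the reflections -/
lemma rs_table : ∀ p ∈ I6,
    (p = ((0, false), (1, false)) ∧ rs p.1 p.2 (0, false) = (1, false) ∧
      rs p.1 p.2 (1, false) = (0, false) ∧ rs p.1 p.2 (2, false) = (2, false)) ∨
    (p = ((0, false), (2, false)) ∧ rs p.1 p.2 (0, false) = (2, false) ∧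
      rs p.1 p.2 (1, false) = (1, false) ∧ rs p.1 p.2 (2, false) = (0, false)) ∨
    (p = ((0, false), (2, true)) ∧ rs p.1 p.2 (0, false) = (2, true) ∧
      rs p.1 p.2 (1, false) = (1, false) ∧ rs p.1 p.2 (2, false) = (0, true)) ∨
    (p = ((1, false), (2, false)) ∧ rs p.1 p.2 (0, false) = (0, false) ∧
      rs p.1 p.2 (1, false) = (2, false) ∧ rs p.1 p.2 (2, false) = (1, false)) ∨
    (p = ((1, false), (2, true)) ∧ rs p.1 p.2 (0, false) = (0, false) ∧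
      rs p.1 p.2 (1, false) = (2, true) ∧ rs p.1 p.2 (2, false) = (1, true)) ∨
    (p = ((2, false), (2, true)) ∧ rs p.1 p.2 (0, false) = (0, false) ∧
      rs p.1 p.2 (1, false) = (1, false) ∧ rs p.1 p.2 (2, false) = (2, true)) := by
  intro p hp
  simp only [I6, Finset.mem_insert, Finset.mem_singleton] at hp
  rcases hp with rfl | rfl | rfl | rfl | rfl | rfl
  · exact Or.inl ⟨rfl, by decide, by decide, by decide⟩
  · exact Or.inr (Or.inl ⟨rfl, by decide, by decide, by decide⟩)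
  · exact Or.inr (Or.inr (Or.inl ⟨rfl, by decide, by decide, by decide⟩))
  · exact Or.inr (Or.inr (Or.inr (Or.inl ⟨rfl, by decide, by decide, by decide⟩)))
  · exact Or.inr (Or.inr (Or.inr (Or.inr (Or.inl ⟨rfl, by decide, by decide, by decide⟩))))
  · exact Or.inr (Or.inr (Or.inr (Or.inr (Or.inr ⟨rfl, by decide, by decide, by decide⟩))))

lemma W_true (w : W 3) (i : Fin 3) : w.1 (i, true) = neg (w.1 (i, false)) := W_neg w (i, false)

include hI in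
lemma th_mem : th ∈ Spl I 1 := by
  refine memSpl_of I hI 1 _ th_homog ?_
  intro p hp w
  unfold th tsg
  simp only [mul_app]
  show _ ∣ _ - C (((sg (w.1 (rs p.1 p.2 (0, false))) * sg (w.1 (rs p.1 p.2 (1, false))) *
    sg (w.1 (rs p.1 p.2 (2, false))) : ℤ) : ℂ)) * xv (w.1 (rs p.1 p.2 (2, false)))
  rcases rs_table p hp with ⟨rfl, h1, h2, h3⟩ | ⟨rfl, h1, h2, h3⟩ | ⟨rfl, h1, h2, h3⟩ |
    ⟨rfl, h1, h2, h3⟩ | ⟨rfl, h1, h2, h3⟩ | ⟨rfl, h1, h2, h3⟩
  · rw [h1, h2, h3]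
    refine ⟨0, ?_⟩
    push_cast
    simp only [map_mul]
    ring
  · rw [h1, h2, h3]
    refine ⟨-C ((sg (w.1 (0, false)) * sg (w.1 (1, false)) * sg (w.1 (2, false)) : ℤ) : ℂ), ?_⟩
    push_cast
    simp only [map_mul]
    ring
  · rw [h1, h2, h3]
    simp only [W_true, sg_neg, xv_neg]
    refine ⟨C ((sg (w.1 (0, false)) * sg (w.1 (1, false)) * sg (w.1 (2, false)) : ℤ) : ℂ), ?_⟩
    push_cast
    simp only [map_mul, map_neg]
    ring
  · rw [h1, h2, h3]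
    refine ⟨-C ((sg (w.1 (0, false)) * sg (w.1 (1, false)) * sg (w.1 (2, false)) : ℤ) : ℂ), ?_⟩
    push_cast
    simp only [map_mul]
    ring
  · rw [h1, h2, h3]
    simp only [W_true, sg_neg, xv_neg]
    refine ⟨C ((sg (w.1 (0, false)) * sg (w.1 (1, false)) * sg (w.1 (2, false)) : ℤ) : ℂ), ?_⟩
    push_cast
    simp only [map_mul, map_neg]
    ring
  · rw [h1, h2, h3]
    simp only [W_true, sg_neg, xv_neg]
    refine ⟨0, ?_⟩
    push_cast
    simp only [map_mul, map_neg]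
    ring

lemma xv_sq_abs (w : W 3) (d : L 3) (i : Fin 3) (h : w.1 d = (i, false)) :
    (X i : R3) = xv (w.1 d) := by
  rw [h]; simp [xv]

/-- signs under the reflections -/
lemma sg_table : ∀ d : L 3, ∀ p ∈ I6,
    (p = ((0, false), (1, false)) ∧ sg (rs p.1 p.2 d) = sg d) ∨
    (p = ((0, false), (2, false)) ∧ sg (rs p.1 p.2 d) = sg d) ∨
    (p = ((0, false), (2, true)) ∧ (d.1 = 1 ∧ sg (rs p.1 p.2 d) = sg d ∨
      d.1 = 0 ∧ sg (rs p.1 p.2 d) = -sg d ∨ d.1 = 2 ∧ sg (rs p.1 p.2 d) = -sg d)) ∨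
    (p = ((1, false), (2, false)) ∧ sg (rs p.1 p.2 d) = sg d) ∨
    (p = ((1, false), (2, true)) ∧ (d.1 = 0 ∧ sg (rs p.1 p.2 d) = sg d ∨
      d.1 = 1 ∧ sg (rs p.1 p.2 d) = -sg d ∨ d.1 = 2 ∧ sg (rs p.1 p.2 d) = -sg d)) ∨
    (p = ((2, false), (2, true)) ∧ (d.1 = 0 ∧ sg (rs p.1 p.2 d) = sg d ∨
      d.1 = 1 ∧ sg (rs p.1 p.2 d) = sg d ∨ d.1 = 2 ∧ sg (rs p.1 p.2 d) = -sg d)) := by
  intro d p hp
  simp only [I6, Finset.mem_insert, Finset.mem_singleton] at hp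
  rcases hp with rfl | rfl | rfl | rfl | rfl | rfl
  · refine Or.inl ⟨rfl, ?_⟩
    revert d; decide
  · refine Or.inr (Or.inl ⟨rfl, ?_⟩)
    revert d; decide
  · refine Or.inr (Or.inr (Or.inl ⟨rfl, ?_⟩))
    revert d; decide
  · refine Or.inr (Or.inr (Or.inr (Or.inl ⟨rfl, ?_⟩)))
    revert d; decide
  · refine Or.inr (Or.inr (Or.inr (Or.inr (Or.inl ⟨rfl, ?_⟩))))
    revert d; decide
  · refine Or.inr (Or.inr (Or.inr (Or.inr (Or.inr ⟨rfl, ?_⟩))))
    revert d; decide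

lemma rs_invol : ∀ p ∈ I6, ∀ d, rs p.1 p.2 (rs p.1 p.2 d) = d := by decide +kernel

lemma xv_sq (w : W 3) (d : L 3) : xv (w.1 d) ^ 2 = xv (w.1 (d.1, false)) ^ 2 := by
  rcases d with ⟨i, b⟩
  cases b
  · rfl
  · rw [W_true, xv_neg]; ring

include hI in
lemma zt_mem (i : Fin 3) : zt i ∈ Spl I 2 := by
  refine memSpl_of I hI 2 _ (zt_homog i) ?_
  intro p hp w
  obtain ⟨d, hd⟩ : ∃ d, w.1 d = (i, false) := ⟨w.1.symm (i, false), w.1.apply_symm_apply _⟩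
  have hX : (X i : R3) ^ 2 = xv (w.1 (d.1, false)) ^ 2 := by
    rw [xv_sq_abs w d i hd, xv_sq]
  have k1 : ks i w = sg d := by
    unfold ks
    congr 1
    show w.1⁻¹ (i, false) = d
    rw [Equiv.Perm.inv_eq_iff_eq, hd]
  have k2 : ks i (w * sr p hp) = sg (rs p.1 p.2 d) := by
    unfold ks
    congr 1
    show (w.1 * rs p.1 p.2)⁻¹ (i, false) = _
    rw [Equiv.Perm.inv_eq_iff_eq]
    show _ = w.1 (rs p.1 p.2 (rs p.1 p.2 d))
    rw [rs_invol p hp, hd]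
  unfold zt
  rw [k1, k2, mul_app, hX]
  show _ ∣ _ - C (sg (rs p.1 p.2 d) : ℂ) * (xv (w.1 (d.1, false)) ^ 2 -
    xv (w.1 (rs p.1 p.2 (2, false))) ^ 2)
  have hT := rs_table p hp
  have hS := sg_table d p hp
  rcases hT with ⟨rfl, h1, h2, h3⟩ | ⟨rfl, h1, h2, h3⟩ | ⟨rfl, h1, h2, h3⟩ |
    ⟨rfl, h1, h2, h3⟩ | ⟨rfl, h1, h2, h3⟩ | ⟨rfl, h1, h2, h3⟩
  · have hs : sg (rs (0, false) (1, false) d) = sg d := by simpa using hS
    rw [h3, hs]
    exact ⟨0, by ring⟩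
  · have hs : sg (rs (0, false) (2, false) d) = sg d := by simpa using hS
    rw [h3, hs]
    refine ⟨C (sg d : ℂ) * (xv (w.1 (0, false)) + xv (w.1 (2, false))), by ring⟩
  · have hs : (d.1 = 1 ∧ sg (rs (0, false) (2, true) d) = sg d ∨
      d.1 = 0 ∧ sg (rs (0, false) (2, true) d) = -sg d ∨
      d.1 = 2 ∧ sg (rs (0, false) (2, true) d) = -sg d) := by simpa using hS
    rw [h3, W_true, W_true, xv_neg, xv_neg]
    rcases hs with ⟨hd1, hs⟩ | ⟨hd1, hs⟩ | ⟨hd1, hs⟩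
    · rw [hs]
      refine ⟨C (sg d : ℂ) * (xv (w.1 (0, false)) - xv (w.1 (2, false))), by ring⟩
    · rw [hs, hd1]
      refine ⟨C (sg d : ℂ) * (xv (w.1 (0, false)) - xv (w.1 (2, false))), ?_⟩
      push_cast
      simp only [map_neg]
      ring
    · rw [hs, hd1]
      refine ⟨-C (sg d : ℂ) * (xv (w.1 (0, false)) - xv (w.1 (2, false))), ?_⟩
      push_cast
      simp only [map_neg]
      ring
  · have hs : sg (rs (1, false) (2, false) d) = sg d := by simpa using hS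
    rw [h3, hs]
    refine ⟨C (sg d : ℂ) * (xv (w.1 (1, false)) + xv (w.1 (2, false))), by ring⟩
  · have hs : (d.1 = 0 ∧ sg (rs (1, false) (2, true) d) = sg d ∨
      d.1 = 1 ∧ sg (rs (1, false) (2, true) d) = -sg d ∨
      d.1 = 2 ∧ sg (rs (1, false) (2, true) d) = -sg d) := by simpa using hS
    rw [h3, W_true, W_true, xv_neg, xv_neg]
    rcases hs with ⟨hd1, hs⟩ | ⟨hd1, hs⟩ | ⟨hd1, hs⟩
    · rw [hs]
      refine ⟨C (sg d : ℂ) * (xv (w.1 (1, false)) - xv (w.1 (2, false))), by ring⟩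
    · rw [hs, hd1]
      refine ⟨C (sg d : ℂ) * (xv (w.1 (1, false)) - xv (w.1 (2, false))), ?_⟩
      push_cast
      simp only [map_neg]
      ring
    · rw [hs, hd1]
      refine ⟨-C (sg d : ℂ) * (xv (w.1 (1, false)) - xv (w.1 (2, false))), ?_⟩
      push_cast
      simp only [map_neg]
      ring
  · have hs : (d.1 = 0 ∧ sg (rs (2, false) (2, true) d) = sg d ∨
      d.1 = 1 ∧ sg (rs (2, false) (2, true) d) = sg d ∨
      d.1 = 2 ∧ sg (rs (2, false) (2, true) d) = -sg d) := by simpa using hS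
    rw [h3, W_true, xv_neg]
    rcases hs with ⟨hd1, hs⟩ | ⟨hd1, hs⟩ | ⟨hd1, hs⟩
    · rw [hs]; exact ⟨0, by ring⟩
    · rw [hs]; exact ⟨0, by ring⟩
    · rw [hs, hd1]
      refine ⟨0, ?_⟩
      push_cast
      simp only [map_neg]
      ring

lemma mul_mem_Spl (I : Set (L 3 × L 3)) (j k : ℕ) (ρ σ : W 3 → R3) (h1 : ρ ∈ Spl I j)
    (h2 : σ ∈ Spl I k) : (fun w => ρ w * σ w) ∈ Spl I (j + k) := by
  refine ⟨fun w => (h1.1 w).mul (h2.1 w), fun p hp w s hs => ?_⟩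
  have e : ρ w * σ w - ρ (w * s) * σ (w * s) =
      (ρ w - ρ (w * s)) * σ w + ρ (w * s) * (σ w - σ (w * s)) := by ring
  rw [e]
  exact dvd_add (Dvd.dvd.mul_right (h1.2 p hp w s hs) _) (Dvd.dvd.mul_left (h2.2 p hp w s hs) _)

end Pool.Agent.R136.Hess
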