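import Pool.Agent.R136.HessEl

set_option autoImplicit false

/-!
Linear independence of the explicit splines, by evaluation at points.
-/

namespace Pool.Agent.R136.Hess

open MvPolynomial

/-- a signed permutation from a permutation and signs -/
def mkW (σ : Equiv.Perm (Fin 3)) (ε : Fin 3 → Bool) : W 3 :=
  ⟨⟨fun a => (σ a.1, xor a.2 (ε a.1)), fun a => (σ.symm a.1, xor a.2 (ε (σ.symm a.1))),
    by rintro ⟨i, b⟩; simp, by rintro ⟨i, b⟩; simp⟩,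
    by rintro ⟨i, b⟩; simp [neg]⟩

/-- permutation codes -/
def permOf : ℕ → Equiv.Perm (Fin 3)
  | 0 => 1
  | 1 => Equiv.swap 0 1
  | 2 => Equiv.swap 0 2
  | 3 => Equiv.swap 1 2
  | 4 => Equiv.swap 0 1 * Equiv.swap 1 2
  | _ => Equiv.swap 1 2 * Equiv.swap 0 1

/-- bits -/
def bit (c : ℕ) (i : Fin 3) : ℕ := (c / 2 ^ (i : ℕ)) % 2

/-- sample group element -/
def sw (p e : ℕ) : W 3 := mkW (permOf p) (fun i => bit e i == 1)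

/-- sample point -/
def sq (c : ℕ) : Fin 3 → ℤ := fun i => (bit c i : ℤ)

/-- permutation codes -/
def pc1 : List ℕ := [2, 4, 3, 4, 3, 4, 2]

/-- sign codes -/
def ec1 : List ℕ := [4, 5, 1, 2, 6, 5, 6]

/-- point codes -/
def qc1 : List ℕ := [1, 6, 5, 4, 1, 2, 1]

/-- values -/
def Mt1 : List (List ℤ) :=
  [[1,0,1,0,1,0,1],
   [0,1,0,0,0,1,0],
   [0,1,1,1,0,0,0],
   [1,0,0,0,0,0,-1],
   [0,-1,-1,0,1,-1,0],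
   [0,1,1,-1,0,0,0],
   [-1,0,0,0,0,0,-1]]

/-- inverse up to a factor -/
def Nt1 : List (List ℤ) :=
  [[0,0,0,1,0,0,-1],
   [-1,1,1,0,1,1,-1],
   [1,-1,0,0,-1,0,1],
   [0,0,1,0,0,-1,0],
   [1,1,0,0,1,0,1],
   [1,1,-1,0,-1,-1,1],
   [0,0,0,-1,0,0,-1]]

/-- permutation codes -/
def pc2 : List ℕ := [1, 0, 3, 5, 5, 5, 5, 3, 2, 0, 0, 1, 0, 2, 2, 4, 4, 0, 5, 2, 1, 5, 4, 5]

/-- sign codes -/
def ec2 : List ℕ := [1, 2, 4, 4, 0, 3, 0, 4, 0, 5, 6, 2, 3, 0, 1, 7, 6, 6, 7, 5, 4, 6, 0, 3]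

/-- point codes -/
def qc2 : List ℕ := [2, 5, 4, 4, 6, 3, 5, 2, 6, 4, 6, 5, 1, 1, 2, 6, 4, 1, 6, 1, 2, 1, 5, 5]

/-- values -/
def Mt2 : List (List ℤ) :=
  [[0,1,0,0,0,1,1,0,0,0,0,1,1,1,0,0,0,1,0,1,0,1,1,1],
   [0,0,0,0,0,1,0,0,0,0,0,0,0,0,0,0,0,0,0,0,0,0,0,0],
   [0,1,0,0,0,0,1,0,0,0,0,1,0,0,0,0,0,0,0,0,0,0,1,1],
   [1,0,0,0,1,1,0,1,1,0,1,0,0,0,1,1,0,0,1,0,1,0,0,0],
   [0,0,0,0,1,0,0,0,1,0,1,0,0,0,0,1,0,0,1,0,0,0,0,0],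
   [0,1,1,1,1,0,1,0,1,1,1,1,0,0,0,1,1,0,1,0,0,0,1,1],
   [0,-1,0,0,0,1,0,0,0,0,0,-1,0,1,0,0,0,0,0,-1,0,0,1,0],
   [0,0,0,0,1,1,0,1,0,0,-1,0,0,0,0,0,0,0,1,0,0,0,0,0],
   [0,-1,0,0,1,0,0,0,0,-1,-1,-1,0,0,0,0,0,0,1,0,0,0,1,0],
   [0,1,0,0,0,0,1,0,0,0,0,0,-1,0,0,0,0,1,0,0,0,0,0,-1],
   [0,0,0,0,0,-1,1,0,0,0,0,-1,0,0,0,0,0,0,0,0,0,-1,1,-1],
   [0,1,0,0,0,1,0,0,0,0,0,1,0,1,0,0,0,0,0,-1,0,0,1,0],
   [-1,0,0,0,1,0,0,0,1,0,0,0,0,0,0,-1,0,0,-1,0,1,0,0,0],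
   [0,0,0,0,0,-1,0,0,1,0,-1,0,0,0,1,-1,0,0,0,0,0,0,0,0],
   [0,0,0,0,1,1,0,-1,0,0,-1,0,0,0,0,0,0,0,-1,0,0,0,0,0],
   [0,1,0,1,1,0,1,0,1,0,0,0,0,0,0,-1,0,0,-1,0,0,0,0,-1],
   [0,0,1,0,0,0,1,0,1,0,-1,-1,0,0,0,-1,-1,0,0,0,0,0,1,-1],
   [0,1,0,0,1,0,0,0,0,-1,-1,1,0,0,0,0,0,0,-1,0,0,0,1,0],
   [0,-1,0,0,1,0,0,0,0,0,0,0,0,0,0,0,0,0,-1,0,0,0,0,0],
   [0,0,0,0,0,-1,0,0,0,0,1,1,0,0,0,0,0,0,0,0,0,0,1,0],
   [0,-1,0,0,1,1,0,-1,0,1,1,-1,0,1,0,0,0,0,-1,1,0,0,1,0],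
   [0,0,0,0,-1,0,1,-1,0,1,-1,0,-1,0,0,0,0,1,1,0,0,-1,0,-1],
   [-1,1,0,0,0,0,0,0,1,-1,0,-1,0,-1,1,-1,0,0,0,-1,1,0,-1,0],
   [0,0,1,1,0,1,1,-1,1,0,0,0,0,-1,0,-1,-1,0,0,1,0,0,0,-1]]

/-- inverse up to a factor -/
def Nt2 : List (List ℤ) :=
  [[0,5,0,1,-1,0,-5,-3,3,-4,-4,1,-3,-3,-4,4,4,1,4,0,2,4,2,-4],
   [0,0,0,0,0,0,-1,0,0,-1,-1,0,-1,-1,-1,1,1,1,0,0,1,1,1,-1],
   [0,2,-1,0,-1,1,-4,-2,2,-1,-1,3,-1,-1,-3,0,2,0,4,-2,1,1,1,-1],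
   [0,-6,0,0,0,0,4,2,-2,0,0,-2,0,0,0,0,-2,2,-2,0,0,0,0,2],
   [0,0,0,0,0,0,-2,0,1,-1,-1,1,-1,-1,-1,1,1,0,2,0,1,1,1,-1],
   [0,2,0,0,0,0,0,0,0,0,0,0,0,0,0,0,0,0,0,0,0,0,0,0],
   [0,-1,1,0,0,0,1,0,0,3,3,1,2,2,3,-2,-2,-3,-1,-1,-2,-3,-2,2],
   [0,0,0,0,0,0,1,1,-1,0,0,-1,0,0,-1,0,0,1,0,0,0,0,0,0],
   [0,3,0,0,1,0,0,-1,0,-1,-1,-1,0,0,-1,1,1,1,0,0,0,1,0,-1],
   [0,-2,0,0,0,0,2,2,-2,0,0,-2,0,0,2,0,0,0,-2,2,0,0,0,0],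
   [0,2,0,0,0,0,-2,-1,1,-1,-1,1,-1,-1,-2,1,1,0,2,0,1,1,1,-1],
   [0,0,0,0,0,0,0,0,0,1,1,1,1,1,1,-1,-1,-1,0,0,-1,-1,-1,1],
   [1,1,-1,0,0,0,-1,0,0,-2,0,0,-1,-1,0,1,1,0,1,1,0,1,1,-1],
   [0,-2,0,0,0,0,-1,-1,1,1,1,3,1,1,-1,-1,-1,-1,1,-3,0,-1,-1,1],
   [0,-4,0,0,0,0,3,2,-2,3,3,0,1,3,3,-3,-3,-1,-2,0,-1,-3,-1,3],
   [0,-5,0,0,1,0,5,2,-3,3,3,-2,2,2,4,-3,-3,0,-4,0,-2,-3,-2,3],
   [0,6,-1,0,-1,1,-2,-2,2,1,1,1,1,1,1,0,0,-2,0,0,-1,-1,-1,-1],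
   [1,3,-1,0,0,0,-3,-1,1,-5,-5,-1,-4,-4,-6,4,4,4,5,1,3,6,4,-4],
   [0,0,0,0,0,0,-1,0,1,0,0,1,0,0,0,0,0,-1,0,0,0,0,0,0],
   [0,0,0,0,0,0,0,0,0,1,1,0,1,1,0,-1,-1,0,-1,-1,0,-1,-1,1],
   [0,-3,0,1,-1,0,1,0,0,1,1,0,2,0,2,-1,-1,-1,-2,0,-1,-1,-1,1],
   [0,-4,0,0,0,0,5,2,-2,5,3,-2,3,3,7,-3,-3,-3,-6,2,-3,-5,-3,3],
   [0,0,0,0,0,0,2,1,-1,0,0,-2,0,0,1,0,0,1,-2,2,0,0,0,0],
   [0,1,1,0,0,0,-2,-1,1,-3,-3,0,-2,-2,-4,2,2,2,3,-1,2,3,2,-2]]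

/-- degree one functions -/
noncomputable def F1 (k : Fin 7) : W 3 → R3 :=
  match k with
  | 0 => fun _ => X 0
  | 1 => fun _ => X 1
  | 2 => fun _ => X 2
  | 3 => th
  | 4 => yy 0
  | 5 => yy 1
  | 6 => yy 2

/-- values of the degree one functions -/
def ev1 (k : Fin 7) (w : W 3) (q : Fin 3 → ℤ) : ℤ :=
  match k with
  | 0 => q 0
  | 1 => q 1
  | 2 => q 2
  | 3 => tsg w * xz q (w.1 (2, false))
  | 4 => xz q (w.1 (0, false))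
  | 5 => xz q (w.1 (1, false))
  | 6 => xz q (w.1 (2, false))

/-- degree two functions -/
noncomputable def F2 (k : Fin 24) : W 3 → R3 :=
  match k with
  | 0 => fun w => X 0 * F1 0 w
  | 1 => fun w => X 0 * F1 1 w
  | 2 => fun w => X 0 * F1 2 w
  | 3 => fun w => X 1 * F1 1 w
  | 4 => fun w => X 1 * F1 2 w
  | 5 => fun w => X 2 * F1 2 w
  | 6 => fun w => X 0 * F1 3 w
  | 7 => fun w => X 1 * F1 3 w
  | 8 => fun w => X 2 * F1 3 w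
  | 9 => fun w => X 0 * F1 4 w
  | 10 => fun w => X 0 * F1 5 w
  | 11 => fun w => X 0 * F1 6 w
  | 12 => fun w => X 1 * F1 4 w
  | 13 => fun w => X 1 * F1 5 w
  | 14 => fun w => X 1 * F1 6 w
  | 15 => fun w => X 2 * F1 4 w
  | 16 => fun w => X 2 * F1 5 w
  | 17 => fun w => X 2 * F1 6 w
  | 18 => fun w => th w * yy 0 w
  | 19 => fun w => th w * yy 1 w
  | 20 => fun w => th w * yy 2 w
  | 21 => zt 0
  | 22 => zt 1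
  | _ => zt 2

/-- values of the degree two functions -/
def ev2 (k : Fin 24) (w : W 3) (q : Fin 3 → ℤ) : ℤ :=
  match k with
  | 0 => q 0 * ev1 0 w q
  | 1 => q 0 * ev1 1 w q
  | 2 => q 0 * ev1 2 w q
  | 3 => q 1 * ev1 1 w q
  | 4 => q 1 * ev1 2 w q
  | 5 => q 2 * ev1 2 w q
  | 6 => q 0 * ev1 3 w q
  | 7 => q 1 * ev1 3 w q
  | 8 => q 2 * ev1 3 w q
  | 9 => q 0 * ev1 4 w q
  | 10 => q 0 * ev1 5 w q
  | 11 => q 0 * ev1 6 w q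
  | 12 => q 1 * ev1 4 w q
  | 13 => q 1 * ev1 5 w q
  | 14 => q 1 * ev1 6 w q
  | 15 => q 2 * ev1 4 w q
  | 16 => q 2 * ev1 5 w q
  | 17 => q 2 * ev1 6 w q
  | 18 => tsg w * xz q (w.1 (2, false)) * xz q (w.1 (0, false))
  | 19 => tsg w * xz q (w.1 (2, false)) * xz q (w.1 (1, false))
  | 20 => tsg w * xz q (w.1 (2, false)) * xz q (w.1 (2, false))
  | 21 => ks 0 w * (q 0 ^ 2 - xz q (w.1 (2, false)) ^ 2)
  | 22 => ks 1 w * (q 1 ^ 2 - xz q (w.1 (2, false)) ^ 2)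
  | _ => ks 2 w * (q 2 ^ 2 - xz q (w.1 (2, false)) ^ 2)

lemma eval_X (q : Fin 3 → ℤ) (i : Fin 3) : eval (cst q) (X i : R3) = (q i : ℂ) := by
  simp [cst]

lemma eval_th (q : Fin 3 → ℤ) (w : W 3) :
    eval (cst q) (th w) = ((tsg w * xz q (w.1 (2, false)) : ℤ) : ℂ) := by
  unfold th
  rw [map_mul, eval_xv, eval_C]
  push_cast
  ring

lemma eval_yy (q : Fin 3 → ℤ) (j : Fin 3) (w : W 3) :
    eval (cst q) (yy j w) = ((xz q (w.1 (j, false)) : ℤ) : ℂ) := eval_xv _ _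

lemma eval_zt (q : Fin 3 → ℤ) (i : Fin 3) (w : W 3) :
    eval (cst q) (zt i w) = ((ks i w * (q i ^ 2 - xz q (w.1 (2, false)) ^ 2) : ℤ) : ℂ) := by
  unfold zt
  rw [map_mul, map_sub, map_pow, map_pow, eval_X, eval_xv, eval_C]
  push_cast
  ring

lemma eval_F1 (k : Fin 7) (w : W 3) (q : Fin 3 → ℤ) :
    eval (cst q) (F1 k w) = (ev1 k w q : ℂ) := by
  fin_cases k
  · exact eval_X q 0
  · exact eval_X q 1
  · exact eval_X q 2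
  · exact eval_th q w
  · exact eval_yy q 0 w
  · exact eval_yy q 1 w
  · exact eval_yy q 2 w

lemma eval_XF (i : Fin 3) (k : Fin 7) (w : W 3) (q : Fin 3 → ℤ) :
    eval (cst q) (X i * F1 k w) = ((q i * ev1 k w q : ℤ) : ℂ) := by
  rw [map_mul, eval_X, eval_F1]; push_cast; ring

lemma eval_ty (j : Fin 3) (w : W 3) (q : Fin 3 → ℤ) :
    eval (cst q) (th w * yy j w) =
      ((tsg w * xz q (w.1 (2, false)) * xz q (w.1 (j, false)) : ℤ) : ℂ) := by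
  rw [map_mul, eval_th, eval_yy]; push_cast; ring

lemma eval_F2 (k : Fin 24) (w : W 3) (q : Fin 3 → ℤ) :
    eval (cst q) (F2 k w) = (ev2 k w q : ℂ) := by
  fin_cases k
  · exact eval_XF 0 0 w q
  · exact eval_XF 0 1 w q
  · exact eval_XF 0 2 w q
  · exact eval_XF 1 1 w q
  · exact eval_XF 1 2 w q
  · exact eval_XF 2 2 w q
  · exact eval_XF 0 3 w q
  · exact eval_XF 1 3 w q
  · exact eval_XF 2 3 w q
  · exact eval_XF 0 4 w q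
  · exact eval_XF 0 5 w q
  · exact eval_XF 0 6 w q
  · exact eval_XF 1 4 w q
  · exact eval_XF 1 5 w q
  · exact eval_XF 1 6 w q
  · exact eval_XF 2 4 w q
  · exact eval_XF 2 5 w q
  · exact eval_XF 2 6 w q
  · exact eval_ty 0 w q
  · exact eval_ty 1 w q
  · exact eval_ty 2 w q
  · exact eval_zt q 0 w
  · exact eval_zt q 1 w
  · exact eval_zt q 2 w

/-- entry of a table -/
def ent (T : List (List ℤ)) (i j : ℕ) : ℤ := (T.getD i []).getD j 0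

lemma tab1 : ∀ k e : Fin 7, ev1 k (sw (pc1.getD e 0) (ec1.getD e 0)) (sq (qc1.getD e 0)) =
    ent Mt1 k e := by decide +kernel

lemma inv1 : ∀ k k' : Fin 7, ∑ e : Fin 7, ent Mt1 k e * ent Nt1 e k' = if k = k' then 2 else 0 := by
  decide +kernel

set_option maxRecDepth 100000 in
lemma tab2 : ∀ k e : Fin 24, ev2 k (sw (pc2.getD e 0) (ec2.getD e 0)) (sq (qc2.getD e 0)) =
    ent Mt2 k e := by decide +kernel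

set_option maxRecDepth 100000 in
lemma inv2 : ∀ k k' : Fin 24, ∑ e : Fin 24, ent Mt2 k e * ent Nt2 e k' =
    if k = k' then 2 else 0 := by decide +kernel

lemma indep_of_cert {n : ℕ} (F : Fin n → (W 3 → R3)) (M N : Fin n → Fin n → ℤ)
    (pw : Fin n → W 3) (pq : Fin n → Fin 3 → ℤ)
    (hM : ∀ k e, eval (cst (pq e)) (F k (pw e)) = (M k e : ℂ))
    (hMN : ∀ k k', ∑ e, M k e * N e k' = if k = k' then 2 else 0) : LinearIndependent ℂ F := by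
  rw [Fintype.linearIndependent_iff]
  intro c hc k'
  have h1 : ∀ e, ∑ k, c k * (M k e : ℂ) = 0 := by
    intro e
    have := congrArg (fun f => eval (cst (pq e)) (f (pw e))) hc
    simp only [Finset.sum_apply, Pi.smul_apply, map_sum, Pi.zero_apply, map_zero] at this
    rw [← this]
    apply Finset.sum_congr rfl
    intro k _
    rw [smul_eval, hM]
  have h2 : ∑ k, c k * (((∑ e, M k e * N e k' : ℤ)) : ℂ) = 0 := by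
    have : ∑ k, c k * (((∑ e, M k e * N e k' : ℤ)) : ℂ) =
        ∑ e, (∑ k, c k * (M k e : ℂ)) * (N e k' : ℂ) := by
      simp only [Finset.sum_mul, Int.cast_sum, Int.cast_mul, Finset.mul_sum]
      rw [Finset.sum_comm]
      apply Finset.sum_congr rfl
      intro e _
      apply Finset.sum_congr rfl
      intro k _
      ring
    rw [this]
    apply Finset.sum_eq_zero
    intro e _
    rw [h1 e, zero_mul]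
  simp only [hMN] at h2
  rw [Finset.sum_eq_single k'] at h2
  · simpa using h2
  · intro k _ hk
    rw [if_neg hk]; simp
  · intro h; exact absurd (Finset.mem_univ _) h

lemma indep1 : LinearIndependent ℂ F1 :=
  indep_of_cert F1 (fun k e => ent Mt1 k e) (fun e k => ent Nt1 e k)
    (fun e => sw (pc1.getD e 0) (ec1.getD e 0)) (fun e => sq (qc1.getD e 0))
    (fun k e => by rw [eval_F1, tab1 k e]) inv1

lemma indep2 : LinearIndependent ℂ F2 :=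
  indep_of_cert F2 (fun k e => ent Mt2 k e) (fun e k => ent Nt2 e k)
    (fun e => sw (pc2.getD e 0) (ec2.getD e 0)) (fun e => sq (qc2.getD e 0))
    (fun k e => by rw [eval_F2, tab2 k e]) inv2

end Pool.Agent.R136.Hess
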