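import Pool.Agent.R136.HessInd

set_option autoImplicit false

/-!
The value at `-1` of the character in degree two is a negative integer.
-/

namespace Pool.Agent.R136.Hess

open MvPolynomial

lemma trace_lemma {Q : Type} [AddCommGroup Q] [Module ℂ Q] [FiniteDimensional ℂ Q]
    (τ : Q →ₗ[ℂ] Q) (hτ : ∀ x, τ (τ x) = x) (b : Fin 6 → Q) (hb : LinearIndependent ℂ b)
    (hneg : ∀ i, τ (b i) = -b i) (hQ : Module.finrank ℂ Q ≤ 11) :
    ∃ z : ℤ, z < 0 ∧ LinearMap.trace ℂ Q τ = z := by
  set P : Q →ₗ[ℂ] Q := (1 / 2 : ℂ) • (LinearMap.id - τ) with hP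
  have hPx : ∀ x, P x = (1 / 2 : ℂ) • (x - τ x) := fun x => rfl
  have hproj : LinearMap.IsProj (LinearMap.range P) P := by
    refine ⟨fun x => LinearMap.mem_range_self P x, ?_⟩
    rintro _ ⟨y, rfl⟩
    rw [hPx (P y), hPx y, map_smul, map_sub, hτ, ← smul_sub, smul_smul,
      show y - τ y - (τ y - y) = (2 : ℂ) • (y - τ y) by rw [two_smul]; abel, smul_smul]
    norm_num
  have htr := hproj.trace
  have h1 : LinearMap.trace ℂ Q τ = (Module.finrank ℂ Q : ℂ) -
      2 * (Module.finrank ℂ (LinearMap.range P) : ℂ) := by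
    have e : τ = LinearMap.id - (2 : ℂ) • P := by
      ext x
      rw [LinearMap.sub_apply, LinearMap.smul_apply, hPx, smul_smul]
      norm_num
    rw [e, map_sub, map_smul, htr, LinearMap.trace_id, smul_eq_mul]
  have hmem : ∀ i, b i ∈ LinearMap.range P := by
    intro i
    refine ⟨b i, ?_⟩
    rw [hPx, hneg, sub_neg_eq_add, ← two_smul ℂ (b i), smul_smul]
    norm_num
  have hr : 6 ≤ Module.finrank ℂ (LinearMap.range P) := by
    have hli : LinearIndependent ℂ (fun i => (⟨b i, hmem i⟩ : LinearMap.range P)) := by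
      apply LinearIndependent.of_comp (LinearMap.range P).subtype
      exact hb
    have := hli.fintype_card_le_finrank
    simpa using this
  refine ⟨(Module.finrank ℂ Q : ℤ) - 2 * (Module.finrank ℂ (LinearMap.range P) : ℤ), by omega, ?_⟩
  rw [h1]
  push_cast
  ring

section

variable (I : Set (L 3 × L 3)) (hA : ∀ p ∈ I6, p ∈ I)
  (hB : ∀ p ∈ I, p ∈ I6 ∨ (neg p.2, neg p.1) ∈ I6)

include hB in
lemma F1_mem (k : Fin 7) : F1 k ∈ Spl I 1 := by
  fin_cases k
  · exact const_mem I (X 0) 1 (isHomogeneous_X ℂ 0)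
  · exact const_mem I (X 1) 1 (isHomogeneous_X ℂ 1)
  · exact const_mem I (X 2) 1 (isHomogeneous_X ℂ 2)
  · exact th_mem I hB
  · exact yy_mem I hB 0
  · exact yy_mem I hB 1
  · exact yy_mem I hB 2

include hB in
lemma XF_mem (i : Fin 3) (k : Fin 7) : (fun w => X i * F1 k w) ∈ Spl I 2 :=
  mul_mem_Spl I 1 1 (fun _ => X i) (F1 k) (const_mem I (X i) 1 (isHomogeneous_X ℂ i)) (F1_mem I hB k)

include hB in
lemma ty_mem (j : Fin 3) : (fun w => th w * yy j w) ∈ Spl I 2 :=
  mul_mem_Spl I 1 1 th (yy j) (th_mem I hB) (yy_mem I hB j)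

include hB in
lemma F2_mem (k : Fin 24) : F2 k ∈ Spl I 2 := by
  fin_cases k
  · exact XF_mem I hB 0 0
  · exact XF_mem I hB 0 1
  · exact XF_mem I hB 0 2
  · exact XF_mem I hB 1 1
  · exact XF_mem I hB 1 2
  · exact XF_mem I hB 2 2
  · exact XF_mem I hB 0 3
  · exact XF_mem I hB 1 3
  · exact XF_mem I hB 2 3
  · exact XF_mem I hB 0 4
  · exact XF_mem I hB 0 5
  · exact XF_mem I hB 0 6
  · exact XF_mem I hB 1 4
  · exact XF_mem I hB 1 5
  · exact XF_mem I hB 1 6
  · exact XF_mem I hB 2 4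
  · exact XF_mem I hB 2 5
  · exact XF_mem I hB 2 6
  · exact ty_mem I hB 0
  · exact ty_mem I hB 1
  · exact ty_mem I hB 2
  · exact zt_mem I hB 0
  · exact zt_mem I hB 1
  · exact zt_mem I hB 2

/-- the span of the first eighteen functions -/
noncomputable def T18 : Submodule ℂ (W 3 → R3) :=
  Submodule.span ℂ (F2 '' {k | (k : ℕ) < 18})

lemma XF_T18 (i : Fin 3) (k : Fin 7) : (fun w => X i * F1 k w) ∈ T18 := by
  have key : ∀ k : Fin 24, (k : ℕ) < 18 → F2 k ∈ T18 := fun k hk =>
    Submodule.subset_span ⟨k, hk, rfl⟩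
  have c10 : (fun w => (X 1 : R3) * F1 0 w) = F2 1 := by
    funext w; show (X 1 : R3) * X 0 = X 0 * X 1; ring
  have c20 : (fun w => (X 2 : R3) * F1 0 w) = F2 2 := by
    funext w; show (X 2 : R3) * X 0 = X 0 * X 2; ring
  have c21 : (fun w => (X 2 : R3) * F1 1 w) = F2 4 := by
    funext w; show (X 2 : R3) * X 1 = X 1 * X 2; ring
  fin_cases i <;> fin_cases k
  · exact key 0 (by decide)
  · exact key 1 (by decide)
  · exact key 2 (by decide)
  · exact key 6 (by decide)
  · exact key 9 (by decide)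
  · exact key 10 (by decide)
  · exact key 11 (by decide)
  · exact c10 ▸ key 1 (by decide)
  · exact key 3 (by decide)
  · exact key 4 (by decide)
  · exact key 7 (by decide)
  · exact key 12 (by decide)
  · exact key 13 (by decide)
  · exact key 14 (by decide)
  · exact c20 ▸ key 2 (by decide)
  · exact c21 ▸ key 4 (by decide)
  · exact key 5 (by decide)
  · exact key 8 (by decide)
  · exact key 15 (by decide)
  · exact key 16 (by decide)
  · exact key 17 (by decide)

include hA in
lemma Spl0 : ∀ σ ∈ Spl I 0, ∃ c : ℂ, σ = fun _ => C c := by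
  obtain ⟨hfd, hle⟩ := dim_bound I hA 0 (by norm_num)
  rw [count0] at hle
  have h1 : (fun _ => (1 : R3)) ∈ Spl I 0 := const_mem I 1 0 (isHomogeneous_one _ _)
  set e : Spl I 0 := ⟨fun _ => (1 : R3), h1⟩ with he
  have hne : e ≠ 0 := by
    intro h
    have := congrFun (congrArg Subtype.val h) 1
    exact one_ne_zero this
  intro σ hσ
  have hone : Module.finrank ℂ (Spl I 0) = 1 := by
    have : 0 < Module.finrank ℂ (Spl I 0) := Module.finrank_pos_iff_exists_ne_zero.mpr ⟨e, hne⟩
    omega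
  obtain ⟨c, hc⟩ := exists_smul_eq_of_finrank_eq_one hone hne ⟨σ, hσ⟩
  refine ⟨c, ?_⟩
  have := congrArg Subtype.val hc
  funext w
  have h2 := congrFun this w
  simp only [he] at h2
  show σ w = C c
  have h3 : c • (1 : R3) = σ w := h2
  rw [← h3, smul_eq_C_mul, mul_one]

include hA hB in
lemma Spl1 : Spl I 1 = Submodule.span ℂ (Set.range F1) := by
  obtain ⟨hfd, hle⟩ := dim_bound I hA 1 (by norm_num)
  rw [count1] at hle
  symm
  apply Submodule.eq_of_le_of_finrank_le
  · rw [Submodule.span_le]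
    rintro _ ⟨k, rfl⟩
    exact F1_mem I hB k
  · rw [finrank_span_eq_card indep1]
    simpa using hle

lemma deg_one (d : Fin 3 →₀ ℕ) (h : d.degree = 1) : ∃ i, d = Finsupp.single i 1 := by
  obtain ⟨i, hi⟩ : ∃ i, d i ≠ 0 := by
    by_contra hcon
    push Not at hcon
    have : d = 0 := Finsupp.ext hcon
    rw [this] at h
    simp at h
  have hle : Finsupp.single i 1 ≤ d := by
    rw [Finsupp.single_le_iff]; omega
  obtain ⟨d', hd'⟩ := exists_add_of_le hle
  have hdeg : d'.degree = 0 := by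
    rw [hd', map_add, Finsupp.degree_single] at h
    omega
  rw [Finsupp.degree_eq_zero_iff] at hdeg
  exact ⟨i, by rw [hd', hdeg, add_zero]⟩

lemma X_mem_span (f : R3) (hf : f.IsHomogeneous 1) :
    f ∈ Submodule.span ℂ (Set.range (fun i : Fin 3 => (X i : R3))) := by
  have := homog_le 1 (by rw [mem_homogeneousSubmodule]; exact hf)
  refine Submodule.span_mono ?_ this
  intro g hg
  rw [gens, Finset.coe_image] at hg
  obtain ⟨d, hd, rfl⟩ := hg
  rw [Finset.mem_coe, Finset.mem_finsuppAntidiag] at hd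
  obtain ⟨i, hi⟩ : ∃ i, d = Finsupp.single i 1 := by
    have h1 : d.degree = 1 := by rw [Finsupp.degree_eq_sum]; exact hd.1
    exact deg_one d h1
  exact ⟨i, by rw [hi]; rfl⟩

lemma XX_mem_span (f : R3) (hf : f.IsHomogeneous 2) :
    (fun _ : W 3 => f) ∈ T18 := by
  have h0 := homog_le 2 (by rw [mem_homogeneousSubmodule]; exact hf)
  clear hf
  induction h0 using Submodule.span_induction with
  | mem g hg =>
    rw [gens, Finset.coe_image] at hg
    obtain ⟨d, hd, rfl⟩ := hg
    rw [Finset.mem_coe, Finset.mem_finsuppAntidiag] at hd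
    have hsum : ∑ i, d i = 2 := hd.1
    obtain ⟨i, hi⟩ : ∃ i, d i ≠ 0 := by
      by_contra hcon
      push Not at hcon
      simp [hcon] at hsum
    have hle : Finsupp.single i 1 ≤ d := by
      rw [Finsupp.single_le_iff]; omega
    obtain ⟨d', hd'⟩ := exists_add_of_le hle
    have hdeg : d'.degree = 1 := by
      have : d.degree = 2 := by rw [Finsupp.degree_eq_sum]; exact hsum
      rw [hd', map_add, Finsupp.degree_single] at this
      omega
    obtain ⟨j, hj⟩ := deg_one d' hdeg
    have e : (monomial d (1 : ℂ) : R3) = X i * X j := by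
      rw [hd', hj, X, X, monomial_mul, mul_one]
    beta_reduce
    rw [e]
    fin_cases j
    · exact XF_T18 i 0
    · exact XF_T18 i 1
    · exact XF_T18 i 2
  | zero => exact Submodule.zero_mem _
  | add x y _ _ hx hy => exact T18.add_mem hx hy
  | smul c x _ hx => exact T18.smul_mem c hx

lemma F1_span_mul (f : R3) (hf : f.IsHomogeneous 1) (σ : W 3 → R3)
    (hσ : σ ∈ Submodule.span ℂ (Set.range F1)) : (fun w => f * σ w) ∈ T18 := by
  have h0 := X_mem_span f hf
  clear hf
  induction h0 using Submodule.span_induction with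
  | mem g hg =>
    obtain ⟨i, rfl⟩ := hg
    induction hσ using Submodule.span_induction with
    | mem τ hτ =>
      obtain ⟨k, rfl⟩ := hτ
      exact XF_T18 i k
    | zero =>
      have : (fun w : W 3 => (X i : R3) * (0 : W 3 → R3) w) = 0 := by funext w; simp
      rw [this]; exact T18.zero_mem
    | add x y _ _ hx hy =>
      have : (fun w : W 3 => (X i : R3) * (x + y) w) =
          (fun w => (X i : R3) * x w) + (fun w => (X i : R3) * y w) := by
        funext w; simp only [Pi.add_apply]; ring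
      rw [this]; exact T18.add_mem hx hy
    | smul c x _ hx =>
      have : (fun w : W 3 => (X i : R3) * (c • x) w) = c • (fun w => (X i : R3) * x w) := by
        funext w; simp only [Pi.smul_apply, smul_eq_C_mul]; ring
      rw [this]; exact T18.smul_mem c hx
  | zero =>
    have : (fun w : W 3 => (0 : R3) * σ w) = 0 := by funext w; simp
    rw [this]; exact T18.zero_mem
  | add x y _ _ hx hy =>
    have : (fun w : W 3 => (x + y) * σ w) = (fun w => x * σ w) + (fun w => y * σ w) := by
      funext w; simp only [Pi.add_apply]; ring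
    rw [this]; exact T18.add_mem hx hy
  | smul c x _ hx =>
    have : (fun w : W 3 => (c • x) * σ w) = c • (fun w => x * σ w) := by
      funext w; simp only [Pi.smul_apply, smul_eq_C_mul]; ring
    rw [this]; exact T18.smul_mem c hx

include hA hB in
lemma Jd_le : Jd I 2 ≤ T18 := by
  unfold Jd
  rw [Submodule.span_le]
  rintro _ ⟨j, h1, h2, p, hp, σ, hσ, rfl⟩
  have hj : j = 1 ∨ j = 2 := by omega
  rcases hj with rfl | rfl
  · have hσ' : σ ∈ Spl I 1 := hσ
    rw [Spl1 I hA hB] at hσ'
    exact F1_span_mul p hp σ hσ'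
  · obtain ⟨c, hc⟩ := Spl0 I hA σ hσ
    have e : (fun w => p * σ w) = c • (fun _ : W 3 => p) := by
      funext w
      rw [hc]
      simp only [Pi.smul_apply, smul_eq_C_mul]; ring
    show (fun w => p * σ w) ∈ T18
    rw [e]
    exact T18.smul_mem c (XX_mem_span p hp)

include hB in
lemma F2_Jd (k : Fin 24) (hk : (k : ℕ) < 18) : F2 k ∈ Jd I 2 := by
  have key : ∀ (i : Fin 3) (k : Fin 7), (fun w => (X i : R3) * F1 k w) ∈ Jd I 2 := by
    intro i k
    apply Submodule.subset_span
    exact ⟨1, le_refl 1, by norm_num, X i, isHomogeneous_X ℂ i, F1 k, F1_mem I hB k, rfl⟩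
  fin_cases k
  · exact key 0 0
  · exact key 0 1
  · exact key 0 2
  · exact key 1 1
  · exact key 1 2
  · exact key 2 2
  · exact key 0 3
  · exact key 1 3
  · exact key 2 3
  · exact key 0 4
  · exact key 0 5
  · exact key 0 6
  · exact key 1 4
  · exact key 1 5
  · exact key 1 6
  · exact key 2 4
  · exact key 2 5
  · exact key 2 6
  all_goals exact absurd hk (by decide)

end

/-- the element `-1` -/
def negW : W 3 := ⟨⟨neg, neg, neg_neg, neg_neg⟩, fun _ => rfl⟩

lemma negW_app (a : L 3) : negW.1 a = neg a := rfl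

lemma negW_inv : negW⁻¹ = negW := by
  rw [inv_eq_iff_mul_eq_one]
  apply Subtype.ext
  apply Equiv.ext
  intro a
  exact neg_neg a

lemma negW_mul_app (v : W 3) (a : L 3) : (negW⁻¹ * v).1 a = neg (v.1 a) := by
  rw [negW_inv]; rfl

lemma actP_negW (a : L 3) : actP negW (xv a) = -xv a := by
  rw [actP_xv, negW_app, xv_neg]

lemma dot_dot (u v : W 3) (ρ : W 3 → R3) : dot u (dot v ρ) = dot (u * v) ρ := by
  funext w
  show actP u (actP v (ρ (v⁻¹ * (u⁻¹ * w)))) = actP (u * v) (ρ ((u * v)⁻¹ * w))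
  rw [actP_mul, mul_inv_rev, mul_assoc]

lemma dot_one (ρ : W 3 → R3) : dot (1 : W 3) ρ = ρ := by
  funext w
  show actP (1 : W 3) (ρ (1⁻¹ * w)) = ρ w
  rw [actP_one, inv_one, one_mul]

lemma th_negW (v : W 3) : th (negW⁻¹ * v) = th v := by
  unfold th tsg
  simp only [negW_mul_app, sg_neg, xv_neg]
  push_cast
  simp only [map_mul, map_neg]
  ring

lemma yy_negW (j : Fin 3) (v : W 3) : yy j (negW⁻¹ * v) = -yy j v := by
  unfold yy
  rw [negW_mul_app, xv_neg]

lemma ks_negW (i : Fin 3) (v : W 3) : ks i (negW⁻¹ * v) = -ks i v := by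
  unfold ks
  have h : (negW⁻¹ * v)⁻¹.1 (i, false) = neg (v⁻¹.1 (i, false)) := by
    rw [mul_inv_rev, inv_inv]
    show (v⁻¹).1 (negW.1 (i, false)) = _
    rw [negW_app, W_neg]
  rw [h, sg_neg]

lemma zt_negW (i : Fin 3) (v : W 3) : zt i (negW⁻¹ * v) = -zt i v := by
  unfold zt
  rw [ks_negW, negW_mul_app, xv_neg]
  push_cast
  simp only [map_neg]
  ring

lemma dot_ty (j : Fin 3) : dot negW (fun w => th w * yy j w) = -(fun w => th w * yy j w) := by
  funext v
  show actP negW (th (negW⁻¹ * v) * yy j (negW⁻¹ * v)) = -(th v * yy j v)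
  rw [th_negW, yy_negW, map_mul, map_neg]
  unfold th yy
  rw [map_mul, actP_negW, actP_negW]
  have : actP negW (C (tsg v : ℂ)) = C (tsg v : ℂ) := by simp [actP]
  rw [this]
  ring

lemma dot_zt (i : Fin 3) : dot negW (zt i) = -zt i := by
  funext v
  show actP negW (zt i (negW⁻¹ * v)) = -zt i v
  rw [zt_negW, map_neg]
  unfold zt
  have h1 : actP negW (C (ks i v : ℂ)) = C (ks i v : ℂ) := by simp [actP]
  have h2 : actP negW (X i : R3) = -X i := by
    have : (X i : R3) = xv (i, false) := by simp [xv]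
    rw [this, actP_negW]
  rw [map_mul, map_sub, map_pow, map_pow, h1, h2, actP_negW]
  ring

/-- the last six functions -/
def emb6 (i : Fin 6) : Fin 24 := ⟨18 + i, by omega⟩

lemma dot_F2 (i : Fin 6) : dot negW (F2 (emb6 i)) = -F2 (emb6 i) := by
  fin_cases i
  · exact dot_ty 0
  · exact dot_ty 1
  · exact dot_ty 2
  · exact dot_zt 0
  · exact dot_zt 1
  · exact dot_zt 2

theorem Lchar_neg (I : Set (L 3 × L 3)) (hA : ∀ p ∈ I6, p ∈ I)
    (hB : ∀ p ∈ I, p ∈ I6 ∨ (neg p.2, neg p.1) ∈ I6) :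
    ∃ z : ℤ, z < 0 ∧ Lchar I 2 negW = z := by
  obtain ⟨hfd, hle⟩ := dim_bound I hA 2 (le_refl 2)
  rw [count2] at hle
  show ∃ z : ℤ, z < 0 ∧ LinearMap.trace ℂ ((Spl I 2) ⧸ (JS I 2))
    (Submodule.mapQ (JS I 2) (JS I 2) (dotSpl I 2 negW) (dotSpl_le I 2 negW)) = z
  have hfdQ : FiniteDimensional ℂ ((Spl I 2) ⧸ (JS I 2)) := inferInstance
  refine trace_lemma (Submodule.mapQ (JS I 2) (JS I 2) (dotSpl I 2 negW) (dotSpl_le I 2 negW)) ?_
    (fun i => Submodule.Quotient.mk ⟨F2 (emb6 i), F2_mem I hB (emb6 i)⟩) ?_ ?_ ?_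
  · intro x
    obtain ⟨ρ, rfl⟩ := Submodule.Quotient.mk_surjective _ x
    show Submodule.Quotient.mk _ = Submodule.Quotient.mk _
    congr 1
    apply Subtype.ext
    show dot negW (dot negW ρ.1) = ρ.1
    rw [dot_dot]
    have : negW * negW = 1 := by rw [← inv_eq_iff_mul_eq_one]; exact negW_inv
    rw [this, dot_one]
  · rw [Fintype.linearIndependent_iff]
    intro c hc
    have h1 : (∑ i, c i • (⟨F2 (emb6 i), F2_mem I hB (emb6 i)⟩ : Spl I 2)) ∈
        JS I 2 := by
      rw [← Submodule.Quotient.mk_eq_zero, ← hc]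
      exact map_sum (Submodule.mkQ (JS I 2))
        (fun i => c i • (⟨F2 (emb6 i), F2_mem I hB (emb6 i)⟩ : Spl I 2)) Finset.univ
    have h2 : ∑ i, c i • F2 (emb6 i) ∈ T18 := by
      apply Jd_le I hA hB
      have : ((∑ i, c i • (⟨F2 (emb6 i), F2_mem I hB (emb6 i)⟩ : Spl I 2) : Spl I 2) : W 3 → R3) =
          ∑ i, c i • F2 (emb6 i) := by
        rw [Submodule.coe_sum]
        rfl
      rw [← this]
      exact h1
    have h3 : ∑ i, c i • F2 (emb6 i) ∈ Submodule.span ℂ (F2 '' {k | 18 ≤ (k : ℕ)}) := by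
      apply Submodule.sum_mem
      intro i _
      apply Submodule.smul_mem
      apply Submodule.subset_span
      refine ⟨emb6 i, ?_, rfl⟩
      show 18 ≤ 18 + (i : ℕ)
      omega
    have hdis : Disjoint {k : Fin 24 | (k : ℕ) < 18} {k : Fin 24 | 18 ≤ (k : ℕ)} := by
      rw [Set.disjoint_left]
      intro k hk hk'
      have a : (k : ℕ) < 18 := hk
      have b : 18 ≤ (k : ℕ) := hk'
      omega
    have h4 := Submodule.disjoint_def.mp (indep2.disjoint_span_image hdis) _ h2 h3
    have h5 : LinearIndependent ℂ (F2 ∘ emb6) := by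
      apply indep2.comp
      intro i j hij
      have := congrArg Fin.val hij
      simp only [emb6] at this
      exact Fin.ext (by omega)
    rw [Fintype.linearIndependent_iff] at h5
    exact h5 c h4
  · intro i
    show Submodule.Quotient.mk _ = -Submodule.Quotient.mk _
    rw [← Submodule.Quotient.mk_neg]
    congr 1
    apply Subtype.ext
    exact dot_F2 i
  · have h1 := Submodule.finrank_quotient_add_finrank (JS I 2)
    have h2 : 18 ≤ Module.finrank ℂ (JS I 2) := by
      have hk : ∀ k : Fin 18, ((Fin.castLE (by norm_num) k : Fin 24) : ℕ) < 18 := fun k => k.isLt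
      let f : Fin 18 → (JS I 2) := fun k =>
        ⟨⟨F2 (Fin.castLE (by norm_num) k), F2_mem I hB _⟩, F2_Jd I hB _ (hk k)⟩
      have hf : LinearIndependent ℂ f := by
        apply LinearIndependent.of_comp ((Spl I 2).subtype ∘ₗ
          (JS I 2).subtype)
        exact indep2.comp (fun k : Fin 18 => (Fin.castLE (by norm_num) k : Fin 24))
          (Fin.castLE_injective (by norm_num))
      have := hf.fintype_card_le_finrank
      simpa using this
    omega

end Pool.Agent.R136.Hess
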