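import Mathlib

set_option autoImplicit false

/-!
Signed involutions and sorted words in `ℕ × Bool × ℕ`.

For a signed permutation `w = (σ, ε)` of `{1..n}` (`w(i+1) = ± (σ i + 1)`) we consider the integer keys
`V r w i` realising the natural order (`r = false`) and the colored order
`-1 < -2 < ... < -n < 0 < 1 < 2 ...` (`r = true`).
-/

namespace Pool.Agent.R136.Inv

/-- triples `(u, s, v)`. -/
abbrev T := ℕ × Bool × ℕ

/-- swap the two integer coordinates. -/
def iota (t : T) : T := (t.2.2, t.2.1, t.1)

@[simp] lemma iota_iota (t : T) : iota (iota t) = t := rfl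

/-- sorting key. -/
def key (r : Bool) (t : T) : ℕ ×ₗ (Bool ×ₗ ℤ) :=
  toLex (t.1, toLex (!t.2.1, if t.2.1 = true ∧ r = false then -(t.2.2 : ℤ) else (t.2.2 : ℤ)))

lemma key_inj (r : Bool) : Function.Injective (key r) := by
  rintro ⟨u, s, v⟩ ⟨u', s', v'⟩ h
  have h1 := congrArg (fun x => (ofLex x).1) h
  have h2 := congrArg (fun x => (ofLex (ofLex x).2).1) h
  have h3 := congrArg (fun x => (ofLex (ofLex x).2).2) h
  simp only [key, ofLex_toLex] at h1 h2 h3
  have h2' : s = s' := by simpa using h2
  subst h1 h2'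
  have : v = v' := by
    split_ifs at h3 <;> omega
  subst this
  rfl

lemma key_le_iff (r : Bool) (x y : T) : key r x ≤ key r y ↔
    x.1 < y.1 ∨ (x.1 = y.1 ∧ ((x.2.1 = true ∧ y.2.1 = false) ∨ (x.2.1 = y.2.1 ∧
      (if x.2.1 = true ∧ r = false then y.2.2 ≤ x.2.2 else x.2.2 ≤ y.2.2)))) := by
  rcases x with ⟨u, s, v⟩
  rcases y with ⟨u', s', v'⟩
  simp only [key, Prod.Lex.toLex_le_toLex]
  cases s <;> cases s' <;> cases r <;> simp

/-- position values: natural order (`r = false`) or colored order (`r = true`). -/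
def V {n : ℕ} (r : Bool) (w : Equiv.Perm (Fin n) × (Fin n → Bool)) (i : Fin n) : ℤ :=
  if w.2 i = true then (if r = true then ((w.1 i : ℕ) : ℤ) - n else -(((w.1 i : ℕ) : ℤ) + 1))
  else ((w.1 i : ℕ) : ℤ) + 1

/-- involution. -/
def IsInv {n : ℕ} (w : Equiv.Perm (Fin n) × (Fin n → Bool)) : Prop :=
  ∀ i : Fin n, w.1 (w.1 i) = i ∧ w.2 (w.1 i) = w.2 i

/-- compatible words. -/
def Cmp {n : ℕ} (r : Bool) (w : Equiv.Perm (Fin n) × (Fin n → Bool)) (a : Fin n → ℕ) : Prop :=
  Monotone a ∧ (∀ i j, i < j → a i = a j → V r w i < V r w j) ∧ (∀ i, a i = 0 → w.2 i = false)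

/-- the word of triples. -/
def F {n : ℕ} (w : Equiv.Perm (Fin n) × (Fin n → Bool)) (a : Fin n → ℕ) (j : Fin n) : T :=
  (a j, w.2 j, a (w.1 j))

/-- admissible sorted words. -/
def Y {n : ℕ} (r : Bool) (G : Fin n → T) : Prop :=
  Monotone (key r ∘ G) ∧ (∀ j, (G j).2.1 = true → (G j).1 ≠ 0 ∧ (G j).2.2 ≠ 0) ∧
    ∃ π : Equiv.Perm (Fin n), G ∘ π = iota ∘ G

lemma V_lt_cases {n : ℕ} (r : Bool) (w : Equiv.Perm (Fin n) × (Fin n → Bool)) (i j : Fin n) :
    V r w i < V r w j ↔ (w.2 i = true ∧ w.2 j = false) ∨ (w.2 i = w.2 j ∧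
      (if w.2 i = true ∧ r = false then w.1 j < w.1 i else w.1 i < w.1 j)) := by
  have h1 := (w.1 i).isLt
  have h2 := (w.1 j).isLt
  unfold V
  cases hi : w.2 i <;> cases hj : w.2 j <;> cases r <;> simp [Fin.lt_def, -Fin.val_fin_lt] <;> omega

theorem F_mem {n : ℕ} (r : Bool) (w : Equiv.Perm (Fin n) × (Fin n → Bool)) (a : Fin n → ℕ)
    (hw : IsInv w) (hc : Cmp r w a) : Y r (F w a) := by
  obtain ⟨ha, hv, h0⟩ := hc
  refine ⟨?_, ?_, w.1, ?_⟩
  · intro i j hij
    rcases eq_or_lt_of_le hij with h | h
    · rw [h]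
    simp only [Function.comp]
    rw [key_le_iff]
    rcases eq_or_lt_of_le (ha hij) with e | l
    · right
      refine ⟨e, ?_⟩
      have := hv i j h e
      rw [V_lt_cases] at this
      rcases this with h1 | ⟨h1, h2⟩
      · left; exact h1
      · right
        refine ⟨h1, ?_⟩
        simp only [F]
        split_ifs at h2 ⊢
        · exact ha h2.le
        · exact ha h2.le
    · left; exact l
  · intro j hj
    simp only [F] at hj ⊢
    constructor
    · intro h
      rw [h0 j h] at hj
      exact absurd hj (by simp)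
    · intro h
      have := h0 _ h
      rw [(hw j).2, hj] at this
      exact absurd this (by simp)
  · funext j
    simp only [Function.comp, F, iota, (hw j).1, (hw j).2]

lemma perm_eq_one {n : ℕ} {α : Type*} [LinearOrder α] (f : Fin n → α) (hf : Monotone f)
    (π : Equiv.Perm (Fin n)) (h : f ∘ π = f)
    (hm : ∀ i j, i < j → f i = f j → π i < π j) : π = 1 := by
  have h1 : π = Tuple.sort f := by
    rw [Tuple.eq_sort_iff]
    refine ⟨by rw [h]; exact hf, fun i j hij he => hm i j hij ?_⟩
    have e1 := congrFun h i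
    have e2 := congrFun h j
    simp only [Function.comp] at e1 e2
    rw [← e1, ← e2]; exact he
  have h2 : (1 : Equiv.Perm (Fin n)) = Tuple.sort f := by
    rw [Tuple.eq_sort_iff]
    exact ⟨hf, fun i j hij _ => hij⟩
  rw [h1, h2]

theorem F_inj {n : ℕ} (r : Bool) (w w' : Equiv.Perm (Fin n) × (Fin n → Bool)) (a a' : Fin n → ℕ)
    (hw : IsInv w) (hw' : IsInv w') (hc : Cmp r w a) (hc' : Cmp r w' a')
    (h : F w a = F w' a') : w = w' ∧ a = a' := by
  have ea : a = a' := by
    funext j
    exact congrArg (fun x : T => x.1) (congrFun h j)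
  have ee : w.2 = w'.2 := by
    funext j
    exact congrArg (fun x : T => x.2.1) (congrFun h j)
  subst ea
  refine ⟨?_, rfl⟩
  have hY := F_mem r w a hw hc
  have h1 : w.1 * w'.1 = 1 := by
    refine perm_eq_one (key r ∘ F w a) hY.1 _ ?_ ?_
    · funext j
      simp only [Function.comp, Equiv.Perm.mul_apply]
      congr 1
      have e1 : F w a (w.1 (w'.1 j)) = iota (F w a (w'.1 j)) := by
        simp only [F, iota, (hw (w'.1 j)).1, (hw (w'.1 j)).2]
      have e2 : F w' a (w'.1 j) = iota (F w' a j) := by
        simp only [F, iota, (hw' j).1, (hw' j).2]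
      rw [e1, h, e2, iota_iota]
    · intro i j hij he
      have he' : F w a i = F w a j := key_inj r he
      have heF : F w' a i = F w' a j := by rw [← h]; exact he'
      have a1 : a i = a j := congrArg (fun x : T => x.1) he'
      have s1 : w.2 i = w.2 j := congrArg (fun x : T => x.2.1) he'
      have v1 : a (w.1 i) = a (w.1 j) := congrArg (fun x : T => x.2.2) he'
      have v2 : a (w'.1 i) = a (w'.1 j) := congrArg (fun x : T => x.2.2) heF
      have k1 := hc'.2.1 i j hij a1
      rw [V_lt_cases, ← ee] at k1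
      simp only [Equiv.Perm.mul_apply]
      have si : w.2 (w'.1 i) = w.2 i := by rw [ee]; exact (hw' i).2
      have sj : w.2 (w'.1 j) = w.2 j := by rw [ee]; exact (hw' j).2
      rcases k1 with ⟨h1, h2⟩ | ⟨h1, h2⟩
      · rw [s1, h2] at h1; exact absurd h1 (by simp)
      · by_cases hc0 : w.2 i = true ∧ r = false
        · rw [if_pos hc0] at h2
          have k2 := hc.2.1 _ _ h2 v2.symm
          rw [V_lt_cases, si, sj] at k2
          rcases k2 with ⟨h3, h4⟩ | ⟨h3, h4⟩
          · rw [h1, h3] at h4; exact absurd h4 (by simp)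
          · rw [if_pos (by rw [← s1]; exact hc0)] at h4
            exact h4
        · rw [if_neg hc0] at h2
          have k2 := hc.2.1 _ _ h2 v2
          rw [V_lt_cases, si, sj] at k2
          rcases k2 with ⟨h3, h4⟩ | ⟨h3, h4⟩
          · rw [h1] at h3; rw [h3] at h4; exact absurd h4 (by simp)
          · rw [if_neg hc0] at h4
            exact h4
  have h2 : w.1 = w'.1 := by
    have h3 : w'.1 * w'.1 = 1 := by
      ext j
      simp [(hw' j).1]
    calc w.1 = w.1 * (w'.1 * w'.1) := by rw [h3, mul_one]
      _ = (w.1 * w'.1) * w'.1 := by rw [mul_assoc]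
      _ = w'.1 := by rw [h1, one_mul]
  exact Prod.ext h2 ee

/-- sorting key for the inverse map. -/
def hkey {n : ℕ} (r : Bool) (G : Fin n → T) (i : Fin n) : (ℕ ×ₗ (Bool ×ₗ ℤ)) ×ₗ ℤ :=
  toLex (key r (iota (G i)),
    if (G i).2.1 = true ∧ r = false then -((i : ℕ) : ℤ) else ((i : ℕ) : ℤ))

lemma hkey_inj {n : ℕ} (r : Bool) (G : Fin n → T) : Function.Injective (hkey r G) := by
  intro i j h
  have h1 := congrArg (fun x => (ofLex x).1) h
  have h2 := congrArg (fun x => (ofLex x).2) h
  simp only [hkey, ofLex_toLex] at h1 h2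
  have h3 := key_inj r h1
  have h4 := congrArg (fun x : T => x.2.1) h3
  change (G i).2.1 = (G j).2.1 at h4
  rw [h4] at h2
  apply Fin.ext
  split_ifs at h2 <;> omega

theorem F_surj {n : ℕ} (r : Bool) (G : Fin n → T) (hG : Y r G) :
    ∃ (w : Equiv.Perm (Fin n) × (Fin n → Bool)) (a : Fin n → ℕ), IsInv w ∧ Cmp r w a ∧
      F w a = G := by
  obtain ⟨hm, h0, π, hπ⟩ := hG
  set σ := Tuple.sort (hkey r G) with hσ
  have hmono : Monotone (hkey r G ∘ σ) := Tuple.monotone_sort _
  have hstr : StrictMono (hkey r G ∘ σ) :=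
    hmono.strictMono_of_injective ((hkey_inj r G).comp σ.injective)
  -- first components
  have hm1 : Monotone (key r ∘ iota ∘ G ∘ σ) := by
    intro i j hij
    have := hmono hij
    simp only [Function.comp, hkey, Prod.Lex.toLex_le_toLex] at this
    simp only [Function.comp]
    rcases this with h | h
    · exact h.le
    · exact h.1.le
  have hGσ : ∀ j, iota (G (σ j)) = G j := by
    have e : key r ∘ iota ∘ G = (key r ∘ G) ∘ π := by
      rw [Function.comp_assoc, hπ]
    have e2 : (key r ∘ G) ∘ (σ.trans π) = key r ∘ G := by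
      have := Tuple.unique_monotone (f := key r ∘ G) (σ := σ.trans π) (τ := Equiv.refl _)
        (by
          have : (key r ∘ G) ∘ (σ.trans π) = key r ∘ iota ∘ G ∘ σ := by
            rw [show (key r ∘ iota ∘ G ∘ σ) = (key r ∘ iota ∘ G) ∘ σ from rfl, e]
            rfl
          rw [this]; exact hm1) (by simpa using hm)
      simpa using this
    intro j
    have e3 := congrFun e2 j
    have e4 := congrFun e (σ j)
    simp only [Function.comp, Equiv.trans_apply] at e3 e4
    rw [← e4] at e3
    exact key_inj r e3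
  have hGσ' : ∀ j, G (σ j) = iota (G j) := by
    intro j
    rw [← hGσ j, iota_iota]
  -- behaviour on fibres
  have hfib : ∀ i j, i < j → G i = G j →
      (if (G i).2.1 = true ∧ r = false then σ j < σ i else σ i < σ j) := by
    intro i j hij he
    have := hstr hij
    simp only [Function.comp, hkey, Prod.Lex.toLex_lt_toLex] at this
    have s1 : (G (σ i)).2.1 = (G i).2.1 := by rw [hGσ']; rfl
    have s2 : (G (σ j)).2.1 = (G i).2.1 := by rw [hGσ', ← he]; rfl
    rw [hGσ, hGσ, he, s1, s2] at this
    rcases this with h | h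
    · exact absurd h (lt_irrefl _)
    · have h2 := h.2
      split_ifs at h2 ⊢ with hc
      · exact Fin.lt_def.mpr (by omega)
      · exact Fin.lt_def.mpr (by omega)
  have hσ2 : ∀ j, σ (σ j) = j := by
    have h1 : σ * σ = 1 := by
      refine perm_eq_one (key r ∘ G) hm _ ?_ ?_
      · funext j
        simp only [Function.comp, Equiv.Perm.mul_apply]
        rw [hGσ', hGσ', iota_iota]
      · intro i j hij he
        have he' : G i = G j := key_inj r he
        have k1 := hfib i j hij he'
        simp only [Equiv.Perm.mul_apply]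
        have s1 : (G (σ i)).2.1 = (G i).2.1 := by rw [hGσ']; rfl
        have s2 : (G (σ j)).2.1 = (G i).2.1 := by rw [hGσ', ← he']; rfl
        have e1 : G (σ i) = G (σ j) := by rw [hGσ', hGσ', he']
        split_ifs at k1 with hc
        · have k2 := hfib _ _ k1 e1.symm
          rw [s2, if_pos hc] at k2
          exact k2
        · have k2 := hfib _ _ k1 e1
          rw [s1, if_neg hc] at k2
          exact k2
    intro j
    have := congrArg (fun p : Equiv.Perm (Fin n) => p j) h1
    simpa using this
  refine ⟨(σ, fun j => (G j).2.1), fun j => (G j).1, ?_, ⟨?_, ?_, ?_⟩, ?_⟩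
  · intro i
    refine ⟨hσ2 i, ?_⟩
    show (G (σ i)).2.1 = (G i).2.1
    rw [hGσ']; rfl
  · intro i j hij
    have := hm hij
    simp only [Function.comp] at this
    rw [key_le_iff] at this
    rcases this with h | h
    · exact h.le
    · exact h.1.le
  · intro i j hij he
    rw [V_lt_cases]
    have := hm hij.le
    simp only [Function.comp] at this
    rw [key_le_iff] at this
    rcases this with h | h
    · exact absurd he (ne_of_lt h)
    · rcases h.2 with h2 | ⟨h2, h3⟩
      · left; exact h2
      · right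
        refine ⟨h2, ?_⟩
        -- compare
        by_cases hv : (G i).2.2 = (G j).2.2
        · have he2 : G i = G j := Prod.ext he (Prod.ext h2 hv)
          exact hfib i j hij he2
        · have hmσ : ∀ x y : Fin n, (G x).1 < (G y).1 → x < y := by
            intro x y hxy
            by_contra hcon
            have := hm (not_lt.mp hcon)
            simp only [Function.comp] at this
            rw [key_le_iff] at this
            rcases this with h | h
            · omega
            · omega
          have t1 : (G (σ i)).1 = (G i).2.2 := by rw [hGσ']; rfl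
          have t2 : (G (σ j)).1 = (G j).2.2 := by rw [hGσ']; rfl
          show if (G i).2.1 = true ∧ r = false then σ j < σ i else σ i < σ j
          split_ifs at h3 ⊢ with hc
          · apply hmσ; rw [t1, t2]; omega
          · apply hmσ; rw [t1, t2]; omega
  · intro i hi
    by_contra hcon
    have := (h0 i (by simpa using hcon)).1
    exact this hi
  · funext j
    have : (G (σ j)).1 = (G j).2.2 := by rw [hGσ']; rfl
    exact Prod.ext rfl (Prod.ext rfl this)

end Pool.Agent.R136.Inv
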