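import Pool.Agent.R136.Inv

set_option autoImplicit false

namespace Pool.Agent.R136.Inv

/-- descent positions (`j : Fin n` is the position `j` of `0..n-1`, comparing `w(j)` and `w(j+1)`). -/
def Des {n : ℕ} (r : Bool) (w : Equiv.Perm (Fin n) × (Fin n → Bool)) : Finset (Fin n) :=
  Finset.univ.filter (fun j => (j.val = 0 ∧ w.2 j = true) ∨
    ∃ i : Fin n, j.val = i.val + 1 ∧ V r w j < V r w i)

lemma V_inj {n : ℕ} (r : Bool) (w : Equiv.Perm (Fin n) × (Fin n → Bool)) :
    Function.Injective (V r w) := by
  intro i j h
  have h1 : ¬ V r w i < V r w j := by rw [h]; exact lt_irrefl _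
  have h2 : ¬ V r w j < V r w i := by rw [h]; exact lt_irrefl _
  rw [V_lt_cases] at h1 h2
  push Not at h1 h2
  by_cases e : w.2 i = w.2 j
  · have k1 := h1.2 e
    have k2 := h2.2 e.symm
    rw [e] at k1
    split_ifs at k1 k2 with hc
    · exact w.1.injective (le_antisymm (not_lt.mp k1) (not_lt.mp k2))
    · exact w.1.injective (le_antisymm (not_lt.mp k2) (not_lt.mp k1))
  · exfalso
    have k1 := h1.1
    have k2 := h2.1
    cases hi : w.2 i <;> cases hj : w.2 j <;> simp_all

lemma V_pos_iff {n : ℕ} (r : Bool) (w : Equiv.Perm (Fin n) × (Fin n → Bool)) (i : Fin n) :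
    0 < V r w i ↔ w.2 i = false := by
  have := (w.1 i).isLt
  unfold V
  cases w.2 i <;> cases r <;> simp


/-- previous value. -/
def prev {n : ℕ} (a : Fin n → ℕ) (j : Fin n) : ℕ :=
  if h : j.val = 0 then 0 else a ⟨j.val - 1, by omega⟩

lemma cmp_iff {n : ℕ} (r : Bool) (w : Equiv.Perm (Fin n) × (Fin n → Bool)) (a : Fin n → ℕ) :
    Cmp r w a ↔ ∀ j : Fin n, prev a j + (if j ∈ Des r w then 1 else 0) ≤ a j := by
  constructor
  · rintro ⟨hm, hv, h0⟩ j
    by_cases hj : j.val = 0
    · simp only [prev, hj, dif_pos, zero_add]
      split_ifs with hd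
      · simp only [Des, Finset.mem_filter, Finset.mem_univ, true_and] at hd
        rcases hd with h | ⟨i, hi, _⟩
        · by_contra hcon
          have := h0 j (by omega)
          rw [this] at h
          exact absurd h.2 (by simp)
        · omega
      · omega
    · simp only [prev, hj, dif_neg, not_false_eq_true]
      have hle : (⟨j.val - 1, by omega⟩ : Fin n) ≤ j := by
        rw [Fin.le_def]; simp
      have hlt : (⟨j.val - 1, by omega⟩ : Fin n) < j := by
        rw [Fin.lt_def]; show j.val - 1 < j.val; omega
      have h1 := hm hle
      split_ifs with hd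
      · simp only [Des, Finset.mem_filter, Finset.mem_univ, true_and] at hd
        rcases hd with h | ⟨i, hi, hV⟩
        · exact absurd h.1 hj
        · have hi' : i = ⟨j.val - 1, by omega⟩ := Fin.ext (by show i.val = j.val - 1; omega)
          rw [hi'] at hV
          by_contra hcon
          have := hv _ j hlt (by omega)
          omega
      · omega
  · intro h
    -- step facts
    have step : ∀ (j : Fin n) (i : Fin n), j.val = i.val + 1 → a i ≤ a j ∧
        (a i = a j → V r w i < V r w j) := by
      intro j i hji
      have hj := h j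
      have hj0 : ¬ j.val = 0 := by omega
      have hi' : i = ⟨j.val - 1, by omega⟩ := Fin.ext (by show i.val = j.val - 1; omega)
      simp only [prev, hj0, dif_neg, not_false_eq_true] at hj
      rw [← hi'] at hj
      refine ⟨by omega, fun he => ?_⟩
      by_contra hcon
      have hne : V r w i ≠ V r w j := by
        intro e
        have := V_inj r w e
        rw [this] at hji
        omega
      have hd : j ∈ Des r w := by
        simp only [Des, Finset.mem_filter, Finset.mem_univ, true_and]
        right
        exact ⟨i, hji, lt_of_le_of_ne (not_lt.mp hcon) (Ne.symm hne)⟩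
      rw [if_pos hd] at hj
      omega
    have key : ∀ (d : ℕ) (i j : Fin n), j.val = i.val + (d + 1) → a i ≤ a j ∧
        (a i = a j → V r w i < V r w j) := by
      intro d
      induction d with
      | zero => intro i j hij; exact step j i hij
      | succ d ih =>
        intro i j hij
        have hk : i.val + (d + 1) < n := by have := j.isLt; omega
        have h1 := ih i ⟨i.val + (d + 1), hk⟩ rfl
        have h2 := step j ⟨i.val + (d + 1), hk⟩ (by show j.val = i.val + (d+1) + 1; omega)
        refine ⟨h1.1.trans h2.1, fun he => ?_⟩
        have e1 : a i = a ⟨i.val + (d + 1), hk⟩ := le_antisymm h1.1 (by rw [he]; exact h2.1)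
        have e2 : a ⟨i.val + (d + 1), hk⟩ = a j := by rw [← e1, he]
        exact (h1.2 e1).trans (h2.2 e2)
    refine ⟨?_, ?_, ?_⟩
    · intro i j hij
      rcases eq_or_lt_of_le hij with e | l
      · rw [e]
      · exact (key (j.val - i.val - 1) i j (by rw [Fin.lt_def] at l; omega)).1
    · intro i j hij he
      exact (key (j.val - i.val - 1) i j (by rw [Fin.lt_def] at hij; omega)).2 he
    · intro i hi
      have hz : ∀ (d : ℕ) (hd : d < n), a ⟨d, hd⟩ = 0 → w.2 ⟨d, hd⟩ = false := by
        intro d
        induction d with
        | zero =>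
          intro hd h0
          by_contra hcon
          have := h ⟨0, hd⟩
          have hdm : (⟨0, hd⟩ : Fin n) ∈ Des r w := by
            simp only [Des, Finset.mem_filter, Finset.mem_univ, true_and]
            left
            simpa using hcon
          rw [if_pos hdm] at this
          omega
        | succ d ih =>
          intro hd h0
          have h1 := step ⟨d + 1, hd⟩ ⟨d, by omega⟩ rfl
          have h2 : a ⟨d, by omega⟩ = 0 := by omega
          have h3 := ih (by omega) h2
          rw [← V_pos_iff r w] at h3 ⊢
          exact h3.trans (h1.2 (by omega))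
      exact hz i.val i.isLt hi

end Pool.Agent.R136.Inv
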