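import Pool.Agent.R136.Inv2

set_option autoImplicit false

namespace Pool.Agent.R136.Inv

open Classical

/-- words with prescribed first coordinates. -/
abbrev A {n : ℕ} (r : Bool) (a : Fin n → ℕ) := {G : Fin n → T // Y r G ∧ ∀ j, (G j).1 = a j}

/-- signed involutions compatible with `a`. -/
abbrev W {n : ℕ} (r : Bool) (a : Fin n → ℕ) :=
  {w : Equiv.Perm (Fin n) × (Fin n → Bool) // IsInv w ∧ Cmp r w a}

/-- the word map. -/
def phi {n : ℕ} (r : Bool) (a : Fin n → ℕ) (w : W r a) : A r a :=
  ⟨F w.1 a, F_mem r w.1 a w.2.1 w.2.2, fun _ => rfl⟩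

lemma phi_bij {n : ℕ} (r : Bool) (a : Fin n → ℕ) : Function.Bijective (phi r a) := by
  constructor
  · rintro ⟨w, hw⟩ ⟨w', hw'⟩ h
    have h1 : F w a = F w' a := congrArg Subtype.val h
    exact Subtype.ext (F_inj r w w' a a hw.1 hw'.1 hw.2 hw'.2 h1).1
  · rintro ⟨G, hG, ha⟩
    obtain ⟨w, b, hw, hb, hF⟩ := F_surj r G hG
    have e : b = a := by
      funext j
      rw [← ha j, ← hF]
      rfl
    subst e
    exact ⟨⟨w, hw, hb⟩, Subtype.ext hF⟩

lemma resort_mem {n : ℕ} (r r' : Bool) (a : Fin n → ℕ) (G : A r a) :
    Y r' (G.1 ∘ Tuple.sort (key r' ∘ G.1)) ∧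
      ∀ j, ((G.1 ∘ Tuple.sort (key r' ∘ G.1)) j).1 = a j := by
  obtain ⟨G, ⟨hm, h0, π, hπ⟩, ha⟩ := G
  set τ := Tuple.sort (key r' ∘ G) with hτ
  have hmono : Monotone (key r' ∘ (G ∘ τ)) := Tuple.monotone_sort (key r' ∘ G)
  refine ⟨⟨hmono, fun j hj => h0 _ hj, ?_⟩, ?_⟩
  · refine ⟨(τ.trans π).trans τ.symm, ?_⟩
    funext j
    have := congrFun hπ (τ j)
    simp only [Function.comp] at this
    simp only [Function.comp, Equiv.trans_apply, Equiv.apply_symm_apply]
    exact this
  · have ma : ∀ (rr : Bool) (G' : Fin n → T), Monotone (key rr ∘ G') →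
        Monotone (fun j => (G' j).1) := by
      intro rr G' h i j hij
      have := h hij
      simp only [Function.comp] at this
      rw [key_le_iff] at this
      rcases this with h | h
      · exact h.le
      · exact h.1.le
    have e := Tuple.unique_monotone (f := fun j => (G j).1) (σ := τ) (τ := Equiv.refl _)
      (ma r' (G ∘ τ) hmono) (ma r G hm)
    intro j
    have e2 := congrFun e j
    simp only [Function.comp, Equiv.refl_apply] at e2
    rw [← ha j]
    exact e2

/-- sort by the other key. -/
noncomputable def resort {n : ℕ} (r r' : Bool) (a : Fin n → ℕ) (G : A r a) : A r' a :=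
  ⟨G.1 ∘ Tuple.sort (key r' ∘ G.1), resort_mem r r' a G⟩

lemma resort_resort {n : ℕ} (r r' : Bool) (a : Fin n → ℕ) (G : A r a) :
    resort r' r a (resort r r' a G) = G := by
  apply Subtype.ext
  show (G.1 ∘ Tuple.sort (key r' ∘ G.1)) ∘ Tuple.sort (key r ∘ (G.1 ∘ Tuple.sort (key r' ∘ G.1)))
    = G.1
  set τ := Tuple.sort (key r' ∘ G.1)
  set τ' := Tuple.sort (key r ∘ (G.1 ∘ τ)) with hτ'
  have h1 : Monotone ((key r ∘ G.1) ∘ (τ'.trans τ)) :=
    Tuple.monotone_sort (key r ∘ (G.1 ∘ τ))
  have h2 : Monotone ((key r ∘ G.1) ∘ (Equiv.refl (Fin n))) := G.2.1.1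
  have e := Tuple.unique_monotone h1 h2
  funext j
  have := congrFun e j
  exact key_inj r this

/-- equinumerosity of the two classes. -/
theorem card_W {n : ℕ} (a : Fin n → ℕ) : Nat.card (W false a) = Nat.card (W true a) := by
  have e1 := Nat.card_congr (Equiv.ofBijective _ (phi_bij false a))
  have e2 := Nat.card_congr (Equiv.ofBijective _ (phi_bij true a))
  rw [e1, e2]
  exact Nat.card_congr ⟨resort false true a, resort true false a, resort_resort false true a,
    resort_resort true false a⟩

/-- the word of a set of positions. -/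
def word {n : ℕ} (S : Finset (Fin n)) (j : Fin n) : ℕ := (S.filter (fun i => i ≤ j)).card

lemma word_step {n : ℕ} (S : Finset (Fin n)) (j : Fin n) :
    word S j = prev (word S) j + (if j ∈ S then 1 else 0) := by
  by_cases hj : j.val = 0
  · simp only [prev, hj, dif_pos, zero_add, word]
    split_ifs with h
    · rw [Finset.card_eq_one]
      refine ⟨j, ?_⟩
      ext i
      simp only [Finset.mem_filter, Finset.mem_singleton]
      constructor
      · rintro ⟨_, hi⟩
        exact Fin.ext (by rw [Fin.le_def] at hi; omega)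
      · rintro rfl
        exact ⟨h, le_refl _⟩
    · rw [Finset.card_eq_zero, Finset.filter_eq_empty_iff]
      intro i hi hij
      have : i = j := Fin.ext (by rw [Fin.le_def] at hij; omega)
      rw [this] at hi
      exact h hi
  · simp only [prev, hj, dif_neg, not_false_eq_true, word]
    have e : S.filter (fun i => i ≤ j) = S.filter (fun i => i ≤ ⟨j.val - 1, by omega⟩) ∪
        S.filter (fun i => i = j) := by
      ext i
      simp only [Finset.mem_filter, Finset.mem_union, Fin.le_def]
      constructor
      · rintro ⟨h1, h2⟩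
        by_cases h3 : i.val = j.val
        · right; exact ⟨h1, Fin.ext h3⟩
        · left; exact ⟨h1, by omega⟩
      · rintro (⟨h1, h2⟩ | ⟨h1, h2⟩)
        · exact ⟨h1, by omega⟩
        · rw [h2] at h1 ⊢
          exact ⟨h1, le_refl _⟩
    rw [e, Finset.card_union_of_disjoint]
    · congr 1
      split_ifs with h
      · rw [Finset.card_eq_one]
        refine ⟨j, ?_⟩
        ext i
        simp only [Finset.mem_filter, Finset.mem_singleton]
        exact ⟨fun h => h.2, fun h' => ⟨by rw [h']; exact h, h'⟩⟩
      · rw [Finset.card_eq_zero, Finset.filter_eq_empty_iff]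
        intro i hi hij
        rw [hij] at hi
        exact h hi
    · rw [Finset.disjoint_left]
      intro i h1 h2
      simp only [Finset.mem_filter, Fin.le_def] at h1 h2
      have := h2.2
      rw [this] at h1
      omega

lemma cmp_word_iff {n : ℕ} (r : Bool) (w : Equiv.Perm (Fin n) × (Fin n → Bool))
    (S : Finset (Fin n)) : Cmp r w (word S) ↔ Des r w ⊆ S := by
  rw [cmp_iff]
  constructor
  · intro h j hj
    have := h j
    rw [word_step, if_pos hj] at this
    by_contra hcon
    rw [if_neg hcon] at this
    omega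
  · intro h j
    rw [word_step S j]
    by_cases hj : j ∈ Des r w
    · rw [if_pos hj, if_pos (h hj)]
    · rw [if_neg hj]; omega

/-- number of signed involutions with descent set contained in `S`. -/
theorem card_subset {n : ℕ} (S : Finset (Fin n)) :
    ((Finset.univ : Finset (Equiv.Perm (Fin n) × (Fin n → Bool))).filter
      (fun w => IsInv w ∧ Des false w ⊆ S)).card =
    ((Finset.univ : Finset (Equiv.Perm (Fin n) × (Fin n → Bool))).filter
      (fun w => IsInv w ∧ Des true w ⊆ S)).card := by
  have := card_W (word S)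
  rw [Nat.card_eq_fintype_card, Nat.card_eq_fintype_card, Fintype.card_subtype,
    Fintype.card_subtype] at this
  simpa only [cmp_word_iff] using this

/-- equidistribution of descent sets. -/
theorem card_eq {n : ℕ} (S : Finset (Fin n)) :
    ((Finset.univ : Finset (Equiv.Perm (Fin n) × (Fin n → Bool))).filter
      (fun w => IsInv w ∧ Des false w = S)).card =
    ((Finset.univ : Finset (Equiv.Perm (Fin n) × (Fin n → Bool))).filter
      (fun w => IsInv w ∧ Des true w = S)).card := by
  induction S using Finset.strongInduction with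
  | H S ih =>
    have key : ∀ r : Bool, ((Finset.univ : Finset (Equiv.Perm (Fin n) × (Fin n → Bool))).filter
        (fun w => IsInv w ∧ Des r w ⊆ S)).card = ∑ R ∈ S.powerset,
        ((Finset.univ : Finset (Equiv.Perm (Fin n) × (Fin n → Bool))).filter
          (fun w => IsInv w ∧ Des r w = R)).card := by
      intro r
      rw [← Finset.card_biUnion]
      · congr 1
        ext w
        simp only [Finset.mem_filter, Finset.mem_univ, true_and, Finset.mem_biUnion,
          Finset.mem_powerset]
        constructor
        · rintro ⟨h1, h2⟩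
          exact ⟨_, h2, h1, rfl⟩
        · rintro ⟨R, h1, h2, h3⟩
          exact ⟨h2, h3 ▸ h1⟩
      · intro R _ R' _ hne
        rw [Function.onFun, Finset.disjoint_left]
        intro w h1 h2
        simp only [Finset.mem_filter, Finset.mem_univ, true_and] at h1 h2
        exact hne (h1.2.symm.trans h2.2)
    have h := card_subset S
    rw [key false, key true] at h
    have hS : S ∈ S.powerset := Finset.mem_powerset_self S
    rw [← Finset.add_sum_erase _ _ hS, ← Finset.add_sum_erase _ _ hS] at h
    have h2 : ∑ x ∈ S.powerset.erase S, ((Finset.univ : Finset (Equiv.Perm (Fin n) ×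
        (Fin n → Bool))).filter (fun w => IsInv w ∧ Des false w = x)).card =
        ∑ x ∈ S.powerset.erase S, ((Finset.univ : Finset (Equiv.Perm (Fin n) ×
        (Fin n → Bool))).filter (fun w => IsInv w ∧ Des true w = x)).card := by
      apply Finset.sum_congr rfl
      intro R hR
      rw [Finset.mem_erase, Finset.mem_powerset] at hR
      exact ih R (Finset.ssubset_iff_subset_ne.mpr ⟨hR.2, hR.1⟩)
    rw [h2] at h
    exact Nat.add_right_cancel h

end Pool.Agent.R136.Inv
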