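import Mathlib

set_option autoImplicit false

/-!
Generating function identities for descents on signed involutions: the coefficients of
`(1-X)^(-p) (1-X^2)^(-q)` and the basis `X^k (1+X)^(N-2k) (1-X)^(-(N+1))`.
-/

namespace Pool.Agent.R136.InvGF

open PowerSeries

/-- `1/(1-X)`. -/
noncomputable def gg : ℚ⟦X⟧ := PowerSeries.mk (fun _ => 1)

/-- `1/(1-X^2)`. -/
noncomputable def hh : ℚ⟦X⟧ := PowerSeries.mk (fun k => if Even k then 1 else 0)

lemma coeff_gg (k : ℕ) : coeff k gg = 1 := by simp [gg]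

lemma coeff_hh (k : ℕ) : coeff k hh = if Even k then 1 else 0 := by simp [hh]

lemma gg_mul : gg * (1 - X) = 1 := by
  ext k
  rw [mul_sub, mul_one, map_sub]
  cases k with
  | zero => simp [coeff_gg]
  | succ k => simp [coeff_succ_mul_X, coeff_gg, coeff_one]

lemma hh_mul : hh * (1 - X ^ 2) = 1 := by
  ext k
  rw [mul_sub, mul_one, map_sub, coeff_mul_X_pow', coeff_one, coeff_hh]
  rcases k with _ | _ | k
  · simp
  · simp
  · have h2 : 2 ≤ k + 1 + 1 := by omega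
    have h3 : k + 1 + 1 - 2 = k := by omega
    have h4 : ¬ (k + 1 + 1 = 0) := by omega
    rw [if_pos h2, coeff_hh, h3, if_neg h4]
    have : Even (k + 1 + 1) ↔ Even k := by
      rw [add_assoc, Nat.even_add]; simp
    simp only [this, sub_self]

lemma D_gg : d⁄dX ℚ gg = gg ^ 2 := by
  have h := congrArg (d⁄dX ℚ) gg_mul
  rw [Derivation.leibniz, map_sub, derivative_X] at h
  simp only [smul_eq_mul, Derivation.map_one_eq_zero, zero_sub] at h
  linear_combination gg * h - (d⁄dX ℚ gg) * gg_mul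

lemma D_hh : d⁄dX ℚ hh = 2 * X * hh ^ 2 := by
  have h := congrArg (d⁄dX ℚ) hh_mul
  rw [Derivation.leibniz, map_sub, derivative_pow, derivative_X] at h
  simp only [smul_eq_mul, Derivation.map_one_eq_zero, zero_sub] at h
  push_cast at h
  have h' : (X : ℚ⟦X⟧) ^ (2 - 1) = X := by simp
  rw [h'] at h
  linear_combination hh * h - (d⁄dX ℚ hh) * hh_mul

/-- the coefficients. -/
noncomputable def cc (p q n : ℕ) : ℚ := coeff n (gg ^ p * hh ^ q)

lemma D_pow_gg (p : ℕ) : d⁄dX ℚ (gg ^ p) = (p : ℚ⟦X⟧) * gg ^ (p + 1) := by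
  rw [derivative_pow, D_gg]
  rcases p with _ | p
  · simp
  · rw [show p + 1 - 1 = p by omega]; ring

lemma D_pow_hh (q : ℕ) : d⁄dX ℚ (hh ^ q) = (q : ℚ⟦X⟧) * (2 * X * hh ^ (q + 1)) := by
  rw [derivative_pow, D_hh]
  rcases q with _ | q
  · simp
  · rw [show q + 1 - 1 = q by omega]; ring

lemma D_main (p q : ℕ) : (1 - X ^ 2) * d⁄dX ℚ (gg ^ p * hh ^ q) =
    ((p : ℚ⟦X⟧) * (1 + X) + 2 * (q : ℚ⟦X⟧) * X) * (gg ^ p * hh ^ q) := by
  rw [Derivation.leibniz, D_pow_gg, D_pow_hh]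
  simp only [smul_eq_mul]
  linear_combination (p : ℚ⟦X⟧) * gg ^ p * hh ^ q * (1 + X) * gg_mul +
    2 * (q : ℚ⟦X⟧) * X * gg ^ p * hh ^ q * hh_mul

lemma cc_zero (p q : ℕ) : cc p q 0 = 1 := by
  unfold cc
  simp only [coeff_zero_eq_constantCoeff, map_mul, map_pow]
  have h1 : constantCoeff gg = 1 := by
    rw [← coeff_zero_eq_constantCoeff_apply, coeff_gg]
  have h2 : constantCoeff hh = 1 := by
    rw [← coeff_zero_eq_constantCoeff_apply, coeff_hh]; simp
  rw [h1, h2]; simp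

lemma natCast_mul_coeff (m : ℕ) (f : ℚ⟦X⟧) (k : ℕ) :
    coeff k ((m : ℚ⟦X⟧) * f) = m * coeff k f := by
  have : (m : ℚ⟦X⟧) = C (m : ℚ) := by simp
  rw [this, coeff_C_mul]

lemma cc_one (p q : ℕ) : cc p q 1 = p := by
  have h := congrArg (coeff 0) (D_main p q)
  have e1 : (1 - X ^ 2) * d⁄dX ℚ (gg ^ p * hh ^ q) = d⁄dX ℚ (gg ^ p * hh ^ q) -
    X ^ 2 * d⁄dX ℚ (gg ^ p * hh ^ q) := by ring
  have e2 : ((p : ℚ⟦X⟧) * (1 + X) + 2 * (q : ℚ⟦X⟧) * X) * (gg ^ p * hh ^ q) =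
    (p : ℚ⟦X⟧) * (gg ^ p * hh ^ q) + X * (((p + 2 * q : ℕ) : ℚ⟦X⟧) * (gg ^ p * hh ^ q)) := by
    push_cast; ring
  rw [e1, e2, map_sub, map_add, coeff_derivative, coeff_X_pow_mul', if_neg (by norm_num),
    natCast_mul_coeff, coeff_zero_X_mul] at h
  have h0 := cc_zero p q
  unfold cc at h0 ⊢
  rw [h0] at h
  push_cast at h
  linarith

lemma cc_rec (p q n : ℕ) : ((n : ℚ) + 2) * cc p q (n + 2) =
    p * cc p q (n + 1) + ((p : ℚ) + 2 * q + n) * cc p q n := by
  have h := congrArg (coeff (n + 1)) (D_main p q)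
  have e1 : (1 - X ^ 2) * d⁄dX ℚ (gg ^ p * hh ^ q) = d⁄dX ℚ (gg ^ p * hh ^ q) -
    X ^ 2 * d⁄dX ℚ (gg ^ p * hh ^ q) := by ring
  have e2 : ((p : ℚ⟦X⟧) * (1 + X) + 2 * (q : ℚ⟦X⟧) * X) * (gg ^ p * hh ^ q) =
    (p : ℚ⟦X⟧) * (gg ^ p * hh ^ q) + X * (((p + 2 * q : ℕ) : ℚ⟦X⟧) * (gg ^ p * hh ^ q)) := by
    push_cast; ring
  rw [e1, e2, map_sub, map_add, coeff_derivative, coeff_X_pow_mul',
    natCast_mul_coeff, coeff_succ_X_mul, natCast_mul_coeff] at h
  change coeff (n + 1 + 1) (gg ^ p * hh ^ q) * _ - _ = _ at h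
  have h3 : (if 2 ≤ n + 1 then (coeff (n + 1 - 2)) (d⁄dX ℚ (gg ^ p * hh ^ q)) else 0) =
      (n : ℚ) * cc p q n := by
    rcases n with _ | n
    · simp
    · rw [if_pos (by omega), show n + 1 + 1 - 2 = n by omega, coeff_derivative]
      unfold cc
      push_cast
      ring
  rw [h3] at h
  unfold cc at h ⊢
  push_cast at h
  linear_combination h

/-! ### The operator `2 θ + 1` -/

/-- `2 X d/dX + 1`. -/
noncomputable def LL (f : ℚ⟦X⟧) : ℚ⟦X⟧ := 2 * X * d⁄dX ℚ f + f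

lemma coeff_LL (f : ℚ⟦X⟧) (m : ℕ) : coeff m (LL f) = (2 * (m : ℚ) + 1) * coeff m f := by
  have e : LL f = ((2 : ℕ) : ℚ⟦X⟧) * (X * d⁄dX ℚ f) + f := by
    unfold LL; push_cast; ring
  rw [e, map_add, natCast_mul_coeff]
  rcases m with _ | m
  · rw [coeff_zero_X_mul]; simp
  · rw [coeff_succ_X_mul, coeff_derivative]; push_cast; ring

lemma LL_add (f g : ℚ⟦X⟧) : LL (f + g) = LL f + LL g := by
  unfold LL; rw [map_add]; ring

lemma LL_C_mul (c : ℚ) (f : ℚ⟦X⟧) : LL (C c * f) = C c * LL f := by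
  ext m
  rw [coeff_LL, coeff_C_mul, coeff_C_mul, coeff_LL]; ring

lemma LL_sum {ι : Type*} (s : Finset ι) (f : ι → ℚ⟦X⟧) :
    LL (∑ i ∈ s, f i) = ∑ i ∈ s, LL (f i) := by
  ext m
  rw [coeff_LL, map_sum, map_sum, Finset.mul_sum]
  exact Finset.sum_congr rfl fun i _ => (coeff_LL _ _).symm

/-- the basis. -/
noncomputable def UU (N k : ℕ) : ℚ⟦X⟧ := X ^ k * (1 + X) ^ (N - 2 * k) * gg ^ (N + 1)

lemma UU_step (N k : ℕ) (h : 2 * k ≤ N) :
    UU N k = UU (N + 2) k - 4 * UU (N + 2) (k + 1) := by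
  obtain ⟨a, rfl⟩ := Nat.exists_eq_add_of_le h
  unfold UU
  rw [show 2 * k + a - 2 * k = a by omega, show 2 * k + a + 2 - 2 * k = a + 2 by omega,
    show 2 * k + a + 2 - 2 * (k + 1) = a by omega]
  linear_combination (-(X ^ k * (1 + X) ^ a * gg ^ (2 * k + a + 1))) * (gg * (1 - X) + 1) * gg_mul

lemma D_one_add_X_pow (a : ℕ) : d⁄dX ℚ ((1 + X : ℚ⟦X⟧) ^ a) = (a : ℚ⟦X⟧) * (1 + X) ^ (a - 1) := by
  rw [derivative_pow, map_add, derivative_X, Derivation.map_one_eq_zero]; ring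

lemma X_mul_D_X_pow (k : ℕ) : (X : ℚ⟦X⟧) * d⁄dX ℚ ((X : ℚ⟦X⟧) ^ k) = (k : ℚ⟦X⟧) * X ^ k := by
  rw [derivative_pow, derivative_X]
  rcases k with _ | k
  · simp
  · rw [show k + 1 - 1 = k by omega]; ring

lemma LL_UU (N k : ℕ) (h : 2 * k ≤ N) :
    LL (UU N k) = C (2 * (k : ℚ) + 1) * UU (N + 1) k +
      C (4 * ((N : ℚ) - 2 * k)) * UU (N + 1) (k + 1) := by
  obtain ⟨a, rfl⟩ := Nat.exists_eq_add_of_le h
  unfold LL UU
  rw [Derivation.leibniz, Derivation.leibniz, D_pow_gg, D_one_add_X_pow]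
  simp only [smul_eq_mul]
  rw [show 2 * k + a - 2 * k = a by omega, show 2 * k + a + 1 - 2 * k = a + 1 by omega,
    show 2 * k + a + 1 - 2 * (k + 1) = a - 1 by omega]
  have c1 : (C (2 * (k : ℚ) + 1) : ℚ⟦X⟧) = 2 * (k : ℚ⟦X⟧) + 1 := by
    rw [map_add, map_mul, map_ofNat, map_natCast, map_one]
  have c2 : (C (4 * (((2 * k + a : ℕ) : ℚ) - 2 * k)) : ℚ⟦X⟧) = 4 * (a : ℚ⟦X⟧) := by
    have : (4 * (((2 * k + a : ℕ) : ℚ) - 2 * k)) = 4 * (a : ℚ) := by push_cast; ring
    rw [this, map_mul, map_ofNat, map_natCast]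
  rw [c1, c2]
  have hX := X_mul_D_X_pow k
  push_cast
  rcases a with _ | a
  · simp only [Nat.cast_zero, pow_zero, zero_mul, mul_zero, add_zero, mul_one, zero_add, pow_one]
    linear_combination 2 * gg ^ (2 * k + 1) * hX -
      ((2 * (k : ℚ⟦X⟧) + 1) * X ^ k * gg ^ (2 * k + 1)) * gg_mul
  · rw [show a + 1 - 1 = a by omega]
    push_cast
    linear_combination 2 * (1 + X) ^ (a + 1) * gg ^ (2 * k + (a + 1) + 1) * hX -
      ((2 * (k : ℚ⟦X⟧) + 1) * X ^ k * (1 + X) ^ (a + 1) * gg ^ (2 * k + (a + 1) + 1) +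
        2 * ((a : ℚ⟦X⟧) + 1) * X ^ (k + 1) * (1 + X) ^ a * gg ^ (2 * k + (a + 1) + 1)) * gg_mul

/-! ### Sums in the basis -/

/-- shift. -/
def sh (e : ℕ → ℚ) : ℕ → ℚ
  | 0 => 0
  | k + 1 => e k

/-- coefficients of `(2θ+1)` applied to a combination of the `U(N,k)`. -/
def op1 (N : ℕ) (e : ℕ → ℚ) (k : ℕ) : ℚ :=
  (2 * k + 1) * e k + sh (fun j => 4 * ((N : ℚ) - 2 * j) * e j) k

/-- coefficients for passing from `N` to `N+2`. -/
def op0 (e : ℕ → ℚ) (k : ℕ) : ℚ := e k - 4 * sh e k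

/-- combination of the basis. -/
noncomputable def SS (N : ℕ) (e : ℕ → ℚ) : ℚ⟦X⟧ := ∑ k ∈ Finset.range (N + 1), C (e k) * UU N k

/-- support condition. -/
def Supp (N : ℕ) (e : ℕ → ℚ) : Prop := ∀ k, N < 2 * k → e k = 0

lemma sum_shift (N K : ℕ) (e : ℕ → ℚ) :
    ∑ k ∈ Finset.range K, C (e k) * UU N (k + 1) =
      ∑ k ∈ Finset.range (K + 1), C (sh e k) * UU N k := by
  rw [Finset.sum_range_succ']
  simp [sh]

lemma LL_SS (N : ℕ) (e : ℕ → ℚ) (he : Supp N e) : LL (SS N e) = SS (N + 1) (op1 N e) := by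
  have h1 : LL (SS N e) = ∑ k ∈ Finset.range (N + 1), C ((2 * (k : ℚ) + 1) * e k) * UU (N + 1) k +
      ∑ k ∈ Finset.range (N + 1), C (4 * ((N : ℚ) - 2 * k) * e k) * UU (N + 1) (k + 1) := by
    unfold SS
    rw [LL_sum, ← Finset.sum_add_distrib]
    apply Finset.sum_congr rfl
    intro k _
    rw [LL_C_mul]
    by_cases hk : 2 * k ≤ N
    · rw [LL_UU N k hk, map_mul C (2 * (k : ℚ) + 1), map_mul C (4 * ((N : ℚ) - 2 * k))]
      ring
    · rw [he k (by omega)]
      simp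
  rw [h1, sum_shift (N + 1) (N + 1) (fun k => 4 * ((N : ℚ) - 2 * k) * e k)]
  unfold SS
  have h2 : ∑ k ∈ Finset.range (N + 1), C ((2 * (k : ℚ) + 1) * e k) * UU (N + 1) k =
      ∑ k ∈ Finset.range (N + 1 + 1), C ((2 * (k : ℚ) + 1) * e k) * UU (N + 1) k := by
    rw [Finset.sum_range_succ _ (N + 1), he (N + 1) (by omega)]
    simp
  rw [h2, ← Finset.sum_add_distrib]
  apply Finset.sum_congr rfl
  intro k _
  unfold op1
  rw [map_add]
  ring

lemma SS_step (N : ℕ) (e : ℕ → ℚ) (he : Supp N e) : SS N e = SS (N + 2) (op0 e) := by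
  have h1 : SS N e = ∑ k ∈ Finset.range (N + 1), C (e k) * UU (N + 2) k -
      ∑ k ∈ Finset.range (N + 1), C (4 * e k) * UU (N + 2) (k + 1) := by
    unfold SS
    rw [← Finset.sum_sub_distrib]
    apply Finset.sum_congr rfl
    intro k _
    by_cases hk : 2 * k ≤ N
    · rw [UU_step N k hk, map_mul, map_ofNat]; ring
    · rw [he k (by omega)]; simp
  rw [h1, sum_shift (N + 2) (N + 1) (fun k => 4 * e k)]
  unfold SS
  have h2 : ∑ k ∈ Finset.range (N + 1), C (e k) * UU (N + 2) k =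
      ∑ k ∈ Finset.range (N + 2 + 1), C (e k) * UU (N + 2) k := by
    rw [Finset.sum_range_succ _ (N + 2), Finset.sum_range_succ _ (N + 1), he (N + 1) (by omega),
      he (N + 2) (by omega)]
    simp
  have h3 : ∑ k ∈ Finset.range (N + 1 + 1), C (sh (fun k => 4 * e k) k) * UU (N + 2) k =
      ∑ k ∈ Finset.range (N + 2 + 1), C (sh (fun k => 4 * e k) k) * UU (N + 2) k := by
    rw [Finset.sum_range_succ _ (N + 2)]
    have : sh (fun k => 4 * e k) (N + 2) = 0 := by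
      simp only [sh]
      rw [he (N + 1) (by omega)]; ring
    rw [this]; simp
  rw [h2, h3, ← Finset.sum_sub_distrib]
  apply Finset.sum_congr rfl
  intro k _
  unfold op0
  have : sh (fun k => 4 * e k) k = 4 * sh e k := by
    rcases k with _ | k <;> simp [sh]
  rw [this, map_sub]
  ring

lemma supp_op1 (N : ℕ) (e : ℕ → ℚ) (he : Supp N e) : Supp (N + 1) (op1 N e) := by
  intro k hk
  unfold op1
  rw [he k (by omega)]
  rcases k with _ | k
  · omega
  · simp only [sh]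
    rcases Nat.lt_or_ge N (2 * k) with h | h
    · rw [he k h]; ring
    · have : N = 2 * k := by omega
      rw [this]; push_cast; ring

lemma supp_op0 (N : ℕ) (e : ℕ → ℚ) (he : Supp N e) : Supp (N + 2) (op0 e) := by
  intro k hk
  unfold op0
  rw [he k (by omega)]
  rcases k with _ | k
  · omega
  · simp only [sh]
    rw [he k (by omega)]; ring

/-- the expansion coefficients. -/
noncomputable def E : ℕ → ℕ → ℚ
  | 0 => fun k => if k = 0 then 1 else 0
  | 1 => fun k => if k = 0 then 1 else 0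
  | n + 2 => fun k => (op1 (n + 1) (E (n + 1)) k + (1 / 2) * op1 (n + 1) (op1 n (E n)) k +
      ((n : ℚ) + 1 / 2) * op0 (E n) k) / ((n : ℚ) + 2)

lemma E_zero : E 0 = fun k => if k = 0 then 1 else 0 := by unfold E; rfl
lemma E_one : E 1 = fun k => if k = 0 then 1 else 0 := by unfold E; rfl
lemma E_add_two (n : ℕ) : E (n + 2) = fun k => (op1 (n + 1) (E (n + 1)) k +
    (1 / 2) * op1 (n + 1) (op1 n (E n)) k + ((n : ℚ) + 1 / 2) * op0 (E n) k) / ((n : ℚ) + 2) := by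
  rw [E]

lemma supp_E : ∀ n, Supp n (E n) ∧ Supp (n + 1) (E (n + 1)) := by
  intro n
  induction n with
  | zero =>
    constructor
    · intro k hk; rw [E_zero]; simp; omega
    · intro k hk; rw [E_one]; simp; omega
  | succ n ih =>
    refine ⟨ih.2, ?_⟩
    intro k hk
    rw [E_add_two]
    simp only
    rw [supp_op1 (n + 1) _ ih.2 k hk, supp_op1 (n + 1) _ (supp_op1 n _ ih.1) k hk,
      supp_op0 n _ ih.1 k hk]
    ring

/-- the series. -/
noncomputable def GG (n : ℕ) : ℚ⟦X⟧ := SS n (E n)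

lemma SS_add (N : ℕ) (e f : ℕ → ℚ) : SS N (fun k => e k + f k) = SS N e + SS N f := by
  unfold SS
  rw [← Finset.sum_add_distrib]
  apply Finset.sum_congr rfl
  intro k _
  rw [map_add]; ring

lemma SS_mul (N : ℕ) (c : ℚ) (e : ℕ → ℚ) : SS N (fun k => c * e k) = C c * SS N e := by
  unfold SS
  rw [Finset.mul_sum]
  apply Finset.sum_congr rfl
  intro k _
  rw [map_mul]; ring

lemma GG_rec (n : ℕ) : C ((n : ℚ) + 2) * GG (n + 2) = LL (GG (n + 1)) +
    C (1 / 2) * LL (LL (GG n)) + C ((n : ℚ) + 1 / 2) * GG n := by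
  have hs := supp_E n
  have h1 : LL (GG (n + 1)) = SS (n + 2) (op1 (n + 1) (E (n + 1))) := LL_SS _ _ hs.2
  have h2 : LL (LL (GG n)) = SS (n + 2) (op1 (n + 1) (op1 n (E n))) := by
    unfold GG
    rw [LL_SS _ _ hs.1, LL_SS _ _ (supp_op1 n _ hs.1)]
  have h3 : GG n = SS (n + 2) (op0 (E n)) := SS_step _ _ hs.1
  rw [h1, h2, h3, ← SS_mul, ← SS_mul, ← SS_add, ← SS_add]
  unfold GG
  rw [← SS_mul, E_add_two]
  congr 1
  funext k
  have : (n : ℚ) + 2 ≠ 0 := by positivity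
  field_simp

lemma GG_coeff (n m : ℕ) : coeff m (GG n) = cc (2 * m + 1) (m ^ 2) n ∧
    coeff m (GG (n + 1)) = cc (2 * m + 1) (m ^ 2) (n + 1) := by
  induction n with
  | zero =>
    constructor
    · rw [cc_zero]
      unfold GG SS
      simp [E_zero, UU, coeff_gg]
    · rw [cc_one]
      unfold GG SS
      have e1 : ∑ k ∈ Finset.range (0 + 1 + 1), C (E (0 + 1) k) * UU (0 + 1) k =
          (1 + X) * gg ^ 2 := by
        rw [Finset.sum_range_succ, Finset.sum_range_one]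
        simp [E_one, UU]
      have e2 : (1 + X) * gg ^ 2 = 2 * gg ^ 2 - gg := by
        linear_combination (-gg) * gg_mul
      have e3 : 2 * gg ^ 2 - gg = LL gg := by
        unfold LL
        rw [D_gg]
        linear_combination (2 * gg) * gg_mul
      rw [e1, e2, e3, coeff_LL, coeff_gg]
      push_cast
      ring
  | succ n ih =>
    refine ⟨ih.2, ?_⟩
    have h := congrArg (coeff m) (GG_rec n)
    rw [coeff_C_mul, LinearMap.map_add, LinearMap.map_add, coeff_C_mul, coeff_C_mul, coeff_LL,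
      coeff_LL, coeff_LL, ih.1, ih.2] at h
    have h2 := cc_rec (2 * m + 1) (m ^ 2) n
    push_cast at h2
    have h3 : ((n : ℚ) + 2) * coeff m (GG (n + 2)) =
        ((n : ℚ) + 2) * cc (2 * m + 1) (m ^ 2) (n + 2) := by
      rw [h, h2]; ring
    have : (n : ℚ) + 2 ≠ 0 := by positivity
    exact mul_left_cancel₀ this h3

/-! ### Positivity -/

lemma E_rec_zero (n : ℕ) : ((n : ℚ) + 2) * E (n + 2) 0 = E (n + 1) 0 + ((n : ℚ) + 1) * E n 0 := by
  rw [E_add_two]
  simp only [op1, op0, sh]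
  have : (n : ℚ) + 2 ≠ 0 := by positivity
  field_simp
  push_cast
  ring

lemma sh_succ (e : ℕ → ℚ) (k : ℕ) : sh e (k + 1) = e k := rfl

lemma E_rec_succ (n k : ℕ) : ((n : ℚ) + 2) * E (n + 2) (k + 1) =
    (2 * (k : ℚ) + 3) * E (n + 1) (k + 1) + 4 * ((n : ℚ) + 1 - 2 * k) * E (n + 1) k +
    ((2 * (k : ℚ) + 3) ^ 2 / 2 + n + 1 / 2) * E n (k + 1) +
    4 * ((2 * (k : ℚ) + 1) * ((n : ℚ) - 2 * k) - k) * E n k +
    8 * ((n : ℚ) + 2 - 2 * k) * ((n : ℚ) + 1 - 2 * k) * sh (E n) k := by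
  rw [E_add_two]
  simp only [op1, op0, sh_succ]
  have : (n : ℚ) + 2 ≠ 0 := by positivity
  have h2 : sh (fun j => 4 * ((n : ℚ) - 2 * (j : ℚ)) * E n j) k =
      4 * ((n : ℚ) + 2 - 2 * k) * sh (E n) k := by
    rcases k with _ | k
    · simp [sh]
    · simp only [sh]; push_cast; ring
  rw [h2]
  field_simp
  push_cast
  ring

lemma sh_nonneg (e : ℕ → ℚ) (h : ∀ k, 0 ≤ e k) (k : ℕ) : 0 ≤ sh e k := by
  rcases k with _ | k
  · exact le_refl _
  · exact h k

lemma E_zero_zero : E 0 0 = 1 := by rw [E_zero]; rfl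
lemma E_one_zero : E 1 0 = 1 := by rw [E_one]; rfl

lemma E_R (k : ℕ) (h1 : ∀ i ≤ 2 * k, ∀ j, 0 ≤ E i j) : E (2 * k) k ≤ E (2 * k + 1) k := by
  rcases k with _ | j
  · show E 0 0 ≤ E 1 0
    rw [E_zero_zero, E_one_zero]
  · have e := E_rec_succ (2 * j + 1) j
    have p1 := h1 (2 * (j + 1)) (by omega) (j + 1)
    have p2 := h1 (2 * (j + 1)) (by omega) j
    have p3 := h1 (2 * j + 1) (by omega) (j + 1)
    have p4 := h1 (2 * j + 1) (by omega) j
    have p5 := sh_nonneg (E (2 * j + 1)) (h1 (2 * j + 1) (by omega)) j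
    have a1 : 2 * j + 1 + 1 = 2 * (j + 1) := by ring
    have a2 : 2 * j + 1 + 2 = 2 * (j + 1) + 1 := by ring
    rw [a1, a2] at e
    have hj : (0 : ℚ) ≤ j := Nat.cast_nonneg j
    push_cast at e
    have q1 := mul_nonneg hj p2
    have q3 : 0 ≤ ((2 * (j : ℚ) + 3) ^ 2 / 2 + (2 * j + 1) + 1 / 2) * E (2 * j + 1) (j + 1) :=
      mul_nonneg (by positivity) p3
    have q4 : 0 ≤ ((j : ℚ) + 1) * E (2 * j + 1) j := mul_nonneg (by positivity) p4
    have key : 0 ≤ (2 * (j : ℚ) + 3) * (E (2 * (j + 1) + 1) (j + 1) - E (2 * (j + 1)) (j + 1)) := by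
      have : (2 * (j : ℚ) + 3) * (E (2 * (j + 1) + 1) (j + 1) - E (2 * (j + 1)) (j + 1)) =
          8 * E (2 * (j + 1)) j +
          ((2 * (j : ℚ) + 3) ^ 2 / 2 + (2 * j + 1) + 1 / 2) * E (2 * j + 1) (j + 1) +
          4 * (((j : ℚ) + 1) * E (2 * j + 1) j) + 48 * sh (E (2 * j + 1)) j := by
        linear_combination e
      rw [this]
      positivity
    have hpos : (0 : ℚ) < 2 * (j : ℚ) + 3 := by positivity
    have := nonneg_of_mul_nonneg_right key hpos
    linarith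

lemma E_Q (k : ℕ) (h1 : ∀ i < 2 * k, ∀ j, 0 ≤ E i j) :
    (k : ℚ) * E (2 * k) k ≤ 4 * sh (E (2 * k)) k := by
  rcases k with _ | _ | j
  · simp [sh]
  · have e1 := E_rec_zero 0
    have e2 := E_rec_succ 0 0
    have e3 : E 0 1 = 0 := by rw [E_zero]; rfl
    have e4 : E 1 1 = 0 := by rw [E_one]; rfl
    simp only [zero_add, Nat.cast_zero, sh, E_zero_zero, E_one_zero, e3, e4] at e1 e2
    show ((0 + 1 : ℕ) : ℚ) * E 2 1 ≤ 4 * E 2 0
    push_cast
    linarith
  · have e1 := E_rec_succ (2 * j + 2) (j + 1)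
    have e2 := E_rec_succ (2 * j + 2) j
    have s1 : E (2 * j + 2 + 1) (j + 1 + 1) = 0 := (supp_E _).1 _ (by omega)
    have s2 : E (2 * j + 2) (j + 1 + 1) = 0 := (supp_E _).1 _ (by omega)
    rw [s1, s2, sh_succ] at e1
    have p1 := h1 (2 * j + 2 + 1) (by omega) (j + 1)
    have p2 := h1 (2 * j + 2 + 1) (by omega) j
    have p3 := h1 (2 * j + 2) (by omega) (j + 1)
    have p4 := h1 (2 * j + 2) (by omega) j
    have p5 := sh_nonneg (E (2 * j + 2)) (h1 (2 * j + 2) (by omega)) j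
    have hj : (0 : ℚ) ≤ j := Nat.cast_nonneg j
    push_cast at e1 e2
    show (((j + 1 + 1 : ℕ) : ℚ)) * E (2 * j + 2 + 2) (j + 1 + 1) ≤ 4 * E (2 * j + 2 + 2) (j + 1)
    push_cast
    have key : 0 ≤ (2 * (j : ℚ) + 2 + 2) * (4 * E (2 * j + 2 + 2) (j + 1) -
        ((j : ℚ) + 1 + 1) * E (2 * j + 2 + 2) (j + 1 + 1)) := by
      have : (2 * (j : ℚ) + 2 + 2) * (4 * E (2 * j + 2 + 2) (j + 1) -
        ((j : ℚ) + 1 + 1) * E (2 * j + 2 + 2) (j + 1 + 1)) =
        (4 * (j : ℚ) + 4) * E (2 * j + 2 + 1) (j + 1) + 48 * E (2 * j + 2 + 1) j +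
        (4 * ((2 * (j : ℚ) + 3) ^ 2 / 2 + (2 * j + 2) + 1 / 2) + 4 * (j + 1) * (j + 2)) *
          E (2 * j + 2) (j + 1) + 32 * (j : ℚ) * E (2 * j + 2) j +
        384 * sh (E (2 * j + 2)) j := by
        linear_combination 4 * e2 - ((j : ℚ) + 2) * e1
      rw [this]
      positivity
    have hpos : (0 : ℚ) < 2 * (j : ℚ) + 2 + 2 := by positivity
    have := nonneg_of_mul_nonneg_right key hpos
    linarith

theorem E_nonneg : ∀ n k, 0 ≤ E n k := by
  intro n
  induction n using Nat.strong_induction_on with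
  | _ n ih =>
    intro k
    rcases n with _ | _ | n
    · rw [E_zero]; positivity
    · rw [E_one]; positivity
    · have hn2 : (0 : ℚ) < (n : ℚ) + 2 := by positivity
      rcases k with _ | k
      · have e := E_rec_zero n
        have p1 := ih (n + 1) (by omega) 0
        have p2 := ih n (by omega) 0
        have key : 0 ≤ ((n : ℚ) + 2) * E (n + 2) 0 := by rw [e]; positivity
        exact nonneg_of_mul_nonneg_right key hn2
      · have e := E_rec_succ n k
        have p1 := ih (n + 1) (by omega) (k + 1)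
        have p2 := ih (n + 1) (by omega) k
        have p3 := ih n (by omega) (k + 1)
        have p4 := ih n (by omega) k
        have p5 := sh_nonneg (E n) (ih n (by omega)) k
        rcases lt_trichotomy n (2 * k) with h | h | h
        · have : E (n + 2) (k + 1) = 0 := (supp_E _).1 _ (by omega)
          exact this.ge
        · subst h
          have s1 : E (2 * k + 1) (k + 1) = 0 := (supp_E _).1 _ (by omega)
          have s2 : E (2 * k) (k + 1) = 0 := (supp_E _).1 _ (by omega)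
          have r1 := E_R k (fun i hi j => ih i (by omega) j)
          have r2 := E_Q k (fun i hi j => ih i (by omega) j)
          rw [s1, s2] at e
          push_cast at e
          have key : 0 ≤ (((2 * k : ℕ) : ℚ) + 2) * E (2 * k + 2) (k + 1) := by
            push_cast
            have : (2 * (k : ℚ) + 2) * E (2 * k + 2) (k + 1) =
                4 * E (2 * k + 1) k - 4 * (k * E (2 * k) k) + 16 * sh (E (2 * k)) k := by
              linear_combination e
            rw [this]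
            nlinarith
          exact nonneg_of_mul_nonneg_right key hn2
        · have hc : (2 * (k : ℚ) + 1) ≤ n := by exact_mod_cast h
          have hk : (0 : ℚ) ≤ k := Nat.cast_nonneg k
          have c1 : 0 ≤ (n : ℚ) + 1 - 2 * k := by linarith
          have c2 : 0 ≤ (2 * (k : ℚ) + 1) * ((n : ℚ) - 2 * k) - k := by nlinarith
          have c3 : 0 ≤ (n : ℚ) + 2 - 2 * k := by linarith
          have key : 0 ≤ ((n : ℚ) + 2) * E (n + 2) (k + 1) := by
            rw [e]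
            positivity
          exact nonneg_of_mul_nonneg_right key hn2

end Pool.Agent.R136.InvGF
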