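import Pool.Agent.R136.Inv2
import Pool.Agent.R136.InvGF

set_option autoImplicit false

namespace Pool.Agent.R136.Inv

open PowerSeries Pool.Agent.R136.InvGF

/-- words compatible with a set of positions. -/
def Comp {n : ℕ} (D : Finset (Fin n)) (a : Fin n → ℕ) : Prop :=
  ∀ j : Fin n, prev a j + (if j ∈ D then 1 else 0) ≤ a j

instance {n : ℕ} (D : Finset (Fin n)) (a : Fin n → ℕ) : Decidable (Comp D a) := by
  unfold Comp; infer_instance

/-- words with entries at most `m`. -/
def box (n m : ℕ) : Finset (Fin n → ℕ) := Fintype.piFinset (fun _ : Fin n => Finset.range (m + 1))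

lemma mem_box {n m : ℕ} (a : Fin n → ℕ) : a ∈ box n m ↔ ∀ j, a j ≤ m := by
  simp [box, Fintype.mem_piFinset]

/-- the number of compatible words with entries at most `m`. -/
def cnt {n : ℕ} (D : Finset (Fin n)) (m : ℕ) : ℕ := ((box n m).filter (fun a => Comp D a)).card

/-- last entry. -/
def top {n : ℕ} (a : Fin n → ℕ) : ℕ := if h : n = 0 then 0 else a ⟨n - 1, by omega⟩

lemma le_top {n : ℕ} (D : Finset (Fin n)) (a : Fin n → ℕ) (h : Comp D a) (j : Fin n) :
    a j ≤ top a := by
  have hn : ¬ n = 0 := by have := j.isLt; omega
  unfold top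
  rw [dif_neg hn]
  have key : ∀ (d i : ℕ) (hi : i < n) (hd : i + d < n), a ⟨i, hi⟩ ≤ a ⟨i + d, hd⟩ := by
    intro d
    induction d with
    | zero => intro i hi hd; exact le_refl _
    | succ d ih =>
      intro i hi hd
      refine (ih i hi (by omega)).trans ?_
      have h1 := h ⟨i + (d + 1), hd⟩
      have h2 : prev a ⟨i + (d + 1), hd⟩ = a ⟨i + d, by omega⟩ := by
        unfold prev
        rw [dif_neg (by simp)]
        congr 1
      rw [h2] at h1
      omega
  have := key (n - 1 - j.val) j.val j.isLt (by omega)
  refine this.trans (le_of_eq ?_)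
  congr 1
  apply Fin.ext
  simp only
  omega

lemma box_iff {n : ℕ} (D : Finset (Fin n)) (a : Fin n → ℕ) (h : Comp D a) (m : ℕ) :
    a ∈ box n m ↔ top a ≤ m := by
  rw [mem_box]
  constructor
  · intro h1
    unfold top
    split_ifs
    · omega
    · exact h1 _
  · intro h1 j
    exact (le_top D a h j).trans h1

lemma prev_castSucc {n : ℕ} (a : Fin (n + 1) → ℕ) (j : Fin n) :
    prev a j.castSucc = prev (fun i : Fin n => a i.castSucc) j := by
  unfold prev
  simp only [Fin.val_castSucc]
  rfl

lemma prev_last {n : ℕ} (a : Fin (n + 1) → ℕ) :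
    prev a (Fin.last n) = top (fun i : Fin n => a i.castSucc) := by
  unfold prev top
  simp only [Fin.val_last]
  rfl

/-- restriction of the set of positions. -/
def res {n : ℕ} (D : Finset (Fin (n + 1))) : Finset (Fin n) :=
  Finset.univ.filter (fun i => i.castSucc ∈ D)

lemma comp_succ {n : ℕ} (D : Finset (Fin (n + 1))) (a : Fin (n + 1) → ℕ) :
    Comp D a ↔ Comp (res D) (fun i : Fin n => a i.castSucc) ∧
      top (fun i : Fin n => a i.castSucc) + (if Fin.last n ∈ D then 1 else 0) ≤ a (Fin.last n) := by
  unfold Comp
  rw [Fin.forall_fin_succ']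
  rw [prev_last]
  refine and_congr ?_ Iff.rfl
  apply forall_congr'
  intro j
  rw [prev_castSucc]
  simp [res]

lemma card_res {n : ℕ} (D : Finset (Fin (n + 1))) :
    D.card = (res D).card + (if Fin.last n ∈ D then 1 else 0) := by
  have h : D = (res D).map Fin.castSuccEmb ∪ (if Fin.last n ∈ D then {Fin.last n} else ∅) := by
    ext i
    simp only [Finset.mem_union, Finset.mem_map, Fin.coe_castSuccEmb]
    refine Fin.lastCases ?_ (fun i => ?_) i
    · constructor
      · intro h; right; rw [if_pos h]; simp
      · rintro (⟨j, _, hj⟩ | h)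
        · exact absurd hj (Fin.castSucc_ne_last j)
        · split_ifs at h with h2
          · exact h2
          · simp at h
    · constructor
      · intro h; left; exact ⟨i, by simp [res, h], rfl⟩
      · rintro (⟨j, hj, hji⟩ | h)
        · rw [← hji]; simpa [res] using hj
        · exfalso
          split_ifs at h with h2
          · rw [Finset.mem_singleton] at h
            exact Fin.castSucc_ne_last i h
          · simp at h
  conv_lhs => rw [h]
  rw [Finset.card_union_of_disjoint, Finset.card_map]
  · congr 1
    split_ifs <;> simp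
  · rw [Finset.disjoint_left]
    intro i h1 h2
    rw [Finset.mem_map] at h1
    obtain ⟨j, _, rfl⟩ := h1
    split_ifs at h2 with h3
    · rw [Finset.mem_singleton] at h2
      exact Fin.castSucc_ne_last j h2
    · simp at h2

lemma cnt_succ {n : ℕ} (D : Finset (Fin (n + 1))) (m : ℕ) :
    cnt D m = ∑ v ∈ Finset.range (m + 1),
      (if (if Fin.last n ∈ D then 1 else 0) ≤ v then
        cnt (res D) (v - (if Fin.last n ∈ D then 1 else 0)) else 0) := by
  unfold cnt
  rw [Finset.card_eq_sum_card_fiberwise (f := fun a => a (Fin.last n)) (t := Finset.range (m + 1))]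
  · apply Finset.sum_congr rfl
    intro v hv
    rw [Finset.mem_range] at hv
    set δ := (if Fin.last n ∈ D then 1 else 0) with hδ
    by_cases hle : δ ≤ v
    · rw [if_pos hle]
      refine Finset.card_bij' (fun a _ => fun i : Fin n => a i.castSucc)
        (fun a' _ => Fin.snoc (α := fun _ => ℕ) a' v) ?_ ?_ ?_ ?_
      · intro a ha
        simp only [Finset.mem_filter] at ha ⊢
        obtain ⟨⟨hb, hc⟩, hl⟩ := ha
        rw [comp_succ] at hc
        refine ⟨?_, hc.1⟩
        rw [box_iff _ _ hc.1]
        have := hc.2
        rw [← hδ] at this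
        omega
      · intro a' ha'
        simp only [Finset.mem_filter] at ha' ⊢
        obtain ⟨hb, hc⟩ := ha'
        rw [box_iff _ _ hc] at hb
        have e1 : (fun i : Fin n => (Fin.snoc (α := fun _ => ℕ) a' v : Fin (n + 1) → ℕ) i.castSucc) =
            a' := by
          funext i; simp
        have e2 : (Fin.snoc (α := fun _ => ℕ) a' v : Fin (n + 1) → ℕ) (Fin.last n) = v := by simp
        have hC : Comp D (Fin.snoc (α := fun _ => ℕ) a' v : Fin (n + 1) → ℕ) := by
          rw [comp_succ, e1, e2]
          refine ⟨hc, ?_⟩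
          rw [← hδ]
          omega
        refine ⟨⟨?_, hC⟩, e2⟩
        rw [box_iff _ _ hC]
        unfold top
        rw [dif_neg (by omega)]
        have : (⟨n + 1 - 1, by omega⟩ : Fin (n + 1)) = Fin.last n := Fin.ext (by simp)
        rw [this, e2]
        omega
      · intro a ha
        simp only [Finset.mem_filter] at ha
        funext i
        refine Fin.lastCases ?_ (fun i => ?_) i
        · simp [ha.2]
        · simp
      · intro a' _
        funext i
        simp
    · rw [if_neg hle, Finset.card_eq_zero]
      apply Finset.eq_empty_of_forall_notMem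
      intro a ha
      simp only [Finset.mem_filter] at ha
      obtain ⟨⟨hb, hc⟩, hl⟩ := ha
      rw [comp_succ] at hc
      have := hc.2
      rw [← hδ] at this
      omega
  · intro a ha
    simp only [Finset.coe_filter, Set.mem_ofPred_eq] at ha
    rw [mem_box] at ha
    have := ha.1 (Fin.last n)
    simp only [Finset.coe_range, Set.mem_Iio]
    omega

theorem cnt_series : ∀ {n : ℕ} (D : Finset (Fin n)),
    (PowerSeries.mk (fun m => (cnt D m : ℚ)) : ℚ⟦X⟧) = X ^ D.card * gg ^ (n + 1) := by
  intro n
  induction n with
  | zero =>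
    intro D
    have hD : D = ∅ := by ext i; exact i.elim0
    subst hD
    ext m
    rw [coeff_mk]
    have : cnt (∅ : Finset (Fin 0)) m = 1 := by
      unfold cnt
      rw [Finset.card_eq_one]
      refine ⟨fun i => i.elim0, ?_⟩
      ext a
      simp only [Finset.mem_filter, Finset.mem_singleton]
      constructor
      · intro _; funext i; exact i.elim0
      · intro _
        exact ⟨(mem_box a).mpr (fun i => i.elim0), fun i => i.elim0⟩
    rw [this]
    simp [coeff_gg]
  | succ n ih =>
    intro D
    have key : (PowerSeries.mk (fun m => (cnt D m : ℚ)) : ℚ⟦X⟧) =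
        gg * (X ^ (if Fin.last n ∈ D then 1 else 0) *
          PowerSeries.mk (fun m => (cnt (res D) m : ℚ))) := by
      ext m
      rw [coeff_mk, coeff_mul, Finset.Nat.sum_antidiagonal_eq_sum_range_succ_mk, cnt_succ]
      simp only [coeff_gg, one_mul]
      rw [← Finset.sum_range_reflect]
      push_cast
      apply Finset.sum_congr rfl
      intro v hv
      rw [Finset.mem_range] at hv
      rw [coeff_X_pow_mul']
      split_ifs <;> simp
    rw [key, ih (res D)]
    conv_rhs => rw [card_res D]
    ring

end Pool.Agent.R136.Inv
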