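import Pool.Agent.R136.InvCount

set_option autoImplicit false

namespace Pool.Agent.R136.Inv

open PowerSeries Pool.Agent.R136.InvGF

/-- fibre sizes. -/
def cOf {n : ℕ} (G : Fin n → T) (t : T) : ℕ := (Finset.univ.filter (fun j => G j = t)).card

lemma fib_perm {n : ℕ} (f g : Fin n → T) (h : ∀ t, cOf f t = cOf g t) :
    ∃ π : Equiv.Perm (Fin n), f ∘ π = g := by
  have hc : ∀ t, Nonempty ({j // g j = t} ≃ {j // f j = t}) := by
    intro t
    refine ⟨Fintype.equivOfCardEq ?_⟩
    rw [Fintype.card_subtype, Fintype.card_subtype]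
    exact (h t).symm
  let e : ∀ t, {j // g j = t} ≃ {j // f j = t} := fun t => (hc t).some
  refine ⟨(Equiv.sigmaFiberEquiv g).symm.trans ((Equiv.sigmaCongrRight e).trans
    (Equiv.sigmaFiberEquiv f)), ?_⟩
  funext j
  simp only [Function.comp, Equiv.trans_apply]
  exact (e (g j) ⟨j, rfl⟩).2

/-- the admissible triples with entries at most `m`. -/
def SS (m : ℕ) : Finset T :=
  ((Finset.range (m + 1)) ×ˢ ((Finset.univ : Finset Bool) ×ˢ (Finset.range (m + 1)))).filter
    (fun t => t.2.1 = true → t.1 ≠ 0 ∧ t.2.2 ≠ 0)

lemma mem_SS (m : ℕ) (t : T) : t ∈ SS m ↔ t.1 ≤ m ∧ t.2.2 ≤ m ∧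
    (t.2.1 = true → t.1 ≠ 0 ∧ t.2.2 ≠ 0) := by
  simp only [SS, Finset.mem_filter, Finset.mem_product, Finset.mem_range, Finset.mem_univ, true_and,
    Nat.lt_succ_iff, and_assoc]

lemma iota_mem_SS (m : ℕ) (t : T) : iota t ∈ SS m ↔ t ∈ SS m := by
  rw [mem_SS, mem_SS]
  simp only [iota]
  tauto

open Classical in
/-- the invariant multisets. -/
noncomputable def CC (n m : ℕ) : Finset (T → ℕ) :=
  (Finset.piAntidiag (SS m) n).filter (fun c => ∀ t, c (iota t) = c t)

open Classical in
/-- the pairs. -/
noncomputable def PP (n m : ℕ) : Finset ((Equiv.Perm (Fin n) × (Fin n → Bool)) × (Fin n → ℕ)) :=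
  ((Finset.univ : Finset (Equiv.Perm (Fin n) × (Fin n → Bool))) ×ˢ box n m).filter
    (fun p => IsInv p.1 ∧ Cmp false p.1 p.2)

lemma cOf_perm {n : ℕ} (G : Fin n → T) (π : Equiv.Perm (Fin n)) (t : T) :
    cOf (G ∘ π) t = cOf G t := by
  unfold cOf
  refine Finset.card_bij (fun j _ => π j) ?_ ?_ ?_
  · intro j hj; simpa using hj
  · intro i _ j _ h; exact π.injective h
  · intro j hj
    refine ⟨π.symm j, by simpa using hj, by simp⟩

lemma cOf_iota {n : ℕ} (G : Fin n → T) (t : T) : cOf (iota ∘ G) t = cOf G (iota t) := by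
  unfold cOf
  congr 1
  ext j
  simp only [Finset.mem_filter, Finset.mem_univ, true_and, Function.comp]
  constructor
  · intro h; rw [← h, iota_iota]
  · intro h; rw [h, iota_iota]

lemma exists_word {n m : ℕ} (c : T → ℕ) (hc : ∑ t ∈ SS m, c t = n)
    (hs : ∀ t, c t ≠ 0 → t ∈ SS m) : ∃ G : Fin n → T, ∀ t, cOf G t = c t := by
  have hcard : Fintype.card (Σ s : {t // t ∈ SS m}, Fin (c s.1)) = n := by
    rw [Fintype.card_sigma]
    simp only [Fintype.card_fin]
    rw [← hc, Finset.sum_coe_sort (SS m) c]
  let e := (Fintype.equivFinOfCardEq hcard).symm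
  refine ⟨fun j => (e j).1.1, fun t => ?_⟩
  by_cases ht : t ∈ SS m
  · have e1 : {j : Fin n // (e j).1.1 = t} ≃ Fin (c t) := by
      refine (Equiv.subtypeEquiv (q := fun x : (Σ s : {t // t ∈ SS m}, Fin (c s.1)) =>
        x.1 = ⟨t, ht⟩) e ?_).trans (Equiv.sigmaSubtype (⟨t, ht⟩ : {t // t ∈ SS m}))
      intro j
      rw [Subtype.ext_iff]
    have e2 := Fintype.card_congr e1
    rw [Fintype.card_subtype, Fintype.card_fin] at e2
    exact e2
  · have h0 : c t = 0 := by
      by_contra h
      exact ht (hs t h)
    rw [h0]
    unfold cOf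
    rw [Finset.card_eq_zero]
    apply Finset.eq_empty_of_forall_notMem
    intro j hj
    simp only [Finset.mem_filter, Finset.mem_univ, true_and] at hj
    exact ht (hj ▸ (e j).1.2)

lemma mem_SS_of_Y {n m : ℕ} (G : Fin n → T) (h : Y false G) (hb : ∀ j, (G j).1 ≤ m) (j : Fin n) :
    G j ∈ SS m := by
  rw [mem_SS]
  refine ⟨hb j, ?_, h.2.1 j⟩
  obtain ⟨π, hπ⟩ := h.2.2
  have := congrFun hπ j
  simp only [Function.comp] at this
  have h2 := hb (π j)
  rw [this] at h2
  exact h2

theorem card_PP (n m : ℕ) : (PP n m).card = (CC n m).card := by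
  classical
  refine Finset.card_bij (fun p _ => cOf (F p.1 p.2)) ?_ ?_ ?_
  · rintro ⟨w, a⟩ hp
    simp only [PP, Finset.mem_filter, Finset.mem_product, Finset.mem_univ, true_and] at hp
    obtain ⟨hb, hw, hc⟩ := hp
    have hY := F_mem false w a hw hc
    have hS := mem_SS_of_Y (m := m) (F w a) hY (fun j => (mem_box a).mp hb j)
    simp only [CC, Finset.mem_filter, Finset.mem_piAntidiag]
    refine ⟨⟨?_, ?_⟩, ?_⟩
    · have := Finset.card_eq_sum_card_fiberwise (f := F w a) (s := (Finset.univ : Finset (Fin n)))
        (t := SS m) (fun j _ => by simpa using hS j)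
      rw [Finset.card_univ, Fintype.card_fin] at this
      exact this.symm
    · intro t ht
      unfold cOf at ht
      rw [← Nat.pos_iff_ne_zero, Finset.card_pos] at ht
      obtain ⟨j, hj⟩ := ht
      simp only [Finset.mem_filter, Finset.mem_univ, true_and] at hj
      rw [← hj]; exact hS j
    · intro t
      obtain ⟨π, hπ⟩ := hY.2.2
      rw [← cOf_iota, ← hπ, cOf_perm]
  · rintro ⟨w, a⟩ hp ⟨w', a'⟩ hp' h
    simp only [PP, Finset.mem_filter, Finset.mem_product, Finset.mem_univ, true_and] at hp hp'
    have hY := F_mem false w a hp.2.1 hp.2.2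
    have hY' := F_mem false w' a' hp'.2.1 hp'.2.2
    simp only at h
    obtain ⟨π, hπ⟩ := fib_perm (F w a) (F w' a') (fun t => congrFun h t)
    have h1 : Monotone ((key false ∘ F w a) ∘ π) := by
      rw [Function.comp_assoc, hπ]; exact hY'.1
    have h2 : Monotone ((key false ∘ F w a) ∘ (Equiv.refl (Fin n))) := hY.1
    have h3 := Tuple.unique_monotone h1 h2
    have h4 : F w' a' = F w a := by
      funext j
      have := congrFun h3 j
      rw [Function.comp_assoc, hπ] at this
      exact key_inj false this
    obtain ⟨h5, h6⟩ := F_inj false w w' a a' hp.2.1 hp'.2.1 hp.2.2 hp'.2.2 h4.symm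
    rw [h5, h6]
  · intro c hc
    simp only [CC, Finset.mem_filter, Finset.mem_piAntidiag] at hc
    obtain ⟨⟨h1, h2⟩, h3⟩ := hc
    obtain ⟨G0, hG0⟩ := exists_word c h1 h2
    set τ := Tuple.sort (key false ∘ G0) with hτ
    have hcG : ∀ t, cOf (G0 ∘ τ) t = c t := fun t => by rw [cOf_perm, hG0]
    have hmem : ∀ j, (G0 ∘ τ) j ∈ SS m := by
      intro j
      apply h2
      rw [← hcG]
      unfold cOf
      rw [← Nat.pos_iff_ne_zero, Finset.card_pos]
      exact ⟨j, by simp⟩
    have hY : Y false (G0 ∘ τ) := by
      refine ⟨Tuple.monotone_sort (key false ∘ G0), fun j hj => ?_, ?_⟩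
      · exact ((mem_SS m _).mp (hmem j)).2.2 hj
      · apply fib_perm
        intro t
        rw [cOf_iota, hcG, hcG, h3]
    obtain ⟨w, a, hw, hcmp, hF⟩ := F_surj false (G0 ∘ τ) hY
    refine ⟨(w, a), ?_, ?_⟩
    · simp only [PP, Finset.mem_filter, Finset.mem_product, Finset.mem_univ, true_and]
      refine ⟨?_, hw, hcmp⟩
      rw [mem_box]
      intro j
      have := ((mem_SS m _).mp (hmem j)).1
      rw [← hF] at this
      exact this
    · show cOf (F w a) = c
      rw [hF]
      funext t
      exact hcG t

/-- fixed triples. -/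
def AA (m : ℕ) : Finset T := (SS m).filter (fun t => t.1 = t.2.2)

/-- half of the other triples. -/
def RR (m : ℕ) : Finset T := (SS m).filter (fun t => t.2.2 < t.1)

lemma card_AA (m : ℕ) : (AA m).card = 2 * m + 1 := by
  have h : AA m = (Finset.range (m + 1)).image (fun u => ((u, false, u) : T)) ∪
      (Finset.range m).image (fun u => ((u + 1, true, u + 1) : T)) := by
    ext ⟨u, s, v⟩
    simp only [AA, Finset.mem_filter, mem_SS, Finset.mem_union, Finset.mem_image, Finset.mem_range,
      Prod.mk.injEq]
    cases s
    · simp only [Bool.false_eq_true, reduceCtorEq, false_implies, and_true, false_and, and_false,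
        exists_false, or_false, true_and]
      constructor
      · rintro ⟨⟨h1, h2⟩, h3⟩
        exact ⟨u, by omega, rfl, h3⟩
      · rintro ⟨x, h1, rfl, h2⟩
        omega
    · simp only [true_implies, true_and, Bool.false_eq_true, false_and, and_false,
        exists_false, false_or]
      constructor
      · rintro ⟨⟨h1, h2, h4⟩, h3⟩
        exact ⟨u - 1, by omega, by omega, by omega⟩
      · rintro ⟨x, h1, rfl, h2⟩
        omega
  rw [h, Finset.card_union_of_disjoint, Finset.card_image_of_injective, Finset.card_image_of_injective,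
    Finset.card_range, Finset.card_range]
  · ring
  · intro x y hxy
    simp only [Prod.mk.injEq] at hxy
    omega
  · intro x y hxy
    simp only [Prod.mk.injEq] at hxy
    exact hxy.1
  · rw [Finset.disjoint_left]
    intro t h1 h2
    simp only [Finset.mem_image] at h1 h2
    obtain ⟨x, _, rfl⟩ := h1
    obtain ⟨y, _, h⟩ := h2
    simp at h

lemma card_RR (m : ℕ) : (RR m).card = m ^ 2 := by
  induction m with
  | zero =>
    have : RR 0 = ∅ := by
      apply Finset.eq_empty_of_forall_notMem
      intro t ht
      simp only [RR, Finset.mem_filter, mem_SS] at ht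
      omega
    rw [this]
    rfl
  | succ m ih =>
    have h : RR (m + 1) = RR m ∪ ((Finset.range (m + 1)).image (fun v => ((m + 1, false, v) : T)) ∪
        (Finset.range m).image (fun v => ((m + 1, true, v + 1) : T))) := by
      ext ⟨u, s, v⟩
      simp only [RR, Finset.mem_filter, mem_SS, Finset.mem_union, Finset.mem_image,
        Finset.mem_range, Prod.mk.injEq]
      cases s
      · simp only [Bool.false_eq_true, reduceCtorEq, false_implies, and_true, false_and, and_false,
          exists_false, or_false, true_and]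
        constructor
        · rintro ⟨⟨h1, h2⟩, h3⟩
          by_cases hu : u = m + 1
          · right; exact ⟨v, by omega, hu.symm, rfl⟩
          · left; omega
        · rintro (h | ⟨x, h1, h2, h3⟩) <;> omega
      · simp only [true_implies, true_and, Bool.false_eq_true, false_and, and_false,
          exists_false, false_or]
        constructor
        · rintro ⟨⟨h1, h2, h4⟩, h3⟩
          by_cases hu : u = m + 1
          · right; exact ⟨v - 1, by omega, hu.symm, by omega⟩
          · left; omega
        · rintro (h | ⟨x, h1, h2, h3⟩) <;> omega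
    rw [h, Finset.card_union_of_disjoint, Finset.card_union_of_disjoint,
      Finset.card_image_of_injective, Finset.card_image_of_injective,
      Finset.card_range, Finset.card_range, ih]
    · ring
    · intro x y hxy
      simp only [Prod.mk.injEq] at hxy
      omega
    · intro x y hxy
      simp only [Prod.mk.injEq] at hxy
      exact hxy.2.2
    · rw [Finset.disjoint_left]
      intro t h1 h2
      simp only [Finset.mem_image] at h1 h2
      obtain ⟨x, _, rfl⟩ := h1
      obtain ⟨y, _, h⟩ := h2
      simp at h
    · rw [Finset.disjoint_left]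
      intro t h1 h2
      simp only [Finset.mem_union, Finset.mem_image] at h2
      simp only [RR, Finset.mem_filter, mem_SS] at h1
      rcases h2 with ⟨x, _, rfl⟩ | ⟨x, _, rfl⟩
      · simp at h1
      · simp at h1

lemma disj_AR (m : ℕ) : Disjoint (AA m) (RR m) := by
  rw [Finset.disjoint_left]
  intro t h1 h2
  simp only [AA, RR, Finset.mem_filter] at h1 h2
  omega

/-- invariant functions on the admissible triples, summed. -/
lemma sum_SS (m : ℕ) (c : T → ℕ) (hc : ∀ t, c (iota t) = c t) :
    ∑ t ∈ SS m, c t = ∑ t ∈ AA m, c t + 2 * ∑ t ∈ RR m, c t := by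
  have h1 : ∑ t ∈ SS m, c t = ∑ t ∈ (SS m).filter (fun t => t.1 = t.2.2), c t +
      ∑ t ∈ (SS m).filter (fun t => ¬ t.1 = t.2.2), c t :=
    (Finset.sum_filter_add_sum_filter_not _ _ _).symm
  have h2 : ∑ t ∈ (SS m).filter (fun t => ¬ t.1 = t.2.2), c t =
      ∑ t ∈ ((SS m).filter (fun t => ¬ t.1 = t.2.2)).filter (fun t => t.2.2 < t.1), c t +
      ∑ t ∈ ((SS m).filter (fun t => ¬ t.1 = t.2.2)).filter (fun t => ¬ t.2.2 < t.1), c t :=
    (Finset.sum_filter_add_sum_filter_not _ _ _).symm
  have h3 : ((SS m).filter (fun t => ¬ t.1 = t.2.2)).filter (fun t => t.2.2 < t.1) = RR m := by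
    ext t
    simp only [RR, Finset.mem_filter]
    constructor
    · rintro ⟨⟨a, b⟩, c⟩; exact ⟨a, c⟩
    · rintro ⟨a, b⟩; exact ⟨⟨a, by omega⟩, b⟩
  have h4 : ∑ t ∈ ((SS m).filter (fun t => ¬ t.1 = t.2.2)).filter (fun t => ¬ t.2.2 < t.1), c t =
      ∑ t ∈ RR m, c t := by
    refine Finset.sum_nbij' iota iota ?_ ?_ ?_ ?_ ?_
    · intro t ht
      simp only [RR, Finset.mem_filter] at ht ⊢
      refine ⟨(iota_mem_SS m t).mpr ht.1.1, ?_⟩
      simp only [iota]; omega
    · intro t ht
      simp only [RR, Finset.mem_filter] at ht ⊢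
      refine ⟨⟨(iota_mem_SS m t).mpr ht.1, ?_⟩, ?_⟩
      · simp only [iota]; omega
      · simp only [iota]; omega
    · intro t _; rfl
    · intro t _; rfl
    · intro t _; exact (hc t).symm
  rw [h1, h2, h3, h4]
  unfold AA
  ring

open Classical in
theorem card_CC (n m : ℕ) : ((CC n m).card : ℚ) = cc (2 * m + 1) (m ^ 2) n := by
  have hprod : gg ^ (2 * m + 1) * hh ^ (m ^ 2) =
      ∏ t ∈ AA m ∪ RR m, (if t ∈ RR m then hh else gg) := by
    rw [Finset.prod_union (disj_AR m)]
    have e1 : ∏ t ∈ AA m, (if t ∈ RR m then hh else gg) = ∏ t ∈ AA m, gg := by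
      apply Finset.prod_congr rfl
      intro t ht
      rw [if_neg (Finset.disjoint_left.mp (disj_AR m) ht)]
    have e2 : ∏ t ∈ RR m, (if t ∈ RR m then hh else gg) = ∏ t ∈ RR m, hh := by
      apply Finset.prod_congr rfl
      intro t ht
      rw [if_pos ht]
    rw [e1, e2, Finset.prod_const, Finset.prod_const, card_AA, card_RR]
  unfold cc
  rw [hprod, coeff_prod]
  have e3 : ∀ l ∈ Finset.finsuppAntidiag (AA m ∪ RR m) n,
      ∏ i ∈ AA m ∪ RR m, coeff (l i) (if i ∈ RR m then hh else gg) =
      if (∀ t ∈ RR m, Even (l t)) then (1 : ℚ) else 0 := by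
    intro l _
    split_ifs with h
    · apply Finset.prod_eq_one
      intro t ht
      by_cases h2 : t ∈ RR m
      · rw [if_pos h2, coeff_hh, if_pos (h t h2)]
      · rw [if_neg h2, coeff_gg]
    · push Not at h
      obtain ⟨t, ht, hodd⟩ := h
      apply Finset.prod_eq_zero (Finset.mem_union_right _ ht)
      rw [if_pos ht, coeff_hh, if_neg hodd]
  rw [Finset.sum_congr rfl e3, Finset.sum_boole]
  norm_cast
  refine Finset.card_bij (fun c _ => Finsupp.onFinset (AA m ∪ RR m)
    (fun t => if t ∈ AA m then c t else if t ∈ RR m then 2 * c t else 0) ?_) ?_ ?_ ?_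
  · intro t ht
    rw [Finset.mem_union]
    by_contra hcon
    push Not at hcon
    rw [if_neg hcon.1, if_neg hcon.2] at ht
    exact ht rfl
  · intro c hc
    simp only [CC, Finset.mem_filter, Finset.mem_piAntidiag] at hc
    obtain ⟨⟨h1, h2⟩, h3⟩ := hc
    rw [Finset.mem_filter, Finset.mem_finsuppAntidiag]
    refine ⟨⟨?_, ?_⟩, ?_⟩
    · rw [Finset.sum_union (disj_AR m)]
      have e1 : ∑ t ∈ AA m, (Finsupp.onFinset (AA m ∪ RR m)
          (fun t => if t ∈ AA m then c t else if t ∈ RR m then 2 * c t else 0) (by
            intro t ht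
            rw [Finset.mem_union]
            by_contra hcon
            push Not at hcon
            rw [if_neg hcon.1, if_neg hcon.2] at ht
            exact ht rfl)) t = ∑ t ∈ AA m, c t := by
        apply Finset.sum_congr rfl
        intro t ht
        rw [Finsupp.onFinset_apply, if_pos ht]
      have e2 : ∑ t ∈ RR m, (Finsupp.onFinset (AA m ∪ RR m)
          (fun t => if t ∈ AA m then c t else if t ∈ RR m then 2 * c t else 0) (by
            intro t ht
            rw [Finset.mem_union]
            by_contra hcon
            push Not at hcon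
            rw [if_neg hcon.1, if_neg hcon.2] at ht
            exact ht rfl)) t = 2 * ∑ t ∈ RR m, c t := by
        rw [Finset.mul_sum]
        apply Finset.sum_congr rfl
        intro t ht
        rw [Finsupp.onFinset_apply, if_neg (Finset.disjoint_right.mp (disj_AR m) ht), if_pos ht]
      rw [e1, e2, ← sum_SS m c h3]
      exact h1
    · exact Finsupp.support_onFinset_subset
    · intro t ht
      rw [Finsupp.onFinset_apply, if_neg (Finset.disjoint_right.mp (disj_AR m) ht), if_pos ht]
      exact even_two_mul _
  · intro c hc c' hc' h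
    simp only [CC, Finset.mem_filter, Finset.mem_piAntidiag] at hc hc'
    funext t
    have key : ∀ t, t ∈ AA m ∨ t ∈ RR m → c t = c' t := by
      intro t ht
      have := DFunLike.congr_fun h t
      simp only [Finsupp.onFinset_apply] at this
      by_cases h1 : t ∈ AA m
      · rw [if_pos h1, if_pos h1] at this; exact this
      · rcases ht with ht | ht
        · exact absurd ht h1
        · rw [if_neg h1, if_neg h1, if_pos ht, if_pos ht] at this
          omega
    by_cases hS : t ∈ SS m
    · rcases lt_trichotomy t.1 t.2.2 with h1 | h1 | h1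
      · rw [← hc.2 t, ← hc'.2 t]
        apply key
        right
        simp only [RR, Finset.mem_filter]
        exact ⟨(iota_mem_SS m t).mpr hS, h1⟩
      · apply key
        left
        simp only [AA, Finset.mem_filter]
        exact ⟨hS, h1⟩
      · apply key
        right
        simp only [RR, Finset.mem_filter]
        exact ⟨hS, h1⟩
    · have z1 : c t = 0 := by
        by_contra hne
        exact hS (hc.1.2 t hne)
      have z2 : c' t = 0 := by
        by_contra hne
        exact hS (hc'.1.2 t hne)
      rw [z1, z2]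
  · intro l hl
    rw [Finset.mem_filter, Finset.mem_finsuppAntidiag] at hl
    obtain ⟨⟨h1, h2⟩, h3⟩ := hl
    have hinv : ∀ t : T, (fun t : T => if t.1 = t.2.2 then l t else if t.2.2 < t.1 then l t / 2
        else l (iota t) / 2) (iota t) = (fun t : T => if t.1 = t.2.2 then l t else if t.2.2 < t.1
        then l t / 2 else l (iota t) / 2) t := by
      rintro ⟨u, s, v⟩
      simp only [iota]
      rcases lt_trichotomy u v with h | h | h
      · rw [if_neg (by omega), if_pos h, if_neg (by omega), if_neg (by omega)]
      · subst h; rfl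
      · rw [if_neg (by omega), if_neg (by omega), if_neg (by omega), if_pos h]
    have hzero : ∀ t : T, t ∉ SS m → l t = 0 := by
      intro t ht
      by_contra hne
      have := h2 (Finsupp.mem_support_iff.mpr hne)
      rw [Finset.mem_union] at this
      simp only [AA, RR, Finset.mem_filter] at this
      rcases this with h | h
      · exact ht h.1
      · exact ht h.1
    refine ⟨fun t : T => if t.1 = t.2.2 then l t else if t.2.2 < t.1 then l t / 2
        else l (iota t) / 2, ?_, ?_⟩
    · simp only [CC, Finset.mem_filter, Finset.mem_piAntidiag]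
      refine ⟨⟨?_, ?_⟩, hinv⟩
      · rw [sum_SS m _ hinv]
        rw [Finset.sum_union (disj_AR m)] at h1
        rw [← h1, Finset.mul_sum]
        congr 1
        · apply Finset.sum_congr rfl
          intro t ht
          simp only [AA, Finset.mem_filter] at ht
          rw [if_pos ht.2]
        · apply Finset.sum_congr rfl
          intro t ht
          have hev := h3 t ht
          simp only [RR, Finset.mem_filter] at ht
          rw [if_neg (by omega), if_pos ht.2]
          exact Nat.two_mul_div_two_of_even hev
      · intro t ht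
        by_contra hS
        have z1 := hzero t hS
        have z2 := hzero (iota t) (fun h => hS ((iota_mem_SS m t).mp h))
        rw [z1, z2] at ht
        simp at ht
    · ext t
      rw [Finsupp.onFinset_apply]
      by_cases hA : t ∈ AA m
      · rw [if_pos hA]
        simp only [AA, Finset.mem_filter] at hA
        beta_reduce
        rw [if_pos hA.2]
      · rw [if_neg hA]
        by_cases hR : t ∈ RR m
        · rw [if_pos hR]
          have hev := h3 t hR
          simp only [RR, Finset.mem_filter] at hR
          beta_reduce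
          rw [if_neg (by omega), if_pos hR.2]
          exact Nat.two_mul_div_two_of_even hev
        · rw [if_neg hR]
          symm
          by_contra hne
          have := h2 (Finsupp.mem_support_iff.mpr hne)
          rw [Finset.mem_union] at this
          rcases this with h | h
          · exact hA h
          · exact hR h

end Pool.Agent.R136.Inv
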