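import Pool.Agent.R136.InvCount2

set_option autoImplicit false

namespace Pool.Agent.R136.Inv

open PowerSeries Pool.Agent.R136.InvGF

open Classical in
lemma card_PP_eq_sum (n m : ℕ) : (PP n m).card =
    ∑ w ∈ (Finset.univ : Finset (Equiv.Perm (Fin n) × (Fin n → Bool))).filter (fun w => IsInv w),
      cnt (Des false w) m := by
  rw [Finset.card_eq_sum_card_fiberwise (f := fun p => p.1)
    (t := (Finset.univ : Finset (Equiv.Perm (Fin n) × (Fin n → Bool))).filter (fun w => IsInv w))]
  · apply Finset.sum_congr rfl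
    intro w hw
    simp only [Finset.mem_filter, Finset.mem_univ, true_and] at hw
    unfold cnt
    refine Finset.card_bij (fun p _ => p.2) ?_ ?_ ?_
    · rintro ⟨w', a⟩ hp
      simp only [PP, Finset.mem_filter, Finset.mem_product, Finset.mem_univ, true_and] at hp ⊢
      obtain ⟨⟨hb, hi, hc⟩, rfl⟩ := hp
      exact ⟨hb, (cmp_iff false w' a).mp hc⟩
    · rintro ⟨w', a⟩ hp ⟨w'', a'⟩ hp' h
      simp only [Finset.mem_filter] at hp hp'
      have e1 := hp.2
      have e2 := hp'.2
      simp only at e1 e2 h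
      rw [e1, e2, h]
    · intro a ha
      simp only [Finset.mem_filter] at ha
      refine ⟨(w, a), ?_, rfl⟩
      simp only [PP, Finset.mem_filter, Finset.mem_product, Finset.mem_univ, true_and]
      exact ⟨⟨ha.1, hw, (cmp_iff false w a).mpr ha.2⟩, trivial⟩
  · rintro ⟨w, a⟩ hp
    simp only [PP, Finset.coe_filter, Finset.mem_product, Finset.mem_univ, true_and,
      Set.mem_ofPred_eq] at hp ⊢
    exact hp.2.1

open Classical in
/-- the series identity. -/
theorem series_eq (n : ℕ) :
    ∑ w ∈ (Finset.univ : Finset (Equiv.Perm (Fin n) × (Fin n → Bool))).filter (fun w => IsInv w),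
      (X : ℚ⟦X⟧) ^ (Des false w).card = ∑ k ∈ Finset.range (n + 1),
        C (E n k) * (X ^ k * (1 + X) ^ (n - 2 * k)) := by
  have h1 : ∑ w ∈ (Finset.univ : Finset (Equiv.Perm (Fin n) × (Fin n → Bool))).filter
      (fun w => IsInv w), (X : ℚ⟦X⟧) ^ (Des false w).card * gg ^ (n + 1) = GG n := by
    ext m
    rw [(GG_coeff n m).1, ← card_CC, ← card_PP, card_PP_eq_sum, map_sum]
    push_cast
    apply Finset.sum_congr rfl
    intro w _
    rw [← cnt_series, coeff_mk]
  have h2 : gg ^ (n + 1) * (1 - X) ^ (n + 1) = 1 := by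
    rw [← mul_pow, gg_mul, one_pow]
  have h3 := congrArg (fun f => f * (1 - X) ^ (n + 1)) h1
  simp only [GG, InvGF.SS, UU] at h3
  rw [Finset.sum_mul, Finset.sum_mul] at h3
  have h4 : ∀ w ∈ (Finset.univ : Finset (Equiv.Perm (Fin n) × (Fin n → Bool))).filter
      (fun w => IsInv w), (X : ℚ⟦X⟧) ^ (Des false w).card * gg ^ (n + 1) * (1 - X) ^ (n + 1) =
      (X : ℚ⟦X⟧) ^ (Des false w).card := by
    intro w _
    rw [mul_assoc, h2, mul_one]
  have h5 : ∀ k ∈ Finset.range (n + 1), C (E n k) * (X ^ k * (1 + X) ^ (n - 2 * k) *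
      gg ^ (n + 1)) * (1 - X) ^ (n + 1) = C (E n k) * (X ^ k * (1 + X) ^ (n - 2 * k)) := by
    intro k _
    rw [mul_assoc, mul_assoc (X ^ k * (1 + X) ^ (n - 2 * k)), h2, mul_one]
  rw [Finset.sum_congr rfl h4, Finset.sum_congr rfl h5] at h3
  exact h3

open Classical in
/-- the polynomial identity over `ℚ`. -/
theorem poly_eq (n : ℕ) :
    ∑ w ∈ (Finset.univ : Finset (Equiv.Perm (Fin n) × (Fin n → Bool))).filter (fun w => IsInv w),
      (Polynomial.X : Polynomial ℚ) ^ (Des false w).card = ∑ k ∈ Finset.range (n / 2 + 1),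
        Polynomial.C (E n k) * Polynomial.X ^ k * (1 + Polynomial.X) ^ (n - 2 * k) := by
  have h : ∑ w ∈ (Finset.univ : Finset (Equiv.Perm (Fin n) × (Fin n → Bool))).filter
      (fun w => IsInv w), (Polynomial.X : Polynomial ℚ) ^ (Des false w).card =
      ∑ k ∈ Finset.range (n + 1),
        Polynomial.C (E n k) * Polynomial.X ^ k * (1 + Polynomial.X) ^ (n - 2 * k) := by
    apply Polynomial.coe_injective
    have := series_eq n
    rw [← Polynomial.coeToPowerSeries.ringHom_apply, ← Polynomial.coeToPowerSeries.ringHom_apply,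
      map_sum, map_sum]
    simp only [map_mul, map_pow, map_add, map_one, Polynomial.coeToPowerSeries.ringHom_apply,
      Polynomial.coe_X, Polynomial.coe_C]
    rw [this]
    apply Finset.sum_congr rfl
    intro k _
    ring
  rw [h]
  symm
  apply Finset.sum_subset
  · intro k hk
    rw [Finset.mem_range] at hk ⊢
    omega
  · intro k _ hk
    rw [Finset.mem_range] at hk
    have : E n k = 0 := (supp_E n).1 k (by omega)
    rw [this]; simp

/-- a triangular system with integer right hand sides has integer solutions. -/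
lemma int_of_sum (n K : ℕ) (e : ℕ → ℚ) (P : Polynomial ℤ)
    (h : P.map (Int.castRingHom ℚ) = ∑ k ∈ Finset.range K,
      Polynomial.C (e k) * Polynomial.X ^ k * (1 + Polynomial.X) ^ (n - 2 * k)) :
    ∀ k < K, ∃ z : ℤ, e k = z := by
  intro k
  induction k using Nat.strong_induction_on with
  | _ k ih =>
    intro hk
    have h1 := congrArg (fun p => Polynomial.coeff p k) h
    simp only [Polynomial.coeff_map, Polynomial.finsetSum_coeff] at h1
    have h2 : ∀ j ∈ Finset.range K, (Polynomial.C (e j) * Polynomial.X ^ j *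
        (1 + Polynomial.X) ^ (n - 2 * j) : Polynomial ℚ).coeff k =
        if j ≤ k then e j * ((n - 2 * j).choose (k - j) : ℚ) else 0 := by
      intro j _
      rw [mul_assoc, Polynomial.coeff_C_mul, Polynomial.coeff_X_pow_mul',
        add_comm 1 Polynomial.X]
      split_ifs with hjk
      · rw [Polynomial.coeff_X_add_one_pow]
      · simp
    rw [Finset.sum_congr rfl h2] at h1
    have h3 : ∀ j ∈ (Finset.range K).erase k, ∃ z : ℤ,
        (if j ≤ k then e j * ((n - 2 * j).choose (k - j) : ℚ) else 0) = z := by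
      intro j hj
      rw [Finset.mem_erase, Finset.mem_range] at hj
      by_cases hjk : j ≤ k
      · obtain ⟨z, hz⟩ := ih j (lt_of_le_of_ne hjk hj.1) hj.2
        refine ⟨z * ((n - 2 * j).choose (k - j) : ℤ), ?_⟩
        rw [if_pos hjk, hz]
        push_cast
        ring
      · exact ⟨0, by rw [if_neg hjk]; simp⟩
    rw [← Finset.add_sum_erase _ _ (Finset.mem_range.mpr hk)] at h1
    rw [if_pos (le_refl k), Nat.sub_self, Nat.choose_zero_right, Nat.cast_one, mul_one] at h1
    choose! z hz using h3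
    rw [Finset.sum_congr rfl hz] at h1
    refine ⟨P.coeff k - ∑ j ∈ (Finset.range K).erase k, z j, ?_⟩
    push_cast
    have h4 : ((P.coeff k : ℤ) : ℚ) = (Int.castRingHom ℚ) (P.coeff k) := by simp
    rw [h4, h1]
    ring

/-- the exponent of the frozen statement is the number of descents. -/
lemma card_Des {n : ℕ} (w : Equiv.Perm (Fin n) × (Fin n → Bool)) :
    (Finset.univ.filter (fun j : Fin n => j.val = 0 ∧ w.2 j = true)).card +
      (Finset.univ.filter (fun p : Fin n × Fin n => p.2.val = p.1.val + 1 ∧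
        (if w.2 p.2 then (-1 : ℤ) else 1) * (((w.1 p.2 : ℕ) : ℤ) + 1) <
        (if w.2 p.1 then (-1 : ℤ) else 1) * (((w.1 p.1 : ℕ) : ℤ) + 1))).card =
    (Des false w).card := by
  classical
  have hV : ∀ i : Fin n, V false w i = (if w.2 i then (-1 : ℤ) else 1) * (((w.1 i : ℕ) : ℤ) + 1) := by
    intro i
    unfold V
    cases w.2 i <;> simp
  have h1 : (Finset.univ.filter (fun p : Fin n × Fin n => p.2.val = p.1.val + 1 ∧
        (if w.2 p.2 then (-1 : ℤ) else 1) * (((w.1 p.2 : ℕ) : ℤ) + 1) <
        (if w.2 p.1 then (-1 : ℤ) else 1) * (((w.1 p.1 : ℕ) : ℤ) + 1))).card =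
      (Finset.univ.filter (fun j : Fin n => ∃ i : Fin n, j.val = i.val + 1 ∧
        V false w j < V false w i)).card := by
    refine Finset.card_bij (fun p _ => p.2) ?_ ?_ ?_
    · rintro ⟨i, j⟩ hp
      simp only [Finset.mem_filter, Finset.mem_univ, true_and] at hp ⊢
      exact ⟨i, hp.1, by rw [hV, hV]; exact hp.2⟩
    · rintro ⟨i, j⟩ hp ⟨i', j'⟩ hp' h
      simp only [Finset.mem_filter, Finset.mem_univ, true_and] at hp hp' h
      subst h
      have : i = i' := Fin.ext (by omega)
      rw [this]
    · intro j hj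
      simp only [Finset.mem_filter, Finset.mem_univ, true_and] at hj
      obtain ⟨i, h1, h2⟩ := hj
      refine ⟨(i, j), ?_, rfl⟩
      simp only [Finset.mem_filter, Finset.mem_univ, true_and]
      rw [hV, hV] at h2
      exact ⟨h1, h2⟩
  rw [h1, ← Finset.card_union_of_disjoint]
  · congr 1
    ext j
    simp only [Des, Finset.mem_union, Finset.mem_filter, Finset.mem_univ, true_and]
  · rw [Finset.disjoint_left]
    intro j h1 h2
    simp only [Finset.mem_filter, Finset.mem_univ, true_and] at h1 h2
    obtain ⟨i, h3, _⟩ := h2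
    omega

end Pool.Agent.R136.Inv
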