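import Pool.Agent.R59.SP.Defs

/-!
# Piece SCHW (MP_dc5c84_pr): products of Schwartz functions in several variables
-/

set_option autoImplicit false

noncomputable section

namespace R136.SPSCHW

open MeasureTheory Filter Topology R59.SP
open scoped SchwartzMap FourierTransform ENNReal ComplexConjugate ComplexOrder

lemma coordBound {n : ℕ} (φ : 𝓢(ℝ, ℂ)) (j : Fin n) (m : ℕ) (x : Fin n → ℝ) :
    ‖iteratedFDeriv ℝ m (fun x : Fin n → ℝ => φ (x j)) x‖ ≤ ‖iteratedFDeriv ℝ m φ (x j)‖ := by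
  have hp : ‖(ContinuousLinearMap.proj j : (Fin n → ℝ) →L[ℝ] ℝ)‖ ≤ 1 :=
    ContinuousLinearMap.opNorm_le_bound _ zero_le_one
      (fun x => by simpa using norm_le_pi_norm x j)
  have h := (ContinuousLinearMap.proj j : (Fin n → ℝ) →L[ℝ] ℝ).iteratedFDeriv_comp_right
    (f := (φ : ℝ → ℂ)) (n := (m : ℕ∞)) (φ.smooth m) x (i := m) le_rfl
  have e : (fun x : Fin n → ℝ => φ (x j)) =
    (φ : ℝ → ℂ) ∘ (ContinuousLinearMap.proj j : (Fin n → ℝ) →L[ℝ] ℝ) := rfl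
  rw [e, h]
  refine (ContinuousMultilinearMap.norm_compContinuousLinearMap_le _ _).trans ?_
  have h1 : ∏ _i : Fin m, ‖(ContinuousLinearMap.proj j : (Fin n → ℝ) →L[ℝ] ℝ)‖ ≤ 1 :=
    Finset.prod_le_one (fun _ _ => norm_nonneg _) (fun _ _ => hp)
  calc _ ≤ ‖iteratedFDeriv ℝ m (φ : ℝ → ℂ) (x j)‖ * 1 := by
        gcongr
        rfl
    _ = _ := mul_one _

lemma unifBound (φ : 𝓢(ℝ, ℂ)) (k m : ℕ) : ∃ M : ℝ, 0 ≤ M ∧ ∀ i ≤ m, ∀ t : ℝ,
    (1 + ‖t‖) ^ k * ‖iteratedFDeriv ℝ i φ t‖ ≤ M := by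
  refine ⟨2 ^ k * (Finset.Iic (k, m)).sup (fun m => SchwartzMap.seminorm ℝ m.1 m.2) φ, ?_, ?_⟩
  · have := apply_nonneg ((Finset.Iic (k, m)).sup (fun m => SchwartzMap.seminorm ℝ m.1 m.2)) φ
    positivity
  · intro i hi t
    exact SchwartzMap.one_add_le_sup_seminorm_apply (𝕜 := ℝ) (m := (k, m)) le_rfl hi φ t

lemma normBound {n : ℕ} (x : Fin n → ℝ) : 1 + ‖x‖ ≤ ∏ j, (1 + ‖x j‖) := by
  have h1 : ∀ j, 1 ≤ 1 + ‖x j‖ := fun j => by linarith [norm_nonneg (x j)]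
  have h0 : 1 ≤ ∏ j, (1 + ‖x j‖) := Finset.one_le_prod (fun j _ => h1 j)
  have h2 : ‖x‖ ≤ ∏ j, (1 + ‖x j‖) - 1 := by
    rw [pi_norm_le_iff_of_nonneg (by linarith)]
    intro j
    have h3 : 1 + ‖x j‖ ≤ ∏ j, (1 + ‖x j‖) := by
      rw [← Finset.mul_prod_erase Finset.univ _ (Finset.mem_univ j)]
      have h4 : 1 ≤ ∏ i ∈ Finset.univ.erase j, (1 + ‖x i‖) :=
        Finset.one_le_prod (fun i _ => h1 i)
      have h5 := h1 j
      nlinarith
    linarith
  linarith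

lemma decay (φ : 𝓢(ℝ, ℂ)) (n k m : ℕ) : ∃ C : ℝ, ∀ x : Fin n → ℝ,
    ‖x‖ ^ k * ‖iteratedFDeriv ℝ m (fun x : Fin n → ℝ => ∏ i, φ (x i)) x‖ ≤ C := by
  classical
  obtain ⟨M, hM0, hM⟩ := unifBound φ k m
  refine ⟨∑ p ∈ (Finset.univ : Finset (Fin n)).sym m,
    ((p : Multiset (Fin n)).countPerms : ℝ) * M ^ n, fun x => ?_⟩
  have hsm : ∀ i ∈ (Finset.univ : Finset (Fin n)),
      ContDiff ℝ ((m : ℕ∞) : WithTop ℕ∞) (fun x : Fin n → ℝ => φ (x i)) := by
    intro i _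
    exact (φ.smooth m).comp (contDiff_apply ℝ ℝ i)
  have h1 := norm_iteratedFDeriv_prod_le (𝕜 := ℝ) (u := (Finset.univ : Finset (Fin n)))
    (f := fun (i : Fin n) (x : Fin n → ℝ) => φ (x i)) (N := ((m : ℕ∞) : WithTop ℕ∞)) hsm (x := x)
    (n := m) le_rfl
  have h2 : ‖x‖ ^ k ≤ (∏ j, (1 + ‖x j‖)) ^ k := by
    have := normBound x
    have h0 := norm_nonneg x
    gcongr
    linarith
  calc ‖x‖ ^ k * ‖iteratedFDeriv ℝ m (fun x : Fin n → ℝ => ∏ i, φ (x i)) x‖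
      ≤ (∏ j, (1 + ‖x j‖)) ^ k * ∑ p ∈ (Finset.univ : Finset (Fin n)).sym m,
        ((p : Multiset (Fin n)).countPerms : ℝ) * ∏ j,
          ‖iteratedFDeriv ℝ ((p : Multiset (Fin n)).count j) (fun x : Fin n → ℝ => φ (x j)) x‖ := by
        gcongr
    _ = ∑ p ∈ (Finset.univ : Finset (Fin n)).sym m,
        ((p : Multiset (Fin n)).countPerms : ℝ) * ∏ j, ((1 + ‖x j‖) ^ k *
          ‖iteratedFDeriv ℝ ((p : Multiset (Fin n)).count j)
            (fun x : Fin n → ℝ => φ (x j)) x‖) := by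
        rw [Finset.mul_sum]
        refine Finset.sum_congr rfl fun p _ => ?_
        rw [Finset.prod_mul_distrib, Finset.prod_pow]
        ring
    _ ≤ ∑ p ∈ (Finset.univ : Finset (Fin n)).sym m,
        ((p : Multiset (Fin n)).countPerms : ℝ) * M ^ n := by
        refine Finset.sum_le_sum fun p hp => ?_
        have hcard : ∀ j, (p : Multiset (Fin n)).count j ≤ m := by
          intro j
          refine (Multiset.count_le_card j _).trans ?_
          exact le_of_eq p.2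
        have h3 : ∏ j, ((1 + ‖x j‖) ^ k * ‖iteratedFDeriv ℝ ((p : Multiset (Fin n)).count j)
            (fun x : Fin n → ℝ => φ (x j)) x‖) ≤ ∏ _j : Fin n, M := by
          refine Finset.prod_le_prod (fun j _ => by positivity) (fun j _ => ?_)
          refine le_trans ?_ (hM _ (hcard j) (x j))
          gcongr
          exact coordBound φ j _ x
        rw [Finset.prod_const, Finset.card_univ, Fintype.card_fin] at h3
        gcongr

/-- the product -/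
def eta (φ : 𝓢(ℝ, ℂ)) (n : ℕ) : 𝓢(Fin n → ℝ, ℂ) where
  toFun := fun x => ∏ i, φ (x i)
  smooth' := by
    apply contDiff_prod
    intro i _
    exact φ.smooth'.comp (contDiff_apply ℝ ℝ i)
  decay' := decay φ n

lemma FT_eta (φ : 𝓢(ℝ, ℂ)) (n : ℕ) (ξ : Fin n → ℝ) :
    FT n (eta φ n) ξ = ∏ i, 𝓕 φ (ξ i) := by
  have h1 : ∀ x : Fin n → ℝ,
      Complex.exp (-(2 * Real.pi * Complex.I * ((∑ i, x i * ξ i : ℝ) : ℂ))) * (eta φ n) x =
        ∏ i, (Complex.exp (((-2 * Real.pi * x i * ξ i : ℝ) : ℂ) * Complex.I) * φ (x i)) := by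
    intro x
    rw [Finset.prod_mul_distrib, ← Complex.exp_sum]
    congr 1
    congr 1
    push_cast
    rw [Finset.mul_sum, ← Finset.sum_neg_distrib]
    refine Finset.sum_congr rfl fun i _ => ?_
    ring
  unfold FT
  simp_rw [h1]
  rw [integral_fintype_prod_volume_eq_prod (𝕜 := ℂ)
    (fun (i : Fin n) (t : ℝ) =>
      Complex.exp (((-2 * Real.pi * t * ξ i : ℝ) : ℂ) * Complex.I) * φ t)]
  refine Finset.prod_congr rfl fun i _ => ?_
  rw [SchwartzMap.fourier_coe, Real.fourier_real_eq_integral_exp_smul]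
  simp only [smul_eq_mul]

theorem schw : S_SCHW := by
  intro B φ hB n
  refine ⟨eta φ n, fun x => rfl, ?_⟩
  intro ξ hξ i
  rw [FT_eta, Finset.prod_ne_zero_iff] at hξ
  by_contra hcon
  push Not at hcon
  exact hξ i (Finset.mem_univ i) (hB _ hcon)

end R136.SPSCHW
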