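import Mathlib

set_option autoImplicit false

/-!
Eulerian numbers: strong log-concavity and comparison with the signed numbers.
-/

namespace Pool.Agent.R136.Sync

/-- Eulerian numbers -/
def eul : ℕ → ℕ → ℕ
  | 0, 0 => 1
  | 0, _ + 1 => 0
  | n + 1, 0 => eul n 0
  | n + 1, k + 1 => (k + 2) * eul n (k + 1) + (n - k) * eul n k

lemma eul_succ_zero (n : ℕ) : eul (n + 1) 0 = eul n 0 := by rw [eul]

lemma eul_succ (n k : ℕ) : eul (n + 1) (k + 1) = (k + 2) * eul n (k + 1) + (n - k) * eul n k := by
  rw [eul]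

lemma eul_zero (n : ℕ) : eul n 0 = 1 := by
  induction n with
  | zero => rfl
  | succ n ih => rw [eul_succ_zero, ih]

lemma eul_big (n : ℕ) : ∀ k, n < k → eul n k = 0 := by
  induction n with
  | zero => intro k hk; obtain ⟨k, rfl⟩ := Nat.exists_eq_succ_of_ne_zero (by omega : k ≠ 0); rfl
  | succ n ih =>
    intro k hk
    obtain ⟨k, rfl⟩ := Nat.exists_eq_succ_of_ne_zero (by omega : k ≠ 0)
    rw [Nat.succ_eq_add_one, eul_succ, ih (k + 1) (by omega), show n - k = 0 by omega]
    simp

lemma eul_self (n : ℕ) : eul (n + 1) (n + 1) = 0 := by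
  rw [eul_succ, eul_big n (n + 1) (by omega)]
  simp

lemma eul_top (n : ℕ) : eul (n + 1) n = 1 := by
  induction n with
  | zero => rfl
  | succ n ih =>
    rw [eul_succ, eul_self, ih]
    have : n + 1 - n = 1 := by omega
    rw [this]
    simp

lemma eul_ge (n : ℕ) : ∀ k, n + 1 ≤ k → eul (n + 1) k = 0 := by
  intro k hk
  rcases Nat.lt_or_ge (n + 1) k with h | h
  · exact eul_big _ _ h
  · have : k = n + 1 := by omega
    rw [this, eul_self]

/-- scaled Eulerian numbers: `b n k * C(n, k) = n! * eul (n+1) k` -/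
def bb : ℕ → ℕ → ℕ
  | 0, 0 => 1
  | 0, _ + 1 => 0
  | n + 1, 0 => (n + 1) * bb n 0
  | n + 1, k + 1 => (k + 2) * (n - k) * bb n (k + 1) + (k + 1) * (n + 1 - k) * bb n k

/-- log-concavity (without internal zeros) -/
def LC (x : ℕ → ℕ) : Prop := ∀ a s t, x a * x (a + s + t) ≤ x (a + s) * x (a + t)

lemma LC_weight (x : ℕ → ℕ) (n : ℕ) (hx : LC x) : LC (fun k => (k + 1) * (n + 1 - k) * x k) := by
  intro a s t
  show (a + 1) * (n + 1 - a) * x a * ((a + s + t + 1) * (n + 1 - (a + s + t)) * x (a + s + t)) ≤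
    (a + s + 1) * (n + 1 - (a + s)) * x (a + s) * ((a + t + 1) * (n + 1 - (a + t)) * x (a + t))
  rcases Nat.lt_or_ge (a + s + t) (n + 1) with h | h
  · obtain ⟨e, he⟩ := Nat.exists_eq_add_of_lt h
    have h1 : n + 1 - a = s + t + e + 1 := by omega
    have h2 : n + 1 - (a + s + t) = e + 1 := by omega
    have h3 : n + 1 - (a + s) = t + e + 1 := by omega
    have h4 : n + 1 - (a + t) = s + e + 1 := by omega
    rw [h1, h2, h3, h4]
    have k1 : (a + 1) * (a + s + t + 1) ≤ (a + s + 1) * (a + t + 1) := by nlinarith [Nat.zero_le (s * t)]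
    have k2 : (s + t + e + 1) * (e + 1) ≤ (t + e + 1) * (s + e + 1) := by
      nlinarith [Nat.zero_le (s * t)]
    have k3 := hx a s t
    calc (a + 1) * (s + t + e + 1) * x a * ((a + s + t + 1) * (e + 1) * x (a + s + t))
        = ((a + 1) * (a + s + t + 1)) * ((s + t + e + 1) * (e + 1)) * (x a * x (a + s + t)) := by ring
      _ ≤ ((a + s + 1) * (a + t + 1)) * ((t + e + 1) * (s + e + 1)) * (x (a + s) * x (a + t)) :=
          Nat.mul_le_mul (Nat.mul_le_mul k1 k2) k3
      _ = _ := by ring
  · have h2 : n + 1 - (a + s + t) = 0 := by omega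
    rw [h2]; simp

/-- the shifted sum -/
def sh (c : ℕ → ℕ) : ℕ → ℕ
  | 0 => c 0
  | k + 1 => c (k + 1) + c k

lemma LC_sh (c : ℕ → ℕ) (hc : LC c) : LC (sh c) := by
  intro a s t
  rcases s with _ | s
  · simp
  rcases t with _ | t
  · simp [mul_comm]
  rcases a with _ | a
  · have e1 : 0 + (s + 1) + (t + 1) = (s + t + 1) + 1 := by ring
    have e2 : 0 + (s + 1) = s + 1 := by ring
    have e3 : 0 + (t + 1) = t + 1 := by ring
    rw [e1, e2, e3]
    show c 0 * (c (s + t + 1 + 1) + c (s + t + 1)) ≤ (c (s + 1) + c s) * (c (t + 1) + c t)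
    have h1 := hc 0 (s + 1) (t + 1)
    have h2 := hc 0 s (t + 1)
    rw [show 0 + (s + 1) + (t + 1) = s + t + 1 + 1 by ring, show 0 + (s + 1) = s + 1 by ring,
      show 0 + (t + 1) = t + 1 by ring] at h1
    rw [show 0 + s + (t + 1) = s + t + 1 by ring, show 0 + s = s by ring,
      show 0 + (t + 1) = t + 1 by ring] at h2
    nlinarith [Nat.zero_le (c (s + 1) * c t), Nat.zero_le (c s * c t)]
  · have e1 : a + 1 + (s + 1) + (t + 1) = (a + s + t + 2) + 1 := by ring
    have e2 : a + 1 + (s + 1) = (a + s + 1) + 1 := by ring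
    have e3 : a + 1 + (t + 1) = (a + t + 1) + 1 := by ring
    rw [e1, e2, e3]
    show (c (a + 1) + c a) * (c (a + s + t + 2 + 1) + c (a + s + t + 2)) ≤
      (c (a + s + 1 + 1) + c (a + s + 1)) * (c (a + t + 1 + 1) + c (a + t + 1))
    have h1 := hc (a + 1) (s + 1) (t + 1)
    have h2 := hc a (s + 1) (t + 1)
    have h3 := hc a (s + 1) (t + 2)
    have h4 := hc (a + 1) (s + 1) t
    rw [show a + 1 + (s + 1) + (t + 1) = a + s + t + 2 + 1 by ring,
      show a + 1 + (s + 1) = a + s + 1 + 1 by ring,
      show a + 1 + (t + 1) = a + t + 1 + 1 by ring] at h1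
    rw [show a + (s + 1) + (t + 1) = a + s + t + 2 by ring,
      show a + (s + 1) = a + s + 1 by ring,
      show a + (t + 1) = a + t + 1 by ring] at h2
    rw [show a + (s + 1) + (t + 2) = a + s + t + 2 + 1 by ring,
      show a + (s + 1) = a + s + 1 by ring,
      show a + (t + 2) = a + t + 1 + 1 by ring] at h3
    rw [show a + 1 + (s + 1) + t = a + s + t + 2 by ring,
      show a + 1 + (s + 1) = a + s + 1 + 1 by ring,
      show a + 1 + t = a + t + 1 by ring] at h4
    nlinarith [h1, h2, h3, h4]

lemma bb_succ_eq (n : ℕ) : bb (n + 1) = sh (fun k => (k + 1) * (n + 1 - k) * bb n k) := by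
  funext k
  rcases k with _ | k
  · rw [bb]; show _ = (0 + 1) * (n + 1 - 0) * bb n 0; simp
  · rw [bb]
    show _ = (k + 1 + 1) * (n + 1 - (k + 1)) * bb n (k + 1) + (k + 1) * (n + 1 - k) * bb n k
    rw [show n + 1 - (k + 1) = n - k by omega]

lemma LC_bb (n : ℕ) : LC (bb n) := by
  induction n with
  | zero =>
    intro a s t
    rcases a with _ | a
    · rcases s with _ | s
      · simp
      · rw [show 0 + (s + 1) + t = (s + t) + 1 by ring]
        simp [bb]
    · simp [bb]
  | succ n ih =>
    rw [bb_succ_eq]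
    exact LC_sh _ (LC_weight _ n ih)

lemma bb_big (n : ℕ) : ∀ k, n < k → bb n k = 0 := by
  induction n with
  | zero => intro k hk; obtain ⟨k, rfl⟩ := Nat.exists_eq_succ_of_ne_zero (by omega : k ≠ 0); rfl
  | succ n ih =>
    intro k hk
    obtain ⟨k, rfl⟩ := Nat.exists_eq_succ_of_ne_zero (by omega : k ≠ 0)
    rw [Nat.succ_eq_add_one, bb, ih (k + 1) (by omega)]
    rcases Nat.lt_or_ge n k with h | h
    · rw [ih k h]; simp
    · have : n + 1 - k = 0 := by omega
      rw [this]; simp

lemma bb_eul (n : ℕ) : ∀ k, n.choose k * bb n k = n.factorial * eul (n + 1) k := by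
  induction n with
  | zero =>
    intro k
    rcases k with _ | k
    · simp [bb, eul]
    · rw [eul_ge 0 (k + 1) (by omega)]; simp
  | succ n ih =>
    intro k
    rcases k with _ | k
    · have h0 := ih 0
      rw [eul_zero] at h0 ⊢
      rw [bb, Nat.factorial_succ]
      simp only [Nat.choose_zero_right, one_mul, mul_one] at h0 ⊢
      rw [h0]
    · have h0 := ih k
      have h1 := ih (k + 1)
      rw [bb, eul_succ, Nat.factorial_succ]
      rcases Nat.lt_or_ge n k with h | h
      · rw [bb_big n k h, bb_big n (k + 1) (by omega), eul_big (n + 1) (k + 1) (by omega)]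
        have : n + 1 - k = 0 := by omega
        rw [this]; simp
      · have c1 : (n + 1).choose (k + 1) * (n - k) = (n + 1) * n.choose (k + 1) := by
          have := Nat.choose_mul_succ_eq n (k + 1)
          rw [show n + 1 - (k + 1) = n - k by omega] at this
          linarith
        have c2 : (n + 1).choose (k + 1) * (k + 1) = (n + 1) * n.choose k := by
          have := Nat.add_one_mul_choose_eq n k
          linarith
        calc (n + 1).choose (k + 1) * ((k + 2) * (n - k) * bb n (k + 1) +
              (k + 1) * (n + 1 - k) * bb n k)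
            = (k + 2) * ((n + 1).choose (k + 1) * (n - k)) * bb n (k + 1) +
              ((n + 1).choose (k + 1) * (k + 1)) * (n + 1 - k) * bb n k := by ring
          _ = (k + 2) * (n + 1) * (n.choose (k + 1) * bb n (k + 1)) +
              (n + 1) * (n + 1 - k) * (n.choose k * bb n k) := by rw [c1, c2]; ring
          _ = _ := by rw [h0, h1]; ring

/-- strong log-concavity of the Eulerian numbers -/
theorem eul_slc (n k : ℕ) (hk : k + 1 ≤ n) :
    (k + 2) * (n + 1 - (k + 1)) * (eul (n + 1) k * eul (n + 1) (k + 2)) ≤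
      (k + 1) * (n - (k + 1)) * eul (n + 1) (k + 1) ^ 2 := by
  have hL : bb n k * bb n (k + 2) ≤ bb n (k + 1) * bb n (k + 1) := LC_bb n k 1 1
  have e0 := bb_eul n k
  have e1 := bb_eul n (k + 1)
  have e2 := bb_eul n (k + 2)
  have c1 : n.choose (k + 1) * (k + 1) = n.choose k * (n - k) := Nat.choose_succ_right_eq n k
  have c2 : n.choose (k + 2) * (k + 2) = n.choose (k + 1) * (n - (k + 1)) :=
    Nat.choose_succ_right_eq n (k + 1)
  have hN : 0 < n.factorial ^ 2 := by positivity
  apply Nat.le_of_mul_le_mul_left _ hN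
  rw [show n + 1 - (k + 1) = n - k by omega]
  calc n.factorial ^ 2 * ((k + 2) * (n - k) * (eul (n + 1) k * eul (n + 1) (k + 2)))
      = (k + 2) * (n - k) * ((n.factorial * eul (n + 1) k) * (n.factorial * eul (n + 1) (k + 2))) := by
        ring
    _ = (n.choose k * (n - k)) * (n.choose (k + 2) * (k + 2)) * (bb n k * bb n (k + 2)) := by
        rw [← e0, ← e2]; ring
    _ ≤ (n.choose k * (n - k)) * (n.choose (k + 2) * (k + 2)) * (bb n (k + 1) * bb n (k + 1)) :=
        Nat.mul_le_mul_left _ hL
    _ = (n.choose (k + 1) * (k + 1)) * (n.choose (k + 1) * (n - (k + 1))) *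
        (bb n (k + 1) * bb n (k + 1)) := by rw [c1, c2]
    _ = (k + 1) * (n - (k + 1)) * (n.choose (k + 1) * bb n (k + 1)) ^ 2 := by ring
    _ = n.factorial ^ 2 * ((k + 1) * (n - (k + 1)) * eul (n + 1) (k + 1) ^ 2) := by
        rw [e1]; ring

/-- symmetry -/
lemma eul_symm (n : ℕ) : ∀ k, k ≤ n → eul (n + 1) (n - k) = eul (n + 1) k := by
  induction n with
  | zero => intro k hk; have : k = 0 := by omega
            subst this; rfl
  | succ n ih =>
    intro k hk
    rcases k with _ | k
    · rw [eul_zero, Nat.sub_zero, eul_top]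
    · have h1 : n + 1 - (k + 1) = n - k := by omega
      rw [h1, eul_succ (n + 1) k]
      rcases Nat.lt_or_ge k n with h | h
      · obtain ⟨d, hd⟩ : ∃ d, n - k = d + 1 := ⟨n - k - 1, by omega⟩
        rw [hd, eul_succ (n + 1) d]
        have e1 : eul (n + 1) (d + 1) = eul (n + 1) k := by
          rw [← hd]; exact ih k (by omega)
        have e2 : eul (n + 1) d = eul (n + 1) (k + 1) := by
          have := ih (k + 1) (by omega)
          rw [show n - (k + 1) = d by omega] at this
          exact this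
        rw [e1, e2, show n + 1 - d = k + 2 by omega, show n + 1 - k = d + 2 by omega]
        ring
      · have : k = n := by omega
        subst this
        rw [Nat.sub_self, eul_zero, eul_self, eul_top]
        simp

end Pool.Agent.R136.Sync
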