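import Pool.Agent.R136.Sync1

set_option autoImplicit false

/-!
Comparison of the Eulerian numbers with the signed numbers, and the main inequality.
-/

namespace Pool.Agent.R136.Sync

/-- signed descent numbers -/
def dd : ℕ → ℕ → ℤ
  | 0, 0 => 1
  | 0, _ + 1 => 0
  | 1, 0 => 1
  | 1, _ + 1 => 0
  | n + 2, 0 => dd n 0
  | n + 2, 1 => 2 * dd n 1 + ((n : ℤ) - 1) * dd n 0
  | n + 2, k + 2 => ((k : ℤ) + 3) * dd n (k + 2) + ((n : ℤ) - 2 * k - 3) * dd n (k + 1) -
      ((n : ℤ) - k) * dd n k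

lemma eul_one_ge (n : ℕ) (hn : 6 ≤ n) : n ^ 2 ≤ eul n 1 := by
  induction n, hn using Nat.le_induction with
  | base => decide +kernel
  | succ n hn ih =>
    have h := eul_succ n 0
    rw [eul_zero] at h
    rw [h]
    nlinarith

lemma eul_pen_ge (n : ℕ) (hn : 6 ≤ n) : n ^ 2 ≤ eul n (n - 2) := by
  have h := eul_one_ge n hn
  obtain ⟨m, rfl⟩ := Nat.exists_eq_add_of_le' (by omega : 1 ≤ n)
  have := eul_symm m 1 (by omega)
  rw [show m + 1 - 2 = m - 1 by omega, this]
  exact h

lemma eul_last (n : ℕ) (hn : 1 ≤ n) : eul n (n - 1) = 1 := by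
  obtain ⟨m, rfl⟩ := Nat.exists_eq_add_of_le' hn
  exact eul_top m

lemma eul_n (n : ℕ) (hn : 1 ≤ n) : eul n n = 0 := by
  obtain ⟨m, rfl⟩ := Nat.exists_eq_add_of_le' hn
  exact eul_self m

/-- `A_1^2 ≥ 4 A_2` -/
lemma eul_sq (n : ℕ) (hn : 3 ≤ n) : 4 * eul n 2 ≤ eul n 1 ^ 2 := by
  induction n, hn using Nat.le_induction with
  | base => decide +kernel
  | succ n hn ih =>
    have h1 := eul_succ n 0
    have h2 := eul_succ n 1
    rw [eul_zero] at h1
    simp only [zero_add, Nat.sub_zero, mul_one] at h1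
    rw [show (1 : ℕ) + 1 = 2 by norm_num] at h2
    rw [h1, h2]
    have h3 : (n - 1) * eul n 1 ≤ n * eul n 1 := Nat.mul_le_mul_right _ (by omega)
    nlinarith [sq_nonneg (n : ℤ), Nat.zero_le (n ^ 2)]

lemma eul_two (n k : ℕ) : (eul (n + 2) (k + 2) : ℤ) = ((k : ℤ) + 3) ^ 2 * eul n (k + 2) +
    (((k : ℤ) + 3) * (n - (k + 1) : ℕ) + ((n + 1 - (k + 1) : ℕ) : ℤ) * (k + 2)) * eul n (k + 1) +
    ((n + 1 - (k + 1) : ℕ) : ℤ) * (n - k : ℕ) * eul n k := by
  rw [eul_succ (n + 1) (k + 1), eul_succ n (k + 1), eul_succ n k]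
  push_cast
  ring

lemma eul_two_one (n : ℕ) : (eul (n + 2) 1 : ℤ) = 4 * eul n 1 + 3 * n + 1 := by
  have h1 := eul_succ (n + 1) 0
  have h2 := eul_succ n 0
  rw [eul_zero] at h1 h2
  simp only [zero_add, Nat.sub_zero, mul_one] at h1 h2
  rw [h1, h2]
  push_cast
  ring

lemma term (n c c' u a : ℤ) (hu : 0 ≤ u) (hc : 0 ≤ c) (h1 : n * u ≤ a)
    (h2 : c' * (n + 2) ≤ c * n) : (n + 2) * (c' * u) ≤ c * a := by
  have h3 : c' * (n + 2) * u ≤ c * n * u := mul_le_mul_of_nonneg_right h2 hu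
  have h4 : c * (n * u) ≤ c * a := mul_le_mul_of_nonneg_left h1 hc
  nlinarith

lemma q1 (n a : ℤ) (hn : 6 ≤ n) (h : n ^ 2 ≤ a) : (n + 2) * (n - 1) ≤ a + 3 * n + 1 := by nlinarith

lemma q2 (n u : ℤ) (hn : 6 ≤ n) (h : u ≤ 1) : (n - 1) * u ≤ n - 1 := by nlinarith

lemma q2' (n u : ℤ) (hn : 6 ≤ n) (h : u ≤ 1) : n * u ≤ n := by nlinarith

lemma q3 (n : ℤ) (_hn : 6 ≤ n) : (n - 3) * (n + 2) ≤ (n - 1) * n := by nlinarith

lemma q4 (n a : ℤ) (hn : 6 ≤ n) (h : n ^ 2 ≤ a) : 2 * n ≤ (4 * n - 2) * a := by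
  have h1 : 1 ≤ a := by nlinarith
  nlinarith

lemma q5 (n k : ℤ) (hn : 6 ≤ n) (hk : 1 ≤ k) : (k + 3) * (n + 2) ≤ (k + 3) ^ 2 * n := by
  have h1 : n + 2 ≤ (k + 3) * n := by nlinarith
  have h2 := mul_le_mul_of_nonneg_left h1 (by linarith : 0 ≤ k + 3)
  linarith

lemma q6 (n k : ℤ) (hn : 6 ≤ n) (h : k + 4 ≤ n) : (n - k) * (n + 2) ≤ (n - k) * (n - k) * n := by
  have h1 : n + 2 ≤ (n - k) * n := by nlinarith
  have h2 := mul_le_mul_of_nonneg_left h1 (by linarith : 0 ≤ n - k)
  linarith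

lemma q7 (n k : ℤ) (hk : 1 ≤ k) (h : k + 4 ≤ n) :
    2 * |n - 2 * k - 3| ≤ (k + 3) * (n - (k + 1)) + (n - k) * (k + 2) := by
  obtain ⟨y, hy'⟩ : ∃ y : ℤ, n = k + y := ⟨n - k, by ring⟩
  have hy4 : 4 ≤ y := by linarith
  rw [hy']
  have hp : 0 ≤ (k - 1) * (y - 4) := mul_nonneg (by linarith) (by linarith)
  rcases abs_cases (k + y - 2 * k - 3) with ⟨h, _⟩ | ⟨h, _⟩ <;> rw [h] <;> nlinarith

lemma q8 (n x c : ℤ) (hn : 6 ≤ n) (hx : 0 ≤ x) (h : 2 * x ≤ c) : x * (n + 2) ≤ c * n := by
  have h9 := mul_le_mul_of_nonneg_right h (by linarith : (0 : ℤ) ≤ n)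
  nlinarith

lemma q9 (n k : ℤ) (hk : 0 ≤ k) (h : k + 2 ≤ n) :
    0 ≤ (k + 3) * (n - (k + 1)) + (n - k) * (k + 2) := by
  have h1 := mul_nonneg (by linarith : 0 ≤ k + 3) (by linarith : 0 ≤ n - (k + 1))
  have h2 := mul_nonneg (by linarith : 0 ≤ n - k) (by linarith : 0 ≤ k + 2)
  linarith

lemma q10 (n k : ℤ) (hk : 0 ≤ k) (h : k + 2 ≤ n) : 0 ≤ (n - k) * (n - k) :=
  mul_nonneg (by linarith) (by linarith)

theorem dd_bound (hE : ∀ n k, |dd n k| ≤ eul n k) : ∀ n : ℕ, 6 ≤ n → ∀ k : ℕ, 1 ≤ k → k + 2 ≤ n →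
    (n : ℤ) * |dd n k| ≤ eul n k := by
  have key : ∀ n : ℕ, 6 ≤ n → (∀ k : ℕ, 1 ≤ k → k + 2 ≤ n → (n : ℤ) * |dd n k| ≤ eul n k) →
      ∀ k : ℕ, 1 ≤ k → k + 2 ≤ n + 2 → ((n : ℤ) + 2) * |dd (n + 2) k| ≤ eul (n + 2) k := by
    intro n hn ih k hk1 hk2
    have hn' : (6 : ℤ) ≤ n := by exact_mod_cast hn
    have u0 : |dd n 0| ≤ 1 := by have := hE n 0; rw [eul_zero] at this; exact_mod_cast this
    have ul : |dd n (n - 1)| ≤ 1 := by
      have := hE n (n - 1); rw [eul_last n (by omega)] at this; exact_mod_cast this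
    have un : |dd n n| ≤ 0 := by
      have := hE n n; rw [eul_n n (by omega)] at this; exact_mod_cast this
    have a1 : (n : ℤ) ^ 2 ≤ eul n 1 := by exact_mod_cast eul_one_ge n hn
    have ap : (n : ℤ) ^ 2 ≤ eul n (n - 2) := by exact_mod_cast eul_pen_ge n hn
    rcases k with _ | _ | k
    · omega
    · -- k = 1
      rw [zero_add, eul_two_one]
      have hd : dd (n + 2) 1 = 2 * dd n 1 + ((n : ℤ) - 1) * dd n 0 := by rw [dd]
      have h1 : |dd (n + 2) 1| ≤ 2 * |dd n 1| + ((n : ℤ) - 1) * |dd n 0| := by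
        rw [hd]
        refine (abs_add_le _ _).trans (le_of_eq ?_)
        rw [abs_mul, abs_mul, abs_of_nonneg (by linarith : (0 : ℤ) ≤ n - 1)]
        norm_num
      have h2 := ih 1 (by omega) (by omega)
      have h3 := term n 3 2 |dd n 1| (eul n 1) (abs_nonneg _) (by norm_num) h2 (by linarith)
      have h4 : ((n : ℤ) - 1) * |dd n 0| ≤ (n : ℤ) - 1 := q2 _ _ hn' u0
      have h6 := q1 _ _ hn' a1
      have h5 : ((n : ℤ) + 2) * |dd (n + 2) 1| ≤
          ((n : ℤ) + 2) * (2 * |dd n 1|) + ((n : ℤ) + 2) * ((n : ℤ) - 1) := by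
        have := mul_le_mul_of_nonneg_left (h1.trans (add_le_add_right h4 (2 * |dd n 1|)))
          (by linarith : (0 : ℤ) ≤ (n : ℤ) + 2)
        linarith
      linarith
    · have hd : dd (n + 2) (k + 2) = ((k : ℤ) + 3) * dd n (k + 2) +
          ((n : ℤ) - 2 * k - 3) * dd n (k + 1) - ((n : ℤ) - k) * dd n k := by rw [dd]
      have hkn : (k : ℤ) + 2 ≤ n := by exact_mod_cast (by omega : k + 2 ≤ n)
      have hk0 : (0 : ℤ) ≤ k := by positivity
      have h1 : |dd (n + 2) (k + 2)| ≤ ((k : ℤ) + 3) * |dd n (k + 2)| +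
          |(n : ℤ) - 2 * k - 3| * |dd n (k + 1)| + ((n : ℤ) - k) * |dd n k| := by
        rw [hd]
        refine (abs_sub _ _).trans ?_
        rw [abs_mul ((n : ℤ) - k), abs_of_nonneg (by linarith : (0 : ℤ) ≤ (n : ℤ) - k)]
        refine add_le_add_left ((abs_add_le _ _).trans (le_of_eq ?_)) _
        rw [abs_mul, abs_mul, abs_of_nonneg (by linarith : (0 : ℤ) ≤ (k : ℤ) + 3)]
      have h2 := eul_two n k
      rw [show n + 1 - (k + 1) = n - k by omega, Nat.cast_sub (by omega : k + 1 ≤ n),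
        Nat.cast_sub (by omega : k ≤ n)] at h2
      push_cast at h2
      have h0 : ((n : ℤ) + 2) * |dd (n + 2) (k + 2)| ≤
          ((n : ℤ) + 2) * (((k : ℤ) + 3) * |dd n (k + 2)|) +
          ((n : ℤ) + 2) * (|(n : ℤ) - 2 * k - 3| * |dd n (k + 1)|) +
          ((n : ℤ) + 2) * (((n : ℤ) - k) * |dd n k|) := by
        have := mul_le_mul_of_nonneg_left h1 (by linarith : (0 : ℤ) ≤ (n : ℤ) + 2)
        linarith
      rw [h2]
      refine h0.trans ?_
      rcases Nat.eq_zero_or_pos k with hk | hk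
      · -- K = 2
        subst hk
        have e1 := ih 1 (by omega) (by omega)
        have e2 := ih 2 (by omega) (by omega)
        rw [eul_zero]
        push_cast
        have t1 := term n 9 3 |dd n 2| (eul n 2) (abs_nonneg _) (by norm_num) e2 (by linarith)
        have t2 := term n (n - 1) (n - 3) |dd n 1| (eul n 1) (abs_nonneg _) (by linarith) e1
          (q3 _ hn')
        have t3 : ((n : ℤ) + 2) * (n * |dd n 0|) ≤ ((n : ℤ) + 2) * n :=
          mul_le_mul_of_nonneg_left (q2' _ _ hn' u0) (by linarith)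
        have hab : |(n : ℤ) - 2 * 0 - 3| = n - 3 := by
          rw [abs_of_nonneg (by linarith)]; ring
        have t4 : 2 * (n : ℤ) ≤ (4 * n - 2) * eul n 1 := q4 _ _ hn' a1
        simp only [sub_zero, mul_zero, mul_one] at hab ⊢
        rw [hab]
        linarith
      rcases Nat.lt_or_ge (k + 4) (n + 1) with h | h
      · -- middle
        have e0 := ih k hk (by omega)
        have e1 := ih (k + 1) (by omega) (by omega)
        have e2 := ih (k + 2) (by omega) (by omega)
        have hk1' : (1 : ℤ) ≤ k := by exact_mod_cast hk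
        have hy : (k : ℤ) + 4 ≤ n := by exact_mod_cast (by omega : k + 4 ≤ n)
        have t1 := term n (((k : ℤ) + 3) ^ 2) ((k : ℤ) + 3) |dd n (k + 2)| (eul n (k + 2))
          (abs_nonneg _) (by positivity) e2 (q5 _ _ hn' hk1')
        have t3 := term n (((n : ℤ) - k) * ((n : ℤ) - k)) ((n : ℤ) - k) |dd n k| (eul n k)
          (abs_nonneg _) (q10 _ _ hk0 hkn) e0 (q6 _ _ hn' hy)
        have t2 := term n (((k : ℤ) + 3) * ((n : ℤ) - (k + 1)) + ((n : ℤ) - k) * (k + 2))
          |(n : ℤ) - 2 * k - 3| |dd n (k + 1)| (eul n (k + 1)) (abs_nonneg _) (q9 _ _ hk0 hkn) e1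
          (q8 _ _ _ hn' (abs_nonneg _) (q7 _ _ hk1' hy))
        linarith
      · rcases Nat.lt_or_ge (k + 3) (n + 1) with h' | h'
        · -- K = n - 1
          have hkk : n = k + 3 := by omega
          have e1 := ih k hk (by omega)
          have e2 := ih (k + 1) (by omega) (by omega)
          have c1 : (n : ℤ) = k + 3 := by exact_mod_cast hkk
          have ul' : |dd n (k + 2)| ≤ 1 := by
            rw [show k + 2 = n - 1 by omega]; exact ul
          have al : (eul n (k + 2) : ℤ) = 1 := by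
            rw [show k + 2 = n - 1 by omega, eul_last n (by omega)]; norm_num
          have ap' : (n : ℤ) ^ 2 ≤ eul n (k + 1) := by
            rw [show k + 1 = n - 2 by omega]; exact ap
          rw [al]
          have t1 := term n 9 3 |dd n k| (eul n k) (abs_nonneg _) (by norm_num) e1 (by linarith)
          have t2 := term n (n - 1) (n - 3) |dd n (k + 1)| (eul n (k + 1)) (abs_nonneg _)
            (by linarith) e2 (q3 _ hn')
          have t3 : ((n : ℤ) + 2) * (((k : ℤ) + 3) * |dd n (k + 2)|) ≤ ((n : ℤ) + 2) * n := by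
            rw [← c1]
            exact mul_le_mul_of_nonneg_left (q2' _ _ hn' ul') (by linarith)
          have hab : |(n : ℤ) - 2 * k - 3| = n - 3 := by
            rw [c1, show (k : ℤ) + 3 - 2 * k - 3 = -k by ring, abs_neg, abs_of_nonneg hk0]; ring
          rw [hab]
          have t4 : 2 * (n : ℤ) ≤ (4 * n - 2) * eul n (k + 1) := q4 _ _ hn' ap'
          have c2 : (n : ℤ) - k = 3 := by linarith
          have c3 : (n : ℤ) - (k + 1) = 2 := by linarith
          have c4 : (k : ℤ) + 3 = n := by linarith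
          have c5 : (k : ℤ) + 2 = n - 1 := by linarith
          rw [c4] at t3
          rw [c2, c3, c4, c5]
          linarith
        · -- K = n
          have hkk : n = k + 2 := by omega
          have e1 := ih k hk (by omega)
          have c1 : (n : ℤ) = k + 2 := by exact_mod_cast hkk
          have ul' : |dd n (k + 1)| ≤ 1 := by
            rw [show k + 1 = n - 1 by omega]; exact ul
          have al : (eul n (k + 1) : ℤ) = 1 := by
            rw [show k + 1 = n - 1 by omega, eul_last n (by omega)]; norm_num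
          have un' : |dd n (k + 2)| ≤ 0 := by
            rw [show k + 2 = n by omega]; exact un
          have an' : (eul n (k + 2) : ℤ) = 0 := by
            rw [show k + 2 = n by omega, eul_n n (by omega)]; norm_num
          have ap' : (n : ℤ) ^ 2 ≤ eul n k := by
            rw [show k = n - 2 by omega]; exact ap
          rw [al, an']
          have t1 := term n 3 2 |dd n k| (eul n k) (abs_nonneg _) (by norm_num) e1 (by linarith)
          have hab : |(n : ℤ) - 2 * k - 3| = n - 1 := by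
            rw [c1, show (k : ℤ) + 2 - 2 * k - 3 = -(k + 1) by ring, abs_neg,
              abs_of_nonneg (by linarith)]; ring
          rw [hab]
          have t3 : ((n : ℤ) + 2) * (((n : ℤ) - 1) * |dd n (k + 1)|) ≤ ((n : ℤ) + 2) * (n - 1) :=
            mul_le_mul_of_nonneg_left (q2 _ _ hn' ul') (by linarith)
          have h6 := q1 _ _ hn' ap'
          have t5 : |dd n (k + 2)| = 0 := le_antisymm un' (abs_nonneg _)
          rw [t5]
          have c2 : (n : ℤ) - k = 2 := by linarith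
          have c3 : (n : ℤ) - (k + 1) = 1 := by linarith
          have c4 : (k : ℤ) + 3 = n + 1 := by linarith
          have c5 : (k : ℤ) + 2 = n := by linarith
          rw [c2, c3, c4, c5]
          linarith
  intro n hn
  have both : ∀ m : ℕ, 6 ≤ m → (∀ k : ℕ, 1 ≤ k → k + 2 ≤ m → (m : ℤ) * |dd m k| ≤ eul m k) ∧
      (∀ k : ℕ, 1 ≤ k → k + 2 ≤ m + 1 → ((m : ℤ) + 1) * |dd (m + 1) k| ≤ eul (m + 1) k) := by
    intro m hm
    induction m, hm using Nat.le_induction with
    | base =>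
      constructor
      · intro k h1 h2
        have : k = 1 ∨ k = 2 ∨ k = 3 ∨ k = 4 := by omega
        rcases this with rfl | rfl | rfl | rfl <;> decide +kernel
      · intro k h1 h2
        have : k = 1 ∨ k = 2 ∨ k = 3 ∨ k = 4 ∨ k = 5 := by omega
        rcases this with rfl | rfl | rfl | rfl | rfl <;> decide +kernel
    | succ m hm ih =>
      refine ⟨fun k h1 h2 => by push_cast; exact ih.2 k h1 h2, fun k h1 h2 => ?_⟩
      have := key m hm ih.1 k h1 (by omega)
      push_cast
      rw [show (m : ℤ) + 1 + 1 = m + 2 by ring]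
      exact this
  exact (both n hn).1

theorem choose_bound : ∀ n : ℕ, 6 ≤ n → ∀ k : ℕ, 1 ≤ k → k + 2 ≤ n →
    n * (n - 1).choose k ≤ eul n k := by
  intro n hn
  induction n, hn using Nat.le_induction with
  | base =>
    intro k h1 h2
    have : k = 1 ∨ k = 2 ∨ k = 3 ∨ k = 4 := by omega
    rcases this with rfl | rfl | rfl | rfl <;> decide +kernel
  | succ n hn ih =>
    intro k h1 h2
    obtain ⟨k, rfl⟩ := Nat.exists_eq_add_of_le' h1
    rw [eul_succ, show n + 1 - 1 = n by omega]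
    obtain ⟨m, rfl⟩ := Nat.exists_eq_add_of_le' (by omega : 1 ≤ n)
    rw [Nat.choose_succ_succ, Nat.succ_eq_add_one]
    have ha1 := eul_one_ge (m + 1) hn
    rcases Nat.eq_zero_or_pos k with hk | hk
    · subst hk
      rw [eul_zero]
      simp only [Nat.choose_zero_right, zero_add, Nat.choose_one_right, Nat.sub_zero, mul_one]
      nlinarith
    · have e0 := ih k hk (by omega)
      rw [show m + 1 - 1 = m by omega] at e0
      obtain ⟨d, hd⟩ := Nat.exists_eq_add_of_le (by omega : k + 2 ≤ m + 1)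
      rw [show m + 1 - k = d + 2 by omega]
      have t2 : (m + 1 + 1) * m.choose k ≤ (d + 2) * eul (m + 1) k := by
        calc (m + 1 + 1) * m.choose k ≤ (d + 2) * ((m + 1) * m.choose k) := by
              nlinarith [Nat.zero_le (m.choose k), Nat.zero_le (m * m.choose k),
                Nat.zero_le (d * (m + 1) * m.choose k)]
          _ ≤ _ := Nat.mul_le_mul_left _ e0
      rcases Nat.lt_or_ge (k + 3) (m + 2) with h | h
      · have e1 := ih (k + 1) (by omega) (by omega)
        rw [show m + 1 - 1 = m by omega] at e1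
        have t1 : (m + 1 + 1) * m.choose (k + 1) ≤ (k + 2) * eul (m + 1) (k + 1) := by
          calc (m + 1 + 1) * m.choose (k + 1) ≤ (k + 2) * ((m + 1) * m.choose (k + 1)) := by
                nlinarith [Nat.zero_le (m.choose (k + 1)), Nat.zero_le (m * m.choose (k + 1)),
                  Nat.zero_le (k * (m + 1) * m.choose (k + 1))]
            _ ≤ _ := Nat.mul_le_mul_left _ e1
        rw [Nat.mul_add]
        linarith
      · have hk2 : k + 1 = m := by omega
        have hd0 : d = 0 := by omega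
        subst hd0
        have hp := eul_pen_ge (m + 1) hn
        rw [show m + 1 - 2 = k by omega] at hp
        rw [hk2, Nat.choose_self, eul_top]
        have : m.choose k = m := by
          rw [← hk2, Nat.choose_succ_self_right]
        rw [this]
        nlinarith

end Pool.Agent.R136.Sync
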