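import Pool.Agent.R136.Sync2

set_option autoImplicit false

/-!
The main inequality for sequences close to one half of the Eulerian numbers.
-/

namespace Pool.Agent.R136.Sync

lemma low (N x b : ℤ) (h : N * |2 * x - b| ≤ b) (hN : 0 ≤ N) : (N - 1) * b ≤ N * (2 * x) := by
  have h1 : -(|2 * x - b|) ≤ 2 * x - b := neg_abs_le _
  have h2 := mul_le_mul_of_nonneg_left h1 hN
  linarith

lemma upp (N x b : ℤ) (h : N * |2 * x - b| ≤ b) (hN : 0 ≤ N) : N * (2 * x) ≤ (N + 1) * b := by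
  have h1 : 2 * x - b ≤ |2 * x - b| := le_abs_self _
  have h2 := mul_le_mul_of_nonneg_left h1 hN
  linarith

lemma mid_ineq (N k x y z a b c : ℤ) (hN : 1 ≤ N) (hk : 0 ≤ k) (hk2 : k ≤ N - 1)
    (hb : 0 ≤ b) (hy0 : 0 ≤ y) (hz0 : 0 ≤ z) (ha : 0 ≤ a)
    (hx : (N - 1) * b ≤ N * (2 * x)) (hy : N * (2 * y) ≤ (N + 1) * a)
    (hz : N * (2 * z) ≤ (N + 1) * c)
    (hs : (k + 1) * (N - k) * (a * c) ≤ k * (N - 1 - k) * b ^ 2) : y * z ≤ x ^ 2 := by
  have h1 : ((N - 1) * b) ^ 2 ≤ (N * (2 * x)) ^ 2 := by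
    apply pow_le_pow_left₀ _ hx
    exact mul_nonneg (by linarith) hb
  have h2 : N * (2 * y) * (N * (2 * z)) ≤ (N + 1) * a * ((N + 1) * c) := by
    apply mul_le_mul hy hz
    · exact mul_nonneg (by linarith) (by linarith)
    · exact mul_nonneg (by linarith) ha
  set M := k * (N - 1 - k) with hM
  have hM0 : 0 ≤ M := mul_nonneg hk (by linarith)
  have e1 : (k + 1) * (N - k) = M + N := by rw [hM]; ring
  rw [e1] at hs
  have hMN : 0 < M + N := by linarith
  have h3 : 4 * M ≤ (N - 1) ^ 2 := by rw [hM]; nlinarith [sq_nonneg (N - 1 - 2 * k)]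
  have h4 : (N + 1) ^ 2 * M ≤ (N - 1) ^ 2 * (M + N) := by
    have := mul_le_mul_of_nonneg_left h3 (by linarith : 0 ≤ N)
    nlinarith
  have h5 : (M + N) * (N * (2 * y) * (N * (2 * z))) ≤ (M + N) * (N * (2 * x)) ^ 2 := by
    calc (M + N) * (N * (2 * y) * (N * (2 * z)))
        ≤ (M + N) * ((N + 1) * a * ((N + 1) * c)) := mul_le_mul_of_nonneg_left h2 hMN.le
      _ = (N + 1) ^ 2 * ((M + N) * (a * c)) := by ring
      _ ≤ (N + 1) ^ 2 * (M * b ^ 2) := mul_le_mul_of_nonneg_left hs (sq_nonneg _)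
      _ = (N + 1) ^ 2 * M * b ^ 2 := by ring
      _ ≤ (N - 1) ^ 2 * (M + N) * b ^ 2 := mul_le_mul_of_nonneg_right h4 (sq_nonneg _)
      _ = (M + N) * ((N - 1) * b) ^ 2 := by ring
      _ ≤ (M + N) * (N * (2 * x)) ^ 2 := mul_le_mul_of_nonneg_left h1 hMN.le
  have h6 : N * (2 * y) * (N * (2 * z)) ≤ (N * (2 * x)) ^ 2 := le_of_mul_le_mul_left h5 hMN
  have h7 : (4 * N ^ 2) * (y * z) ≤ (4 * N ^ 2) * x ^ 2 := by
    calc (4 * N ^ 2) * (y * z) = N * (2 * y) * (N * (2 * z)) := by ring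
      _ ≤ (N * (2 * x)) ^ 2 := h6
      _ = _ := by ring
  exact le_of_mul_le_mul_left h7 (by positivity)

lemma end_ineq (N x y z b c : ℤ) (hN : 6 ≤ N) (hb : 0 ≤ b) (hy : y ≤ 1)
    (hz0 : 0 ≤ z) (hc0 : 0 ≤ c)
    (hx : (N - 1) * b ≤ N * (2 * x)) (hz : N * (2 * z) ≤ (N + 1) * c)
    (hs : 4 * c ≤ b ^ 2) : y * z ≤ x ^ 2 := by
  have h1 : ((N - 1) * b) ^ 2 ≤ (N * (2 * x)) ^ 2 := by
    apply pow_le_pow_left₀ _ hx
    exact mul_nonneg (by linarith) hb
  have h2 : y * z ≤ z := by nlinarith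
  have h3 : N * (N + 1) ≤ 2 * (N - 1) ^ 2 := by nlinarith
  have h4 : (4 * N ^ 2) * z ≤ (4 * N ^ 2) * x ^ 2 := by
    calc (4 * N ^ 2) * z = 2 * N * (N * (2 * z)) := by ring
      _ ≤ 2 * N * ((N + 1) * c) := mul_le_mul_of_nonneg_left hz (by linarith)
      _ = N * (N + 1) * (2 * c) := by ring
      _ ≤ 2 * (N - 1) ^ 2 * (2 * c) := mul_le_mul_of_nonneg_right h3 (by linarith)
      _ = (N - 1) ^ 2 * (4 * c) := by ring
      _ ≤ (N - 1) ^ 2 * b ^ 2 := mul_le_mul_of_nonneg_left hs (sq_nonneg _)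
      _ = ((N - 1) * b) ^ 2 := by ring
      _ ≤ (N * (2 * x)) ^ 2 := h1
      _ = _ := by ring
  exact h2.trans (le_of_mul_le_mul_left h4 (by positivity))

/-- `u` is close to one half of the Eulerian numbers -/
def Good (n : ℕ) (u : ℕ → ℕ) : Prop :=
  (∀ k, u k ≤ eul n k) ∧ ∀ k, 1 ≤ k → k + 2 ≤ n →
    (n : ℤ) * |2 * (u k : ℤ) - eul n k| ≤ eul n k

theorem good_ineq (n j : ℕ) (hn : 6 ≤ n) (hj : j + 3 ≤ n) (u v w : ℕ → ℕ) (hu : Good n u)
    (hv : Good n v) (hw : Good n w) : v j * w (j + 2) ≤ u (j + 1) ^ 2 := by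
  have hN : (6 : ℤ) ≤ n := by exact_mod_cast hn
  have hx := low n (u (j + 1)) (eul n (j + 1)) (hu.2 (j + 1) (by omega) (by omega)) (by linarith)
  rcases Nat.eq_zero_or_pos j with h0 | h0
  · subst h0
    have hz := upp n (w 2) (eul n 2) (hw.2 2 (by omega) (by omega)) (by linarith)
    have hy : (v 0 : ℤ) ≤ 1 := by
      have := hv.1 0; rw [eul_zero] at this; exact_mod_cast this
    have hs : 4 * (eul n 2 : ℤ) ≤ (eul n 1 : ℤ) ^ 2 := by exact_mod_cast eul_sq n (by omega)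
    have := end_ineq n (u 1) (v 0) (w 2) (eul n 1) (eul n 2) hN (by positivity) hy (by positivity)
      (by positivity) hx hz hs
    exact_mod_cast this
  · rcases Nat.lt_or_ge (j + 3) n with h1 | h1
    · have hy := upp n (v j) (eul n j) (hv.2 j h0 (by omega)) (by linarith)
      have hz := upp n (w (j + 2)) (eul n (j + 2)) (hw.2 (j + 2) (by omega) (by omega)) (by linarith)
      obtain ⟨m, rfl⟩ := Nat.exists_eq_add_of_le' (by omega : 1 ≤ n)
      have hs := eul_slc m j (by omega)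
      have hs' : (((j + 1 : ℕ) : ℤ) + 1) * (((m + 1 : ℕ) : ℤ) - (j + 1 : ℕ)) *
          ((eul (m + 1) j : ℤ) * eul (m + 1) (j + 2)) ≤
          ((j + 1 : ℕ) : ℤ) * (((m + 1 : ℕ) : ℤ) - 1 - (j + 1 : ℕ)) * (eul (m + 1) (j + 1) : ℤ) ^ 2 := by
        obtain ⟨d, rfl⟩ := Nat.exists_eq_add_of_le (by omega : j + 1 ≤ m)
        rw [show j + 1 + d + 1 - (j + 1) = d + 1 by omega, show j + 1 + d - (j + 1) = d by omega] at hs
        have h3 := (Int.ofNat_le).mpr hs
        push_cast at h3 ⊢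
        have e1 : (j : ℤ) + 1 + d + 1 - (j + 1) = d + 1 := by ring
        have e2 : (j : ℤ) + 1 + d + 1 - 1 - (j + 1) = d := by ring
        rw [e1, e2]
        linarith
      have := mid_ineq (m + 1 : ℕ) (j + 1 : ℕ) (u (j + 1)) (v j) (w (j + 2)) (eul (m + 1) j)
        (eul (m + 1) (j + 1)) (eul (m + 1) (j + 2)) (by linarith) (by positivity)
        (by push_cast; have : (j : ℤ) + 3 < (m : ℤ) + 1 := (by exact_mod_cast h1)
            linarith)
        (by positivity) (by positivity) (by positivity) (by positivity) hx hy hz hs'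
      exact_mod_cast this
    · have hjn : j + 3 = n := by omega
      have hy := upp n (v j) (eul n j) (hv.2 j h0 (by omega)) (by linarith)
      have hz : (w (j + 2) : ℤ) ≤ 1 := by
        have := hw.1 (j + 2)
        rw [show j + 2 = n - 1 by omega, eul_last n (by omega)] at this
        rw [show j + 2 = n - 1 by omega]
        exact_mod_cast this
      have hs : 4 * (eul n j : ℤ) ≤ (eul n (j + 1) : ℤ) ^ 2 := by
        have h2 := eul_sq n (by omega)
        obtain ⟨m, rfl⟩ := Nat.exists_eq_add_of_le' (by omega : 1 ≤ n)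
        have s1 := eul_symm m 1 (by omega)
        have s2 := eul_symm m 2 (by omega)
        rw [show m - 1 = j + 1 by omega] at s1
        rw [show m - 2 = j by omega] at s2
        rw [s1, s2]
        exact_mod_cast h2
      have := end_ineq n (u (j + 1)) (w (j + 2)) (v j) (eul n (j + 1)) (eul n j) hN
        (by positivity) hz (by positivity) (by positivity) hx hy hs
      rw [mul_comm]
      exact_mod_cast this

/-- Two sequences `a_0, ..., a_N` and `b_0, ..., b_N` are strongly synchronised. -/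
def StronglySync (N : ℕ) (a b : ℕ → ℕ) : Prop :=
  ∀ k, 1 ≤ k → k + 1 ≤ N →
    max (a (k - 1)) (b (k - 1)) * max (a (k + 1)) (b (k + 1)) ≤ min (a k) (b k) ^ 2

theorem sync_of_good (n : ℕ) (hn : 6 ≤ n) (u v : ℕ → ℕ) (hu : Good n u) (hv : Good n v) :
    StronglySync (n - 1) u v := by
  intro k hk1 hk2
  obtain ⟨j, rfl⟩ := Nat.exists_eq_add_of_le' hk1
  rw [show j + 1 - 1 = j by omega, show j + 1 + 1 = j + 2 by ring]
  have key : ∀ x y z : ℕ → ℕ, Good n x → Good n y → Good n z → y j * z (j + 2) ≤ x (j + 1) ^ 2 :=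
    fun x y z hx hy hz => good_ineq n j hn (by omega) x y z hx hy hz
  rcases le_total (u (j + 1)) (v (j + 1)) with h1 | h1 <;>
  rcases le_total (u j) (v j) with h2 | h2 <;>
  rcases le_total (u (j + 2)) (v (j + 2)) with h3 | h3 <;>
  simp only [h1, h2, h3, min_eq_left, min_eq_right, max_eq_left, max_eq_right]
  · exact key _ _ _ hu hv hv
  · exact key _ _ _ hu hv hu
  · exact key _ _ _ hu hu hv
  · exact key _ _ _ hu hu hu
  · exact key _ _ _ hv hv hv
  · exact key _ _ _ hv hv hu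
  · exact key _ _ _ hv hu hv
  · exact key _ _ _ hv hu hu

/-- sequences given by a sum and a difference -/
lemma good_of (n : ℕ) (u v : ℕ → ℕ) (e : ℕ → ℤ) (h1 : ∀ k, u k + v k = eul n k)
    (h2 : ∀ k, (u k : ℤ) - v k = e k) (h3 : ∀ k, 1 ≤ k → k + 2 ≤ n → (n : ℤ) * |e k| ≤ eul n k) :
    Good n u ∧ Good n v := by
  refine ⟨⟨fun k => by have := h1 k; omega, fun k hk1 hk2 => ?_⟩,
    ⟨fun k => by have := h1 k; omega, fun k hk1 hk2 => ?_⟩⟩
  · have a1 := h1 k
    have a2 := h2 k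
    have : 2 * (u k : ℤ) - eul n k = e k := by
      rw [← a1, ← a2]; push_cast; ring
    rw [this]; exact h3 k hk1 hk2
  · have a1 := h1 k
    have a2 := h2 k
    have : 2 * (v k : ℤ) - eul n k = -e k := by
      rw [← a1, ← a2]; push_cast; ring
    rw [this, abs_neg]; exact h3 k hk1 hk2

end Pool.Agent.R136.Sync
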