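import Pool.Agent.R136.InvCount
import Pool.Agent.R136.Sync3

set_option autoImplicit false

/-!
Descents on even and odd permutations: generating functions.
-/

namespace Pool.Agent.R136.Sync

open PowerSeries Pool.Agent.R136.InvGF

/-- `∑ (m+1)^p X^m` -/
noncomputable def TT (p : ℕ) : ℚ⟦X⟧ := PowerSeries.mk (fun m => ((m : ℚ) + 1) ^ p)

lemma TT_succ (p : ℕ) : TT (p + 1) = TT p + X * d⁄dX ℚ (TT p) := by
  ext m
  rw [map_add]
  cases m with
  | zero => simp [TT]
  | succ m =>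
    rw [coeff_succ_X_mul, coeff_derivative]
    simp only [TT, coeff_mk]
    push_cast
    ring

lemma TT_zero : TT 0 = gg := by
  ext m
  simp [TT, coeff_gg]

lemma D_one_sub (n : ℕ) : d⁄dX ℚ ((1 - X : ℚ⟦X⟧) ^ (n + 1)) = -((n : ℚ⟦X⟧) + 1) * (1 - X) ^ n := by
  rw [derivative_pow, map_sub, derivative_X]
  simp only [Derivation.map_one_eq_zero, zero_sub]
  push_cast
  ring

/-- the operator raising the exponent -/
lemma raise (T U : ℚ⟦X⟧) (n : ℕ) (h : U = T * (1 - X) ^ (n + 1)) :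
    (T + X * d⁄dX ℚ T) * (1 - X) ^ (n + 2) =
      (1 + (n : ℚ⟦X⟧) * X) * U + X * (1 - X) * d⁄dX ℚ U := by
  have hD : d⁄dX ℚ U = T * (-((n : ℚ⟦X⟧) + 1) * (1 - X) ^ n) + (1 - X) ^ (n + 1) * d⁄dX ℚ T := by
    rw [h, Derivation.leibniz, D_one_sub]
    simp only [smul_eq_mul]
  rw [hD, h]
  ring

/-- Eulerian polynomials -/
noncomputable def EE (n : ℕ) : ℚ⟦X⟧ := PowerSeries.mk (fun k => (eul n k : ℚ))

/-- signed Eulerian polynomials -/
noncomputable def DD (n : ℕ) : ℚ⟦X⟧ := PowerSeries.mk (fun k => (dd n k : ℚ))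

lemma EE_succ (n : ℕ) : EE (n + 1) = (1 + (n : ℚ⟦X⟧) * X) * EE n + X * (1 - X) * d⁄dX ℚ (EE n) := by
  have e : (1 + (n : ℚ⟦X⟧) * X) * EE n + X * (1 - X) * d⁄dX ℚ (EE n) =
      EE n + X * ((n : ℚ⟦X⟧) * EE n + d⁄dX ℚ (EE n) - X * d⁄dX ℚ (EE n)) := by ring
  rw [e]
  have hn : (n : ℚ⟦X⟧) = C (n : ℚ) := by simp
  ext k
  rw [map_add]
  cases k with
  | zero => simp [EE, eul_succ_zero]
  | succ k =>
    rw [coeff_succ_X_mul, map_sub, map_add, coeff_derivative, hn, coeff_C_mul]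
    have hx : coeff k (X * d⁄dX ℚ (EE n)) = (k : ℚ) * eul n k := by
      cases k with
      | zero => simp
      | succ k =>
        rw [coeff_succ_X_mul, coeff_derivative]
        simp only [EE, coeff_mk]
        push_cast
        ring
    rw [hx]
    simp only [EE, coeff_mk, eul_succ]
    rcases Nat.lt_or_ge n k with h | h
    · rw [eul_big n k h, eul_big n (k + 1) (by omega)]
      simp
    · push_cast [Nat.cast_sub h]
      ring

theorem EE_eq (n : ℕ) : EE n = TT n * (1 - X) ^ (n + 1) := by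
  induction n with
  | zero =>
    rw [TT_zero, zero_add, pow_one, gg_mul]
    ext k
    cases k with
    | zero => simp [EE, eul]
    | succ k => simp [EE, eul, coeff_one]
  | succ n ih =>
    rw [EE_succ, TT_succ, raise _ _ _ ih]

lemma DD_succ (n : ℕ) : DD (n + 2) =
    (1 - X) * ((1 + (n : ℚ⟦X⟧) * X) * DD n + X * (1 - X) * d⁄dX ℚ (DD n)) := by
  have e : (1 - X) * ((1 + (n : ℚ⟦X⟧) * X) * DD n + X * (1 - X) * d⁄dX ℚ (DD n)) =
      DD n + X * (((n : ℚ⟦X⟧) - 1) * DD n - X * ((n : ℚ⟦X⟧) * DD n) +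
        (d⁄dX ℚ (DD n) - X * (2 * d⁄dX ℚ (DD n)) + X * (X * d⁄dX ℚ (DD n)))) := by ring
  rw [e]
  have hn : (n : ℚ⟦X⟧) = C (n : ℚ) := by simp
  have hn1 : (n : ℚ⟦X⟧) - 1 = C ((n : ℚ) - 1) := by simp
  have h2 : (2 : ℚ⟦X⟧) = C (2 : ℚ) := (map_ofNat C 2).symm
  rw [hn1, hn, h2]
  generalize hc : (n : ℚ) - 1 = c
  generalize hd : (2 : ℚ) = d
  ext k
  rw [map_add (coeff k)]
  rcases k with _ | _ | k
  · simp [DD, dd]
  · rw [coeff_succ_X_mul, map_add (coeff _), map_sub (coeff _), map_add (coeff _), map_sub (coeff _)]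
    simp only [coeff_zero_X_mul, coeff_C_mul, coeff_derivative]
    simp only [DD, coeff_mk, dd]
    rw [← hc]
    push_cast
    ring
  · rw [coeff_succ_X_mul, map_add (coeff _), map_sub (coeff _), map_add (coeff _), map_sub (coeff _)]
    rw [coeff_succ_X_mul, coeff_succ_X_mul, coeff_succ_X_mul]
    have hx : coeff k (X * d⁄dX ℚ (DD n)) = (k : ℚ) * dd n k := by
      cases k with
      | zero => simp
      | succ k =>
        rw [coeff_succ_X_mul, coeff_derivative]
        simp only [DD, coeff_mk]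
        push_cast
        ring
    rw [hx]
    simp only [coeff_C_mul, coeff_derivative]
    simp only [DD, coeff_mk, dd]
    rw [← hc, ← hd]
    push_cast
    ring

theorem DD_eq (n : ℕ) : DD n = TT ((n + 1) / 2) * (1 - X) ^ (n + 1) := by
  induction n using Nat.twoStepInduction with
  | zero =>
    rw [show (0 + 1) / 2 = 0 by norm_num, TT_zero, zero_add, pow_one, gg_mul]
    ext k
    cases k with
    | zero => simp [DD, dd]
    | succ k => simp [DD, dd, coeff_one]
  | one =>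
    rw [show (1 + 1) / 2 = 0 + 1 by norm_num, TT_succ, TT_zero, D_gg]
    have : (gg + X * gg ^ 2) * (1 - X) ^ (1 + 1) = 1 := by
      linear_combination ((1 - X) + X * (gg * (1 - X) + 1)) * gg_mul
    rw [this]
    ext k
    cases k with
    | zero => simp [DD, dd]
    | succ k => simp [DD, dd, coeff_one]
  | more n ih _ =>
    rw [show (n + 2 + 1) / 2 = (n + 1) / 2 + 1 by omega, TT_succ, DD_succ,
      ← raise _ _ _ ih]
    ring

end Pool.Agent.R136.Sync
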