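import Pool.Agent.R136.Sync4

set_option autoImplicit false

/-!
Descents on even and odd permutations: sorting words.
-/

namespace Pool.Agent.R136.Sync

open PowerSeries Pool.Agent.R136.InvGF Pool.Agent.R136.Inv

/-- descent positions -/
def DesP {n : ℕ} (π : Equiv.Perm (Fin n)) : Finset (Fin n) :=
  Finset.univ.filter (fun j => ∃ _ : j.val ≠ 0, π j < π ⟨j.val - 1, by omega⟩)

lemma mem_DesP {n : ℕ} (π : Equiv.Perm (Fin n)) (j : Fin n) :
    j ∈ DesP π ↔ ∃ h : j.val ≠ 0, π j < π ⟨j.val - 1, by omega⟩ := by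
  simp [DesP]

lemma sort_iff {n : ℕ} (f : Fin n → ℕ) (π : Equiv.Perm (Fin n)) :
    Tuple.sort f = π ↔ Comp (DesP π) (fun i => f (π i)) := by
  rw [eq_comm, Tuple.eq_sort_iff]
  constructor
  · rintro ⟨hm, ht⟩ j
    by_cases h0 : j.val = 0
    · have h1 : j ∉ DesP π := by
        rw [mem_DesP]; rintro ⟨h, _⟩; exact h h0
      rw [if_neg h1]
      unfold prev
      rw [dif_pos h0]
      exact Nat.zero_le _
    · have hlt : (⟨j.val - 1, by omega⟩ : Fin n) < j := by
        rw [Fin.lt_def]; simp only; omega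
      have h2 : f (π ⟨j.val - 1, by omega⟩) ≤ f (π j) := hm hlt.le
      unfold prev
      rw [dif_neg h0]
      split_ifs with h3
      · rw [mem_DesP] at h3
        obtain ⟨_, h3⟩ := h3
        have h4 : f (π ⟨j.val - 1, by omega⟩) ≠ f (π j) := by
          intro h5
          exact absurd (ht _ _ hlt h5) (not_lt.mpr h3.le)
        exact Nat.lt_of_le_of_ne h2 h4
      · exact h2
  · intro hC
    have key : ∀ (d i : ℕ) (hi : i < n) (hd : i + d + 1 < n),
        f (π ⟨i, hi⟩) ≤ f (π ⟨i + d + 1, hd⟩) ∧
        (f (π ⟨i, hi⟩) = f (π ⟨i + d + 1, hd⟩) → π ⟨i, hi⟩ < π ⟨i + d + 1, hd⟩) := by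
      intro d
      induction d with
      | zero =>
        intro i hi hd
        have h1 := hC ⟨i + 0 + 1, hd⟩
        unfold prev at h1
        rw [dif_neg (by simp)] at h1
        have h2 : (⟨(⟨i + 0 + 1, hd⟩ : Fin n).val - 1, by simp only; omega⟩ : Fin n) = ⟨i, hi⟩ := by
          apply Fin.ext; simp
        rw [h2] at h1
        dsimp only at h1
        split_ifs at h1 with h3
        · exact ⟨by omega, fun h => by omega⟩
        · refine ⟨h1, fun _ => ?_⟩
          rw [mem_DesP] at h3
          push Not at h3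
          have h4 := h3 (by simp)
          rw [h2] at h4
          refine lt_of_le_of_ne h4 ?_
          intro h5
          have := π.injective h5
          rw [Fin.ext_iff] at this
          simp only at this
          omega
      | succ d ih =>
        intro i hi hd
        have h1 := ih i hi (by omega)
        have h2 := hC ⟨i + (d + 1) + 1, hd⟩
        unfold prev at h2
        rw [dif_neg (by simp)] at h2
        have h3 : (⟨(⟨i + (d + 1) + 1, hd⟩ : Fin n).val - 1, by simp only; omega⟩ : Fin n) =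
            ⟨i + d + 1, by omega⟩ := by
          apply Fin.ext; simp only; omega
        rw [h3] at h2
        dsimp only at h2
        split_ifs at h2 with h4
        · exact ⟨by omega, fun h => by omega⟩
        · refine ⟨by omega, fun h => ?_⟩
          rw [mem_DesP] at h4
          push Not at h4
          have h5 := h4 (by simp)
          rw [h3] at h5
          exact lt_of_lt_of_le (h1.2 (by omega)) h5
    have key2 : ∀ i j : Fin n, i < j → f (π i) ≤ f (π j) ∧ (f (π i) = f (π j) → π i < π j) := by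
      intro i j hij
      rw [Fin.lt_def] at hij
      have h1 := key (j.val - i.val - 1) i.val i.isLt (by omega)
      have h2 : (⟨i.val + (j.val - i.val - 1) + 1, by omega⟩ : Fin n) = j := by
        apply Fin.ext; simp only; omega
      rw [h2] at h1
      exact h1
    refine ⟨?_, fun i j hij h => (key2 i j hij).2 h⟩
    intro i j hij
    rcases hij.eq_or_lt with h | h
    · subst h; exact le_refl _
    · exact (key2 i j h).1

lemma card_sort {n : ℕ} (m : ℕ) (π : Equiv.Perm (Fin n)) :
    (Finset.univ.filter (fun f : Fin n → Fin (m + 1) =>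
      Tuple.sort (fun i => (f i).val) = π)).card = cnt (DesP π) m := by
  unfold cnt
  refine Finset.card_bij' (fun f _ => fun x => (f (π x)).val)
    (fun a ha => fun x => ⟨a (π.symm x), ?_⟩) ?_ ?_ ?_ ?_
  · rw [Finset.mem_filter, mem_box] at ha
    exact Nat.lt_succ_of_le (ha.1 _)
  · intro f hf
    rw [Finset.mem_filter] at hf ⊢
    refine ⟨?_, (sort_iff _ _).mp hf.2⟩
    rw [mem_box]
    intro j
    exact Nat.le_of_lt_succ (f (π j)).isLt
  · intro a ha
    rw [Finset.mem_filter] at ha ⊢
    refine ⟨Finset.mem_univ _, ?_⟩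
    rw [sort_iff]
    simpa using ha.2
  · intro f _
    funext x
    apply Fin.ext
    simp
  · intro a _
    funext x
    simp

lemma sum_sort {n : ℕ} (m : ℕ) (w : Equiv.Perm (Fin n) → ℚ) :
    ∑ π : Equiv.Perm (Fin n), w π * cnt (DesP π) m =
      ∑ f : Fin n → Fin (m + 1), w (Tuple.sort (fun i => (f i).val)) := by
  rw [← Finset.sum_fiberwise (s := Finset.univ)
    (g := fun f : Fin n → Fin (m + 1) => Tuple.sort (fun i => (f i).val))]
  apply Finset.sum_congr rfl
  intro π _
  rw [← card_sort, mul_comm, ← nsmul_eq_mul, ← Finset.sum_const]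
  apply Finset.sum_congr rfl
  intro f hf
  rw [Finset.mem_filter] at hf
  rw [hf.2]

/-- sign attached to a word -/
def sgnw {n : ℕ} (f : Fin n → ℕ) : ℚ := ∏ i, ∏ j ∈ Finset.Ioi i, if f i ≤ f j then 1 else -1

lemma sign_sort {n : ℕ} (f : Fin n → ℕ) : ((Equiv.Perm.sign (Tuple.sort f) : ℤ) : ℚ) = sgnw f := by
  obtain ⟨hm, ht⟩ := Tuple.eq_sort_iff.mp (rfl : Tuple.sort f = Tuple.sort f)
  set σ := Tuple.sort f with hσ
  rw [← Equiv.Perm.sign_inv, Equiv.Perm.sign_eq_prod_prod_Ioi]
  unfold sgnw
  push_cast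
  apply Finset.prod_congr rfl
  intro i _
  apply Finset.prod_congr rfl
  intro j hj
  rw [Finset.mem_Ioi] at hj
  have h : (σ⁻¹ i < σ⁻¹ j) ↔ f i ≤ f j := by
    constructor
    · intro h
      have := hm h.le
      simpa using this
    · intro h
      by_contra h1
      have h2 : σ⁻¹ j < σ⁻¹ i := by
        refine lt_of_le_of_ne (not_lt.mp h1) ?_
        intro h3
        exact absurd (σ⁻¹.injective h3) (ne_of_gt hj)
      have ei : ∀ x, σ (σ⁻¹ x) = x := fun x => by simp
      have h3 := hm h2.le
      simp only [Function.comp_apply, ei] at h3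
      have h4 := ht _ _ h2 (by
        rw [ei, ei]; exact le_antisymm h3 h)
      rw [ei, ei] at h4
      exact absurd h4 (not_lt.mpr hj.le)
  by_cases h1 : f i ≤ f j
  · rw [if_pos h1, if_pos (h.mpr h1)]; simp
  · rw [if_neg h1, if_neg (fun h2 => h1 (h.mp h2))]; simp

lemma sum_cons {M β : Type*} [AddCommMonoid M] [Fintype β] {n : ℕ} (F : (Fin (n + 1) → β) → M) :
    ∑ f : Fin (n + 1) → β, F f = ∑ a : β, ∑ g : Fin n → β, F (Fin.cons a g) := by
  rw [← (Fin.consEquiv (fun _ => β)).sum_comp, Fintype.sum_prod_type]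
  rfl

/-- comparison sign -/
def ss (a b : ℕ) : ℚ := if a ≤ b then 1 else -1

lemma ss_sq (a b : ℕ) : ss a b * ss a b = 1 := by
  unfold ss; split_ifs <;> norm_num

lemma sgnw_cons {n m : ℕ} (a : Fin m) (g : Fin n → Fin m) :
    sgnw (fun i => ((Fin.cons a g : Fin (n + 1) → Fin m) i).val) =
      (∏ j, ss a (g j)) * sgnw (fun i => (g i).val) := by
  unfold sgnw
  rw [Fin.prod_univ_succ, Fin.prod_Ioi_zero]
  congr 1
  · apply Finset.prod_congr rfl
    intro i _
    rw [Fin.prod_Ioi_succ]
    simp

/-- sum of the signs -/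
def SW (n m : ℕ) : ℚ := ∑ f : Fin n → Fin (m + 1), sgnw (fun i => (f i).val)

lemma SW_zero (m : ℕ) : SW 0 m = 1 := by
  simp [SW, sgnw]

lemma SW_one (m : ℕ) : SW 1 m = m + 1 := by
  simp [SW, sgnw]

lemma SW_succ (n m : ℕ) : SW (n + 2) m = (m + 1) * SW n m := by
  set G : Fin (m + 1) → Fin (m + 1) → ℚ := fun a b =>
    ∑ g : Fin n → Fin (m + 1), (∏ j, ss a (g j)) * (∏ j, ss b (g j)) * sgnw (fun i => (g i).val)
    with hG
  have e1 : SW (n + 2) m = ∑ a : Fin (m + 1), ∑ b : Fin (m + 1), ss a b * G a b := by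
    unfold SW
    rw [sum_cons]
    apply Finset.sum_congr rfl
    intro a _
    rw [sum_cons]
    apply Finset.sum_congr rfl
    intro b _
    rw [hG, Finset.mul_sum]
    apply Finset.sum_congr rfl
    intro g _
    rw [sgnw_cons, sgnw_cons, Fin.prod_univ_succ]
    simp only [Fin.cons_zero, Fin.cons_succ]
    ring
  have hsymm : ∀ a b, G a b = G b a := by
    intro a b
    rw [hG]
    apply Finset.sum_congr rfl
    intro g _
    ring
  have hdiag : ∀ a, G a a = SW n m := by
    intro a
    rw [hG]
    unfold SW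
    apply Finset.sum_congr rfl
    intro g _
    rw [← Finset.prod_mul_distrib]
    simp only [ss_sq, Finset.prod_const_one, one_mul]
  have e2 : ∑ a : Fin (m + 1), ∑ b : Fin (m + 1), ss a b * G a b =
      ∑ a : Fin (m + 1), ∑ b : Fin (m + 1), ss b a * G a b := by
    rw [Finset.sum_comm]
    apply Finset.sum_congr rfl
    intro a _
    apply Finset.sum_congr rfl
    intro b _
    rw [hsymm]
  have e3 : 2 * SW (n + 2) m = 2 * ((m + 1) * SW n m) := by
    calc 2 * SW (n + 2) m = ∑ a : Fin (m + 1), ∑ b : Fin (m + 1), ss a b * G a b +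
          ∑ a : Fin (m + 1), ∑ b : Fin (m + 1), ss b a * G a b := by
          rw [← e2, ← e1]; ring
      _ = ∑ a : Fin (m + 1), ∑ b : Fin (m + 1), (if a = b then 2 * G a b else 0) := by
          rw [← Finset.sum_add_distrib]
          apply Finset.sum_congr rfl
          intro a _
          rw [← Finset.sum_add_distrib]
          apply Finset.sum_congr rfl
          intro b _
          unfold ss
          by_cases h : a = b
          · subst h; simp; ring
          · rw [if_neg h]
            have h' : a.val ≠ b.val := fun h2 => h (Fin.ext h2)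
            rcases lt_or_gt_of_ne h' with h3 | h3
            · rw [if_pos h3.le, if_neg (not_le.mpr h3)]; ring
            · rw [if_neg (not_le.mpr h3), if_pos h3.le]; ring
      _ = ∑ a : Fin (m + 1), 2 * SW n m := by
          apply Finset.sum_congr rfl
          intro a _
          rw [Finset.sum_ite_eq]
          simp [hdiag]
      _ = _ := by
          rw [Finset.sum_const, Finset.card_univ, Fintype.card_fin]
          simp only [nsmul_eq_mul]
          push_cast
          ring
  linarith

lemma SW_eq (m : ℕ) : ∀ n, SW n m = ((m : ℚ) + 1) ^ ((n + 1) / 2) := by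
  intro n
  induction n using Nat.twoStepInduction with
  | zero => rw [SW_zero]; norm_num
  | one => rw [SW_one]; norm_num
  | more n ih _ =>
    rw [SW_succ, ih, show (n + 2 + 1) / 2 = (n + 1) / 2 + 1 by omega, pow_succ]
    ring

lemma series_eq {n : ℕ} (w : Equiv.Perm (Fin n) → ℚ) (T : ℚ⟦X⟧)
    (h : ∀ m, ∑ f : Fin n → Fin (m + 1), w (Tuple.sort (fun i => (f i).val)) = coeff m T) :
    ∑ π : Equiv.Perm (Fin n), C (w π) * X ^ (DesP π).card = T * (1 - X) ^ (n + 1) := by
  have h1 : (∑ π : Equiv.Perm (Fin n), C (w π) * X ^ (DesP π).card) * gg ^ (n + 1) = T := by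
    rw [Finset.sum_mul]
    have h2 : ∀ π : Equiv.Perm (Fin n), C (w π) * X ^ (DesP π).card * gg ^ (n + 1) =
        C (w π) * PowerSeries.mk (fun m => (cnt (DesP π) m : ℚ)) := by
      intro π
      rw [cnt_series]
      ring
    rw [Finset.sum_congr rfl (fun π _ => h2 π)]
    ext m
    rw [map_sum, ← h m, ← sum_sort]
    simp only [coeff_C_mul, coeff_mk]
  rw [← h1, mul_assoc, ← mul_pow, gg_mul, one_pow, mul_one]

/-- sums over permutations with `k` descents -/
lemma coeff_sum {n : ℕ} (w : Equiv.Perm (Fin n) → ℚ) (k : ℕ) :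
    coeff k (∑ π : Equiv.Perm (Fin n), C (w π) * X ^ (DesP π).card : ℚ⟦X⟧) =
      ∑ π ∈ Finset.univ.filter (fun π : Equiv.Perm (Fin n) => (DesP π).card = k), w π := by
  rw [map_sum, Finset.sum_filter]
  apply Finset.sum_congr rfl
  intro π _
  rw [coeff_C_mul, coeff_X_pow]
  by_cases h : k = (DesP π).card
  · rw [if_pos h, if_pos h.symm, mul_one]
  · rw [if_neg h, if_neg (fun h2 => h h2.symm), mul_zero]

theorem des_sum (n k : ℕ) :
    (((Finset.univ.filter (fun π : Equiv.Perm (Fin n) => (DesP π).card = k)).card : ℕ) : ℚ) =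
      eul n k := by
  have h1 := series_eq (n := n) (fun _ => 1) (TT n) (by
    intro m
    rw [Finset.sum_const, Finset.card_univ]
    simp [TT])
  have h2 := coeff_sum (n := n) (fun _ => 1) k
  rw [h1, ← EE_eq] at h2
  simp only [EE, coeff_mk, Finset.sum_const, nsmul_eq_mul, mul_one] at h2
  exact h2.symm

theorem des_sign (n k : ℕ) :
    ∑ π ∈ Finset.univ.filter (fun π : Equiv.Perm (Fin n) => (DesP π).card = k),
      ((Equiv.Perm.sign π : ℤ) : ℚ) = dd n k := by
  have h1 := series_eq (n := n) (fun π => ((Equiv.Perm.sign π : ℤ) : ℚ)) (TT ((n + 1) / 2)) (by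
    intro m
    simp only [sign_sort]
    have := SW_eq m n
    unfold SW at this
    rw [this]
    simp [TT])
  have h2 := coeff_sum (n := n) (fun π => ((Equiv.Perm.sign π : ℤ) : ℚ)) k
  rw [h1, ← DD_eq] at h2
  simp only [DD, coeff_mk] at h2
  exact h2.symm

end Pool.Agent.R136.Sync
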