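import Pool.Agent.R136.Sync5

set_option autoImplicit false

/-!
Excedances on even and odd permutations.
-/

namespace Pool.Agent.R136.Sync

/-- number of excedances -/
def exc {n : ℕ} (π : Equiv.Perm (Fin n)) : ℕ := (Finset.univ.filter (fun i : Fin n => i < π i)).card

lemma exc_sum {n : ℕ} (π : Equiv.Perm (Fin n)) : exc π = ∑ i : Fin n, if i < π i then 1 else 0 := by
  unfold exc
  rw [Finset.card_filter]

lemma exc_zero {n : ℕ} (e : Equiv.Perm (Fin n)) :
    exc (Equiv.Perm.decomposeFin.symm (0, e)) = exc e := by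
  rw [exc_sum, exc_sum, Fin.sum_univ_succ]
  simp [Equiv.Perm.decomposeFin_symm_apply_zero, Equiv.Perm.decomposeFin_symm_apply_succ]

lemma exc_succ {n : ℕ} (q : Fin n) (e : Equiv.Perm (Fin n)) :
    exc (Equiv.Perm.decomposeFin.symm (q.succ, e)) + (if e⁻¹ q < q then 1 else 0) = exc e + 1 := by
  rw [exc_sum, exc_sum, Fin.sum_univ_succ]
  rw [Equiv.Perm.decomposeFin_symm_apply_zero, if_pos (Fin.succ_pos q)]
  have h1 : ∀ x : Fin n, (if x.succ < (Equiv.Perm.decomposeFin.symm (q.succ, e)) x.succ then 1 else 0) =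
      if e x = q then 0 else if x < e x then 1 else 0 := by
    intro x
    rw [Equiv.Perm.decomposeFin_symm_apply_succ]
    by_cases h : e x = q
    · rw [h, Equiv.swap_apply_right, if_pos rfl, if_neg (by simp)]
    · rw [Equiv.swap_apply_of_ne_of_ne (Fin.succ_ne_zero _) (fun h2 => h (Fin.succ_injective _ h2)),
        if_neg h]
      simp
  rw [Finset.sum_congr rfl (fun x _ => h1 x)]
  have h2 : (if e⁻¹ q < q then 1 else 0) = ∑ x : Fin n, if e x = q then (if x < e x then 1 else 0) else 0 := by
    rw [Finset.sum_eq_single (e⁻¹ q)]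
    · simp
    · intro b _ hb
      rw [if_neg]
      intro h; apply hb; rw [← h]; simp
    · simp
  rw [h2, add_assoc, ← Finset.sum_add_distrib, add_comm]
  congr 1
  apply Finset.sum_congr rfl
  intro x _
  by_cases h : e x = q
  · rw [if_pos h, if_pos h, zero_add]
  · rw [if_neg h, if_neg h, add_zero]

lemma card_exc_val {n : ℕ} (e : Equiv.Perm (Fin n)) :
    (Finset.univ.filter (fun q : Fin n => e⁻¹ q < q)).card = exc e := by
  unfold exc
  refine Finset.card_bij' (fun q _ => e⁻¹ q) (fun x _ => e x) ?_ ?_ ?_ ?_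
  · intro q hq
    simpa using hq
  · intro x hx
    simpa using hx
  · intro q _; simp
  · intro x _; simp

/-- weighted number of permutations with `k` excedances -/
def EX (n : ℕ) (w : Equiv.Perm (Fin n) → ℤ) (k : ℕ) : ℤ :=
  ∑ π : Equiv.Perm (Fin n), if exc π = k then w π else 0

lemma EX_succ (n : ℕ) (ε : ℤ) (w : Equiv.Perm (Fin n) → ℤ) (w' : Equiv.Perm (Fin (n + 1)) → ℤ)
    (h0 : ∀ e, w' (Equiv.Perm.decomposeFin.symm (0, e)) = w e)
    (h1 : ∀ (q : Fin n) (e), w' (Equiv.Perm.decomposeFin.symm (q.succ, e)) = ε * w e) (k : ℕ) :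
    EX (n + 1) w' (k + 1) = (1 + ε * (k + 1)) * EX n w (k + 1) + ε * ((n : ℤ) - k) * EX n w k ∧
    EX (n + 1) w' 0 = EX n w 0 := by
  have key : ∀ (e : Equiv.Perm (Fin n)) (l : ℕ), ∑ q : Fin n,
      (if exc (Equiv.Perm.decomposeFin.symm (q.succ, e)) = l then
        w' (Equiv.Perm.decomposeFin.symm (q.succ, e)) else 0) =
      ε * w e * ((exc e : ℤ) * (if exc e = l then 1 else 0) +
        ((n : ℤ) - exc e) * (if exc e + 1 = l then 1 else 0)) := by
    intro e l
    have e1 : ∀ q : Fin n, (if exc (Equiv.Perm.decomposeFin.symm (q.succ, e)) = l then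
        w' (Equiv.Perm.decomposeFin.symm (q.succ, e)) else 0) =
        ε * w e * ((if e⁻¹ q < q then 1 else 0) * (if exc e = l then 1 else 0) +
          (1 - (if e⁻¹ q < q then 1 else 0)) * (if exc e + 1 = l then 1 else 0)) := by
      intro q
      have h2 := exc_succ q e
      rw [h1]
      by_cases h3 : e⁻¹ q < q
      · rw [if_pos h3] at h2
        have h4 : exc (Equiv.Perm.decomposeFin.symm (q.succ, e)) = exc e := by omega
        rw [h4, if_pos h3]
        split_ifs <;> ring
      · rw [if_neg h3] at h2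
        have h4 : exc (Equiv.Perm.decomposeFin.symm (q.succ, e)) = exc e + 1 := by omega
        rw [h4, if_neg h3]
        split_ifs <;> ring
    rw [Finset.sum_congr rfl (fun q _ => e1 q), ← Finset.mul_sum, Finset.sum_add_distrib,
      ← Finset.sum_mul, ← Finset.sum_mul, Finset.sum_sub_distrib]
    have e2 : ∑ q : Fin n, (if e⁻¹ q < q then (1 : ℤ) else 0) = exc e := by
      rw [← card_exc_val, Finset.card_filter]
      push_cast
      rfl
    rw [e2]
    simp
  have main : ∀ l, EX (n + 1) w' l = ∑ e : Equiv.Perm (Fin n), ((if exc e = l then w e else 0) +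
      ε * w e * ((exc e : ℤ) * (if exc e = l then 1 else 0) +
        ((n : ℤ) - exc e) * (if exc e + 1 = l then 1 else 0))) := by
    intro l
    unfold EX
    rw [← Equiv.Perm.decomposeFin.symm.sum_comp, Fintype.sum_prod_type, Finset.sum_comm]
    apply Finset.sum_congr rfl
    intro e _
    rw [Fin.sum_univ_succ, key, exc_zero, h0]
  constructor
  · rw [main]
    unfold EX
    rw [Finset.mul_sum, Finset.mul_sum, ← Finset.sum_add_distrib]
    apply Finset.sum_congr rfl
    intro e _
    by_cases h2 : exc e = k + 1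
    · rw [if_pos h2, if_pos h2, if_neg (by omega), if_neg (by omega), h2]
      push_cast; ring
    · rw [if_neg h2, if_neg h2]
      by_cases h3 : exc e = k
      · rw [if_pos (by omega), if_pos h3, h3]; ring
      · rw [if_neg (by omega), if_neg h3]; ring
  · rw [main]
    unfold EX
    apply Finset.sum_congr rfl
    intro e _
    by_cases h2 : exc e = 0
    · rw [if_pos h2, if_pos h2, if_neg (by omega), h2]; simp
    · rw [if_neg h2, if_neg h2, if_neg (by omega)]; simp

theorem exc_total (n : ℕ) : ∀ k, EX n (fun _ => 1) k = eul n k := by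
  induction n with
  | zero =>
    intro k
    unfold EX
    have : ∀ π : Equiv.Perm (Fin 0), exc π = 0 := fun π => by simp [exc]
    simp only [this, Finset.sum_const, Finset.card_univ]
    cases k with
    | zero => simp [eul]
    | succ k => simp [eul]
  | succ n ih =>
    intro k
    have h := fun k => EX_succ n 1 (fun _ => 1) (fun _ => 1) (fun _ => rfl) (fun _ _ => by simp) k
    cases k with
    | zero => rw [(h 0).2, ih, eul_succ_zero]
    | succ k =>
      rw [(h k).1, ih, ih, eul_succ]
      rcases Nat.lt_or_ge n k with h2 | h2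
      · rw [eul_big n k h2, eul_big n (k + 1) (by omega)]; simp
      · push_cast [Nat.cast_sub h2]; ring

theorem exc_sign (n : ℕ) : ∀ k, EX (n + 1) (fun π => (Equiv.Perm.sign π : ℤ)) k =
    (-1) ^ k * (n.choose k : ℤ) := by
  have hs0 : ∀ (n : ℕ) (e : Equiv.Perm (Fin n)),
      ((Equiv.Perm.sign (Equiv.Perm.decomposeFin.symm (0, e)) : ℤˣ) : ℤ) = Equiv.Perm.sign e := by
    intro n e
    rw [Equiv.Perm.decomposeFin.symm_sign]; simp
  have hs1 : ∀ (n : ℕ) (q : Fin n) (e : Equiv.Perm (Fin n)),
      ((Equiv.Perm.sign (Equiv.Perm.decomposeFin.symm (q.succ, e)) : ℤˣ) : ℤ) =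
        -1 * (Equiv.Perm.sign e : ℤ) := by
    intro n q e
    rw [Equiv.Perm.decomposeFin.symm_sign, if_neg (Fin.succ_ne_zero q)]; simp
  induction n with
  | zero =>
    intro k
    have h := fun k => EX_succ 0 (-1) (fun π => (Equiv.Perm.sign π : ℤ)) (fun π => (Equiv.Perm.sign π : ℤ))
      (hs0 0) (hs1 0) k
    have h0 : ∀ k, EX 0 (fun π => (Equiv.Perm.sign π : ℤ)) k = if k = 0 then 1 else 0 := by
      intro k
      unfold EX
      have : ∀ π : Equiv.Perm (Fin 0), exc π = 0 := fun π => by simp [exc]
      simp only [this]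
      cases k with
      | zero => simp
      | succ k => simp
    cases k with
    | zero => rw [(h 0).2, h0]; simp
    | succ k =>
      rw [(h k).1, h0, h0]
      cases k with
      | zero => simp
      | succ k => simp
  | succ n ih =>
    intro k
    have h := fun k => EX_succ (n + 1) (-1) (fun π => (Equiv.Perm.sign π : ℤ))
      (fun π => (Equiv.Perm.sign π : ℤ)) (hs0 _) (hs1 _) k
    cases k with
    | zero => rw [(h 0).2, ih]; simp
    | succ k =>
      rw [(h k).1, ih, ih, Nat.choose_succ_succ]
      have h3 : ((k : ℤ) + 1) * (n.choose (k + 1) : ℤ) = ((n : ℤ) - k) * n.choose k := by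
        rcases Nat.lt_or_ge n k with h4 | h4
        · rw [Nat.choose_eq_zero_of_lt h4, Nat.choose_eq_zero_of_lt (by omega)]; simp
        · have h5 := Nat.choose_succ_right_eq n k
          have h6 : ((n.choose (k + 1) * (k + 1) : ℕ) : ℤ) = ((n.choose k * (n - k) : ℕ) : ℤ) := by
            rw [h5]
          push_cast [Nat.cast_sub h4] at h6
          linarith
      push_cast
      rw [pow_succ]
      linear_combination (-1) ^ k * h3

end Pool.Agent.R136.Sync
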