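import Pool.Agent.R136.Sync6

set_option autoImplicit false

/-!
Counts of even and odd permutations by descents and by excedances.
-/

namespace Pool.Agent.R136.Sync

/-- number of descents: positions `i` with a next position and `π (i+1) < π i` -/
def des {n : ℕ} (π : Equiv.Perm (Fin n)) : ℕ :=
  (Finset.univ.filter (fun i : Fin n => ∃ h : i.val + 1 < n, π ⟨i.val + 1, h⟩ < π i)).card

/-- even permutations of `Fin n` with `k` descents -/
def APlus (n k : ℕ) : ℕ :=
  (Finset.univ.filter (fun π : Equiv.Perm (Fin n) => Equiv.Perm.sign π = 1 ∧ des π = k)).card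

/-- odd permutations of `Fin n` with `k` descents -/
def AMinus (n k : ℕ) : ℕ :=
  (Finset.univ.filter (fun π : Equiv.Perm (Fin n) => Equiv.Perm.sign π = -1 ∧ des π = k)).card

/-- even permutations of `Fin n` with `k` excedances -/
def PP (n k : ℕ) : ℕ :=
  (Finset.univ.filter (fun π : Equiv.Perm (Fin n) => Equiv.Perm.sign π = 1 ∧ exc π = k)).card

/-- odd permutations of `Fin n` with `k` excedances -/
def QQ (n k : ℕ) : ℕ :=
  (Finset.univ.filter (fun π : Equiv.Perm (Fin n) => Equiv.Perm.sign π = -1 ∧ exc π = k)).card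

lemma des_eq {n : ℕ} (π : Equiv.Perm (Fin n)) : des π = (DesP π).card := by
  unfold des DesP
  refine Finset.card_bij' (fun i hi => ⟨i.val + 1, ?_⟩) (fun j _ => ⟨j.val - 1, by omega⟩) ?_ ?_ ?_ ?_
  · simp only [Finset.mem_filter] at hi
    exact hi.2.1
  · intro i hi
    simp only [Finset.mem_filter, Finset.mem_univ, true_and] at hi ⊢
    obtain ⟨h1, h2⟩ := hi
    exact ⟨by omega, h2⟩
  · intro j hj
    simp only [Finset.mem_filter, Finset.mem_univ, true_and] at hj ⊢
    obtain ⟨h1, h2⟩ := hj
    refine ⟨by omega, ?_⟩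
    have : (⟨j.val - 1 + 1, by omega⟩ : Fin n) = j := Fin.ext (by simp only; omega)
    rw [this]
    exact h2
  · intro i _
    apply Fin.ext; simp
  · intro j hj
    simp only [Finset.mem_filter, Finset.mem_univ, true_and] at hj
    obtain ⟨h1, h2⟩ := hj
    apply Fin.ext; simp only; omega

/-- counting by sign, for any statistic -/
lemma split_count {n : ℕ} (s : Equiv.Perm (Fin n) → ℕ) (k : ℕ) :
    (((Finset.univ.filter (fun π : Equiv.Perm (Fin n) => Equiv.Perm.sign π = 1 ∧ s π = k)).card : ℤ) +
      (Finset.univ.filter (fun π : Equiv.Perm (Fin n) => Equiv.Perm.sign π = -1 ∧ s π = k)).card =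
      ∑ π : Equiv.Perm (Fin n), if s π = k then 1 else 0) ∧
    (((Finset.univ.filter (fun π : Equiv.Perm (Fin n) => Equiv.Perm.sign π = 1 ∧ s π = k)).card : ℤ) -
      (Finset.univ.filter (fun π : Equiv.Perm (Fin n) => Equiv.Perm.sign π = -1 ∧ s π = k)).card =
      ∑ π : Equiv.Perm (Fin n), if s π = k then (Equiv.Perm.sign π : ℤ) else 0) := by
  rw [Finset.card_filter, Finset.card_filter]
  push_cast
  constructor
  · rw [← Finset.sum_add_distrib]
    apply Finset.sum_congr rfl
    intro π _
    rcases Int.units_eq_one_or (Equiv.Perm.sign π) with h | h <;> rw [h] <;>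
      by_cases h2 : s π = k <;> simp [h2]
  · rw [← Finset.sum_sub_distrib]
    apply Finset.sum_congr rfl
    intro π _
    rcases Int.units_eq_one_or (Equiv.Perm.sign π) with h | h <;> rw [h] <;>
      by_cases h2 : s π = k <;> simp [h2]

lemma A_add (n k : ℕ) : APlus n k + AMinus n k = eul n k := by
  have h1 := (split_count (n := n) des k).1
  have h2 := des_sum n k
  have h3 : ((APlus n k : ℤ) + AMinus n k : ℤ) = eul n k := by
    unfold APlus AMinus
    rw [h1, Finset.sum_boole]
    simp only [des_eq]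
    exact_mod_cast h2
  exact_mod_cast h3

lemma A_sub (n k : ℕ) : (APlus n k : ℤ) - AMinus n k = dd n k := by
  have h1 := (split_count (n := n) des k).2
  have h2 := des_sign n k
  rw [Finset.sum_filter] at h2
  unfold APlus AMinus
  rw [h1]
  simp only [des_eq]
  exact_mod_cast h2

lemma P_add (n k : ℕ) : PP n k + QQ n k = eul n k := by
  have h1 := (split_count (n := n) exc k).1
  have h2 := exc_total n k
  unfold EX at h2
  have h3 : ((PP n k : ℤ) + QQ n k : ℤ) = eul n k := by
    unfold PP QQ
    rw [h1, h2]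
  exact_mod_cast h3

lemma P_sub (n k : ℕ) : (PP (n + 1) k : ℤ) - QQ (n + 1) k = (-1) ^ k * (n.choose k : ℤ) := by
  have h1 := (split_count (n := n + 1) exc k).2
  have h2 := exc_sign n k
  unfold EX at h2
  unfold PP QQ
  rw [h1, h2]

lemma dd_le (n k : ℕ) : |dd n k| ≤ eul n k := by
  rw [← A_sub, ← A_add, abs_le]
  push_cast
  constructor <;> linarith [Int.natCast_nonneg (APlus n k), Int.natCast_nonneg (AMinus n k)]

lemma good_A (n : ℕ) (hn : 6 ≤ n) : Good n (APlus n) ∧ Good n (AMinus n) :=
  good_of n _ _ (dd n) (A_add n) (A_sub n) (fun k h1 h2 => dd_bound dd_le n hn k h1 h2)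

lemma good_P (n : ℕ) (hn : 6 ≤ n) : Good n (PP n) ∧ Good n (QQ n) := by
  obtain ⟨m, rfl⟩ := Nat.exists_eq_add_of_le' (by omega : 1 ≤ n)
  refine good_of (m + 1) _ _ (fun k => (-1) ^ k * (m.choose k : ℤ)) (P_add _) (P_sub _) ?_
  intro k h1 h2
  have h3 := choose_bound (m + 1) hn k h1 h2
  rw [abs_mul, abs_pow, abs_neg, abs_one, one_pow, one_mul, abs_of_nonneg (by positivity)]
  rw [Nat.add_sub_cancel] at h3
  exact_mod_cast h3

/-- the two sequences for small `n` -/
def sA (n k : ℕ) : ℕ := (((eul n k : ℤ) + dd n k) / 2).toNat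
def sB (n k : ℕ) : ℕ := (((eul n k : ℤ) - dd n k) / 2).toNat
def sP (n k : ℕ) : ℕ := (((eul n k : ℤ) + (-1) ^ k * ((n - 1).choose k : ℤ)) / 2).toNat
def sQ (n k : ℕ) : ℕ := (((eul n k : ℤ) - (-1) ^ k * ((n - 1).choose k : ℤ)) / 2).toNat

lemma sA_eq (n k : ℕ) : APlus n k = sA n k := by
  unfold sA
  rw [← A_add, ← A_sub]
  push_cast
  omega

lemma sB_eq (n k : ℕ) : AMinus n k = sB n k := by
  unfold sB
  rw [← A_add, ← A_sub]
  push_cast
  omega

lemma sP_eq (n k : ℕ) : PP (n + 1) k = sP (n + 1) k := by
  unfold sP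
  rw [← P_add, Nat.add_sub_cancel, ← P_sub]
  push_cast
  omega

lemma sQ_eq (n k : ℕ) : QQ (n + 1) k = sQ (n + 1) k := by
  unfold sQ
  rw [← P_add, Nat.add_sub_cancel, ← P_sub]
  push_cast
  omega

theorem sync_A (n : ℕ) (hn : 1 ≤ n) : StronglySync (n - 1) (APlus n) (AMinus n) := by
  rcases Nat.lt_or_ge n 6 with h | h
  · intro k h1 h2
    simp only [sA_eq, sB_eq]
    interval_cases n <;> first | omega | (have hk : k ≤ 3 := by omega
                                          interval_cases k <;> first | omega | decide +kernel)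
  · exact sync_of_good n h _ _ (good_A n h).1 (good_A n h).2

theorem sync_AP (n : ℕ) (hn : 1 ≤ n) : StronglySync (n - 1) (APlus n) (PP n) := by
  rcases Nat.lt_or_ge n 6 with h | h
  · intro k h1 h2
    obtain ⟨m, rfl⟩ := Nat.exists_eq_add_of_le' hn
    simp only [sA_eq, sP_eq]
    have hm : m < 5 := by omega
    interval_cases m <;> first | omega | (have hk : k ≤ 3 := by omega
                                          interval_cases k <;> first | omega | decide +kernel)
  · exact sync_of_good n h _ _ (good_A n h).1 (good_P n h).1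

theorem sync_AQ (n : ℕ) (hn : 1 ≤ n) : StronglySync (n - 1) (AMinus n) (QQ n) := by
  rcases Nat.lt_or_ge n 6 with h | h
  · intro k h1 h2
    obtain ⟨m, rfl⟩ := Nat.exists_eq_add_of_le' hn
    simp only [sB_eq, sQ_eq]
    have hm : m < 5 := by omega
    interval_cases m <;> first | omega | (have hk : k ≤ 3 := by omega
                                          interval_cases k <;> first | omega | decide +kernel)
  · exact sync_of_good n h _ _ (good_A n h).2 (good_P n h).2

end Pool.Agent.R136.Sync
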