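import Pool.Agent.R497.TB.Defs

/-!
# TB-BGR: from the grid boxes with a cutoff to all boxes

Adapted from `Pool/Agent/Y86/MC/NiceC.lean` (`det_box`).
-/

set_option autoImplicit false

namespace Pool.Agent.R136.TB

open MeasureTheory Filter
open Finset hiding box
open Pool.Agent.Y957.MC (box)
open Pool.Agent.R497.TB

theorem mem_box {k : ℕ} {M m : Fin k → ℕ} : m ∈ box M ↔ ∀ l, 1 ≤ m l ∧ m l ≤ M l := by
  unfold box
  rw [Fintype.mem_piFinset]
  refine forall_congr' fun l => ?_
  rw [Finset.mem_Icc]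

theorem card_box {k : ℕ} (M : Fin k → ℕ) : (box M).card = ∏ l, M l := by
  unfold box
  rw [Fintype.card_piFinset]
  refine Finset.prod_congr rfl fun l _ => ?_
  rw [Nat.card_Icc, Nat.add_sub_cancel]

theorem sum_box {k : ℕ} (i : Fin k) (M : Fin k → ℕ) {β : Type*} [AddCommMonoid β]
    (h : (Fin k → ℕ) → β) :
    ∑ m ∈ box M, h m =
      ∑ m ∈ box (Function.update M i 1), ∑ n ∈ Icc 1 (M i), h (Function.update m i n) := by
  rw [← Finset.sum_product']
  refine Finset.sum_bij' (fun m _ => (Function.update m i 1, m i))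
    (fun p _ => Function.update p.1 i p.2) ?_ ?_ ?_ ?_ ?_
  · intro m hm
    rw [mem_box] at hm
    refine Finset.mem_product.2 ⟨mem_box.2 fun l => ?_, Finset.mem_Icc.2 (hm i)⟩
    change 1 ≤ Function.update m i 1 l ∧ Function.update m i 1 l ≤ Function.update M i 1 l
    by_cases hl : l = i
    · subst hl
      rw [Function.update_self, Function.update_self]
      exact ⟨le_rfl, le_rfl⟩
    · rw [Function.update_of_ne hl, Function.update_of_ne hl]
      exact hm l
  · rintro ⟨m, n⟩ hp
    obtain ⟨h1, h2⟩ := Finset.mem_product.1 hp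
    rw [mem_box] at h1
    rw [Finset.mem_Icc] at h2
    refine mem_box.2 fun l => ?_
    change 1 ≤ Function.update m i n l ∧ Function.update m i n l ≤ M l
    by_cases hl : l = i
    · subst hl
      rw [Function.update_self]
      exact h2
    · rw [Function.update_of_ne hl]
      have h3 := h1 l
      rw [Function.update_of_ne hl] at h3
      exact h3
  · intro m _
    change Function.update (Function.update m i 1) i (m i) = m
    rw [Function.update_idem, Function.update_eq_self]
  · rintro ⟨m, n⟩ hp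
    obtain ⟨h1, h2⟩ := Finset.mem_product.1 hp
    have h1' : ∀ l, 1 ≤ m l ∧ m l ≤ Function.update M i 1 l := mem_box.1 h1
    have h3 : m i = 1 := by
      have h4 := h1' i
      rw [Function.update_self] at h4
      omega
    change (Function.update (Function.update m i n) i 1, Function.update m i n i) = (m, n)
    rw [Function.update_idem, Function.update_self]
    congr 1
    rw [← h3, Function.update_eq_self]
  · intro m _
    change h m = h (Function.update (Function.update m i 1) i (m i))
    rw [Function.update_idem, Function.update_eq_self]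

theorem card_split {k : ℕ} (i : Fin k) (M : Fin k → ℕ) :
    ∏ l, M l = (box (Function.update M i 1)).card * M i := by
  rw [← card_box M, Finset.card_eq_sum_ones, sum_box i M]
  simp only [Finset.sum_const, Nat.card_Icc, Nat.add_sub_cancel, smul_eq_mul, mul_one]

theorem exists_root {q : ℕ} (hq : 0 < q) {N : ℕ} (hN : 1 ≤ N) :
    ∃ t : ℕ, (t + 1) ^ q ≤ N ∧ N < (t + 2) ^ q := by
  classical
  have hex : ∃ k, N < (k + 1) ^ q := ⟨N, by
    calc N < N + 1 := Nat.lt_succ_self N
      _ ≤ (N + 1) ^ q := Nat.le_self_pow hq.ne' _⟩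
  have hspec := Nat.find_spec hex
  set s := Nat.find hex with hs
  have hs1 : 0 < s := by
    by_contra hcon
    have h0 : s = 0 := by omega
    rw [h0, zero_add, one_pow] at hspec
    omega
  obtain ⟨l, hkl⟩ : ∃ l, s = l + 1 := ⟨s - 1, by omega⟩
  refine ⟨l, ?_, ?_⟩
  · have h3 := Nat.find_min hex (m := l) (by omega)
    omega
  · rw [hkl] at hspec
    exact hspec

/-- the part of the box below the cutoff -/
theorem small_part {k : ℕ} (i : Fin k) (M : Fin k → ℕ) (s : ℕ) :
    (((box M).filter fun m => ¬ s < m i).card : ℝ) ≤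
      ((box (Function.update M i 1)).card : ℝ) * (s : ℝ) := by
  have h1 : ((box M).filter fun m => ¬ s < m i).card ≤ (box (Function.update M i 1)).card * s := by
    rw [Finset.card_filter, sum_box i M, ← smul_eq_mul, ← Finset.sum_const]
    refine Finset.sum_le_sum fun m _ => ?_
    simp only [Function.update_self]
    rw [← Finset.card_filter]
    calc ((Icc 1 (M i)).filter fun n => ¬ s < n).card ≤ (Icc 1 s).card := by
          refine Finset.card_le_card fun n hn => ?_
          obtain ⟨h2, h3⟩ := Finset.mem_filter.1 hn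
          obtain ⟨h4, _⟩ := Finset.mem_Icc.1 h2
          exact Finset.mem_Icc.2 ⟨h4, not_lt.1 h3⟩
      _ = s := by rw [Nat.card_Icc, Nat.add_sub_cancel]
  exact_mod_cast h1

theorem t_BGR : S_BGR := by
  intro k q c hk hq hc H
  rw [Metric.tendsto_atTop]
  intro η₀ hη₀
  set η := min η₀ 1 / 2 with hη
  have hη0 : 0 < η := by
    have := lt_min hη₀ one_pos
    positivity
  have hη1 : η ≤ 1 := by
    have := min_le_right η₀ 1
    rw [hη]
    linarith
  obtain ⟨j, hj⟩ := exists_nat_one_div_lt (show (0 : ℝ) < η / 4 by positivity)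
  choose T₁' hT₁' using fun i : Fin k => H i j (η / 4) (by positivity)
  obtain ⟨T₁, hT₁⟩ : ∃ T₁ : ℕ, ∀ i, T₁' i ≤ T₁ :=
    ⟨Finset.univ.sup T₁', fun i => Finset.le_sup (f := T₁') (Finset.mem_univ i)⟩
  set ζ : ℝ := η / (4 * ((k : ℝ) + 1)) with hζ
  have hζ0 : 0 < ζ := by positivity
  have hζ1 : ζ ≤ 1 := by
    rw [hζ, div_le_one (by positivity)]
    have : (0 : ℝ) ≤ k := Nat.cast_nonneg k
    linarith
  obtain ⟨T₂, hT₂⟩ := exists_nat_gt ((q : ℝ) / ζ)
  set T := max T₁ T₂ with hT
  have hTT1 : T₁ ≤ T := le_max_left _ _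
  have hTT2 : T₂ ≤ T := le_max_right _ _
  refine ⟨fun _ => (T + 1) ^ q, fun M hM => ?_⟩
  have hTq : 1 ≤ (T + 1) ^ q := Nat.one_le_pow _ _ (Nat.succ_pos _)
  have hM1 : ∀ l, 1 ≤ M l := fun l => hTq.trans (hM l)
  choose t ht1 ht2 using fun l => exists_root hq (hM1 l)
  have htT : ∀ l, T ≤ t l := by
    intro l
    have h1 : (T + 1) ^ q < (t l + 2) ^ q := lt_of_le_of_lt (hM l) (ht2 l)
    have h2 := lt_of_pow_lt_pow_left₀ q (Nat.zero_le _) h1
    omega
  have : Nonempty (Fin k) := ⟨⟨0, hk⟩⟩
  obtain ⟨i, hi⟩ := Finite.exists_max t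
  set M' : Fin k → ℕ := gbx q t with hM'
  have hM'M : ∀ l, M' l ≤ M l := ht1
  have hM'0 : ∀ l, 0 < M' l := fun l => Nat.pow_pos (Nat.succ_pos _)
  set ε : ℝ := 1 / ((j : ℝ) + 1) with hε
  have hε0 : 0 < ε := by positivity
  set P : ℝ := ((∏ l, M l : ℕ) : ℝ) with hP
  set P' : ℝ := ((∏ l, M' l : ℕ) : ℝ) with hP'
  have hP0 : 0 < P := by
    rw [hP]
    exact_mod_cast Finset.prod_pos fun l _ => hM1 l
  have hP'0 : 0 < P' := by
    rw [hP']
    exact_mod_cast Finset.prod_pos fun l _ => hM'0 l
  have hP'P : P' ≤ P := by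
    rw [hP, hP']
    exact_mod_cast Finset.prod_le_prod' fun l _ => hM'M l
  -- the ratio of the volumes
  have hratio : (1 - ζ) ^ k * P ≤ P' := by
    have h1 : ∀ l, (1 - ζ) * (M l : ℝ) ≤ (M' l : ℝ) := by
      intro l
      have h2 : (M l : ℝ) ≤ ((t l : ℝ) + 2) ^ q := by exact_mod_cast (ht2 l).le
      have h3 : (M' l : ℝ) = ((t l : ℝ) + 1) ^ q := by
        rw [hM']
        unfold gbx
        push_cast
        rfl
      have h4 : (1 - ζ) * ((t l : ℝ) + 2) ^ q ≤ ((t l : ℝ) + 1) ^ q := by
        have h5 : ((t l : ℝ) + 1) ^ q = (1 + (-(1 / ((t l : ℝ) + 2)))) ^ q * ((t l : ℝ) + 2) ^ q := by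
          rw [← mul_pow]
          congr 1
          field_simp
          ring
        rw [h5]
        refine mul_le_mul_of_nonneg_right ?_ (by positivity)
        have h6 : (-2 : ℝ) ≤ -(1 / ((t l : ℝ) + 2)) := by
          have h7 : 1 / ((t l : ℝ) + 2) ≤ 1 := by
            rw [div_le_one (by positivity)]
            have : (0 : ℝ) ≤ t l := Nat.cast_nonneg _
            linarith
          linarith
        refine le_trans ?_ (one_add_mul_le_pow h6 q)
        have h8 : (q : ℝ) / ζ ≤ (t l : ℝ) + 2 := by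
          have h9 : (T₂ : ℝ) ≤ t l := by exact_mod_cast hTT2.trans (htT l)
          linarith
        have h10 : (q : ℝ) * (1 / ((t l : ℝ) + 2)) ≤ ζ := by
          rw [div_le_iff₀ hζ0] at h8
          rw [mul_one_div, div_le_iff₀ (by positivity)]
          linarith
        linarith
      rw [h3]
      refine le_trans ?_ h4
      exact mul_le_mul_of_nonneg_left h2 (by linarith)
    have h11 : ∏ l : Fin k, ((1 - ζ) * (M l : ℝ)) ≤ ∏ l, (M' l : ℝ) :=
      Finset.prod_le_prod (fun l _ => mul_nonneg (by linarith) (Nat.cast_nonneg _)) fun l _ => h1 l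
    rw [Finset.prod_mul_distrib, Finset.prod_const, Finset.card_univ, Fintype.card_fin] at h11
    rw [hP, hP']
    push_cast
    exact h11
  have hdiff : P - P' ≤ η / 4 * P := by
    have h1 : 1 - η / 4 ≤ (1 - ζ) ^ k := by
      have h2 : (-2 : ℝ) ≤ -ζ := by linarith
      have h3 := one_add_mul_le_pow h2 k
      have h4 : (k : ℝ) * ζ ≤ η / 4 := by
        rw [hζ]
        rw [mul_div_assoc', div_le_div_iff₀ (by positivity) (by norm_num)]
        have : (0 : ℝ) ≤ k := Nat.cast_nonneg k
        nlinarith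
      calc 1 - η / 4 ≤ 1 + k * -ζ := by linarith
        _ ≤ (1 + -ζ) ^ k := h3
        _ = (1 - ζ) ^ k := by ring
    nlinarith
  -- the difference of the boxes
  have hsub : box M' ⊆ box M := by
    intro m hm
    rw [mem_box] at hm ⊢
    exact fun l => ⟨(hm l).1, (hm l).2.trans (hM'M l)⟩
  have e1 : |∑ m ∈ box M, c m - ∑ m ∈ box M', c m| ≤ η / 4 * P := by
    rw [← Finset.sum_sdiff hsub, add_sub_cancel_right]
    refine (Finset.abs_sum_le_sum_abs _ _).trans ((Finset.sum_le_sum fun m _ => hc m).trans ?_)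
    rw [Finset.sum_const, nsmul_eq_mul, mul_one, Finset.cast_card_sdiff hsub, card_box, card_box]
    exact hdiff
  -- the small part
  have e2 : |∑ m ∈ box M', c m - ∑ m ∈ box M', (if cut j (M' i) < m i then c m else 0)| ≤
      η / 4 * P' := by
    rw [← Finset.sum_sub_distrib]
    have h1 : ∀ m : Fin k → ℕ, |c m - (if cut j (M' i) < m i then c m else 0)| ≤
        if ¬ cut j (M' i) < m i then (1 : ℝ) else 0 := by
      intro m
      by_cases h2 : cut j (M' i) < m i
      · rw [if_pos h2, if_neg (not_not.2 h2), sub_self, abs_zero]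
      · rw [if_neg h2, if_pos h2, sub_zero]
        exact hc m
    refine (Finset.abs_sum_le_sum_abs _ _).trans ((Finset.sum_le_sum fun m _ => h1 m).trans ?_)
    rw [Finset.sum_boole]
    refine (small_part i M' (cut j (M' i))).trans ?_
    have h2 : P' = ((box (Function.update M' i 1)).card : ℝ) * (M' i : ℝ) := by
      rw [hP', card_split i M']
      push_cast
      rfl
    rw [h2]
    have h3 : (cut j (M' i) : ℝ) ≤ η / 4 * (M' i : ℝ) := by
      unfold cut
      refine (Nat.floor_le (by positivity)).trans ?_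
      exact mul_le_mul_of_nonneg_right hj.le (Nat.cast_nonneg _)
    have h5 : (0 : ℝ) ≤ ((box (Function.update M' i 1)).card : ℝ) := Nat.cast_nonneg _
    calc ((box (Function.update M' i 1)).card : ℝ) * (cut j (M' i) : ℝ)
        ≤ ((box (Function.update M' i 1)).card : ℝ) * (η / 4 * (M' i : ℝ)) :=
          mul_le_mul_of_nonneg_left h3 h5
      _ = η / 4 * (((box (Function.update M' i 1)).card : ℝ) * (M' i : ℝ)) := by ring
  -- the grid box
  have e3 : |∑ m ∈ box M', (if cut j (M' i) < m i then c m else 0)| ≤ η / 4 * P' := by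
    have h1 := hT₁' i t ((hT₁ i).trans (hTT1.trans (htT i))) hi
    unfold ravg at h1
    rw [abs_mul, abs_div, abs_one, Nat.abs_cast] at h1
    change 1 / P' * |∑ m ∈ box M', (if cut j (M' i) < m i then c m else 0)| ≤ η / 4 at h1
    rw [one_div, inv_mul_le_iff₀ hP'0] at h1
    linarith
  have e4 : |∑ m ∈ box M, c m| ≤ η * P := by
    have h1 : ∑ m ∈ box M, c m = (∑ m ∈ box M, c m - ∑ m ∈ box M', c m) +
        (∑ m ∈ box M', c m - ∑ m ∈ box M', (if cut j (M' i) < m i then c m else 0)) +
        ∑ m ∈ box M', (if cut j (M' i) < m i then c m else 0) := by ring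
    rw [h1]
    refine (abs_add_le _ _).trans ?_
    refine (add_le_add ((abs_add_le _ _).trans (add_le_add e1 e2)) e3).trans ?_
    nlinarith
  have e5 : |ravg M c| ≤ η := by
    unfold ravg
    rw [abs_mul, abs_div, abs_one, Nat.abs_cast]
    change 1 / P * |∑ m ∈ box M, c m| ≤ η
    rw [one_div, inv_mul_le_iff₀ hP0]
    linarith
  rw [dist_zero_right, Real.norm_eq_abs]
  refine lt_of_le_of_lt e5 ?_
  have := min_le_left η₀ 1
  have h2 := lt_min hη₀ one_pos
  rw [hη]
  linarith

end Pool.Agent.R136.TB
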